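import Pool.Agent.H99.FI.Exp

/-!
# Job F2 (MP_bdd10f_pr), part 1: chains, locality, pointwise cost of a repair
-/

set_option autoImplicit false

namespace FI

namespace F2

open Finset Function
open scoped Classical

variable {V : Type*} {G : SimpleGraph V} {d : ℕ}

/-! ### unfolding of chains -/

theorem pos_succ' (N : Adj V d) (x : St V d) (τ : Equiv.Perm (Fin d)) (a : Dart V d) (n : ℕ) :
    pos N x τ a (n + 1) = (nx N x τ a).bind (fun c => pos N x τ c n) := by
  induction n with
  | zero => simp [pos]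
  | succ n ih =>
    rw [pos, ih]
    cases nx N x τ a <;> simp [pos]

theorem onCh_iff {N : Adj V d} {x : St V d} {τ : Equiv.Perm (Fin d)} {a : Dart V d} {v : V} :
    onCh N x τ a v ↔ a.1 = v ∨ ∃ c, nx N x τ a = some c ∧ onCh N x τ c v := by
  constructor
  · rintro ⟨n, f, hf, hv⟩
    cases n with
    | zero =>
      simp only [pos, Option.some.injEq] at hf
      subst hf
      exact Or.inl hv
    | succ n =>
      rw [pos_succ', Option.bind_eq_some_iff] at hf
      obtain ⟨c, hc, hf⟩ := hf
      exact Or.inr ⟨c, hc, n, f, hf, hv⟩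
  · rintro (h | ⟨c, hc, n, f, hf, hv⟩)
    · exact ⟨0, a, rfl, h⟩
    · refine ⟨n + 1, f, ?_, hv⟩
      rw [pos_succ', Option.bind_eq_some_iff]
      exact ⟨c, hc, hf⟩

theorem sideOK_zero {N : Adj V d} {x : St V d} {τ : Equiv.Perm (Fin d)} {g : Dart V d} :
    sideOK 0 N x τ g ↔ N g = none := by
  unfold sideOK
  constructor
  · intro h
    by_contra hne
    obtain ⟨c, hc⟩ := Option.ne_none_iff_exists'.mp hne
    have := h c hc
    simp [pos] at this
  · intro h c hc
    rw [h] at hc
    simp at hc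

theorem sideOK_succ {J : ℕ} {N : Adj V d} {x : St V d} {τ : Equiv.Perm (Fin d)} {g : Dart V d} :
    sideOK (J + 1) N x τ g ↔ ∀ c, N g = some c → sideOK J N x τ (dt x c.1 (τ (col x c))) := by
  unfold sideOK
  refine forall_congr' fun c => imp_congr_right fun _ => ?_
  rw [pos_succ', Option.bind_eq_none_iff]
  rfl

theorem own_zero {J : ℕ} {N : Adj V d} {x : St V d} {τ : Equiv.Perm (Fin d)} {b : Fin d}
    {a : Dart V d} : own J N x τ b a 0 ↔
      sideOK J N x (Equiv.swap (τ (col x a)) b) (dt x a.1 (τ (col x a))) ∧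
      sideOK J N x (Equiv.swap b (col x a)) (dt x a.1 b) := by
  unfold own
  constructor
  · rintro ⟨f, hf, h⟩
    simp only [pos, Option.some.injEq] at hf
    subst hf
    exact h
  · intro h
    exact ⟨a, rfl, h⟩

theorem own_succ {J : ℕ} {N : Adj V d} {x : St V d} {τ : Equiv.Perm (Fin d)} {b : Fin d}
    {a : Dart V d} {n : ℕ} : own J N x τ b a (n + 1) ↔
      ∃ c, nx N x τ a = some c ∧ own J N x τ b c n := by
  unfold own
  constructor
  · rintro ⟨f, hf, h⟩
    rw [pos_succ', Option.bind_eq_some_iff] at hf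
    obtain ⟨c, hc, hf⟩ := hf
    exact ⟨c, hc, f, hf, h⟩
  · rintro ⟨c, hc, f, hf, h⟩
    refine ⟨f, ?_, h⟩
    rw [pos_succ', Option.bind_eq_some_iff]
    exact ⟨c, hc, hf⟩

/-- `v` is in the support of the exchange at position `n` -/
def SP (N : Adj V d) (x : St V d) (τ : Equiv.Perm (Fin d)) (b : Fin d) (v : V)
    (a : Dart V d) (n : ℕ) : Prop :=
  ∃ f, pos N x τ a n = some f ∧
    (v = f.1 ∨ (∃ i g, i < n ∧ pos N x τ a i = some g ∧ g.1 = v) ∨
      (∃ c, N (dt x f.1 (τ (col x f))) = some c ∧ onCh N x (Equiv.swap (τ (col x f)) b) c v) ∨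
      (∃ c, N (dt x f.1 b) = some c ∧ onCh N x (Equiv.swap b (col x f)) c v))

theorem SP_of_phi {N : Adj V d} {x : St V d} {τ : Equiv.Perm (Fin d)} {b : Fin d} {v : V}
    {a : Dart V d} {n : ℕ} (h : phi N x τ b a n v ≠ x v) : SP N x τ b v a n := by
  unfold phi at h
  cases hp : pos N x τ a n with
  | none => rw [hp] at h; exact absurd rfl h
  | some f =>
    rw [hp] at h
    refine ⟨f, hp, ?_⟩
    simp only at h
    by_cases h1 : v = f.1
    · exact Or.inl h1
    rw [if_neg h1] at h
    by_cases h2 : ∃ i g, i < n ∧ pos N x τ a i = some g ∧ g.1 = v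
    · exact Or.inr (Or.inl h2)
    rw [if_neg h2] at h
    by_cases h3 : ∃ c, N (dt x f.1 (τ (col x f))) = some c ∧
        onCh N x (Equiv.swap (τ (col x f)) b) c v
    · exact Or.inr (Or.inr (Or.inl h3))
    rw [if_neg h3] at h
    by_cases h4 : ∃ c, N (dt x f.1 b) = some c ∧ onCh N x (Equiv.swap b (col x f)) c v
    · exact Or.inr (Or.inr (Or.inr h4))
    rw [if_neg h4] at h
    exact absurd rfl h

theorem SP_zero {N : Adj V d} {x : St V d} {τ : Equiv.Perm (Fin d)} {b : Fin d} {v : V}
    {a : Dart V d} : SP N x τ b v a 0 ↔ (v = a.1 ∨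
      (∃ c, N (dt x a.1 (τ (col x a))) = some c ∧ onCh N x (Equiv.swap (τ (col x a)) b) c v) ∨
      (∃ c, N (dt x a.1 b) = some c ∧ onCh N x (Equiv.swap b (col x a)) c v)) := by
  unfold SP
  constructor
  · rintro ⟨f, hf, h⟩
    simp only [pos, Option.some.injEq] at hf
    subst hf
    rcases h with h | ⟨i, g, hi, _⟩ | h | h
    · exact Or.inl h
    · omega
    · exact Or.inr (Or.inl h)
    · exact Or.inr (Or.inr h)
  · intro h
    refine ⟨a, rfl, ?_⟩
    rcases h with h | h | h
    · exact Or.inl h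
    · exact Or.inr (Or.inr (Or.inl h))
    · exact Or.inr (Or.inr (Or.inr h))

theorem SP_succ {N : Adj V d} {x : St V d} {τ : Equiv.Perm (Fin d)} {b : Fin d} {v : V}
    {a : Dart V d} {n : ℕ} (h : SP N x τ b v a (n + 1)) :
      ∃ c, nx N x τ a = some c ∧ (v = a.1 ∨ SP N x τ b v c n) := by
  obtain ⟨f, hf, h⟩ := h
  rw [pos_succ', Option.bind_eq_some_iff] at hf
  obtain ⟨c, hc, hf⟩ := hf
  refine ⟨c, hc, ?_⟩
  rcases h with h | ⟨i, g, hi, hg, hgv⟩ | h | h
  · exact Or.inr ⟨f, hf, Or.inl h⟩
  · cases i with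
    | zero =>
      simp only [pos, Option.some.injEq] at hg
      subst hg
      exact Or.inl hgv.symm
    | succ i =>
      rw [pos_succ', Option.bind_eq_some_iff] at hg
      obtain ⟨c', hc', hg⟩ := hg
      rw [hc] at hc'
      simp only [Option.some.injEq] at hc'
      subst hc'
      exact Or.inr ⟨f, hf, Or.inr (Or.inl ⟨i, g, by omega, hg, hgv⟩)⟩
  · exact Or.inr ⟨f, hf, Or.inr (Or.inr (Or.inl h))⟩
  · exact Or.inr ⟨f, hf, Or.inr (Or.inr (Or.inr h))⟩

/-! ### locality -/

section loc

variable {U : Set V} {N N' : Adj V d} {x x' : St V d}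

/-- `N`, `x` and `N'`, `x'` agree on `U`, and `U` is a union of components -/
structure Loc (U : Set V) (N N' : Adj V d) (x x' : St V d) : Prop where
  adj : ∀ f : Dart V d, f.1 ∈ U → N f = N' f
  cl : ∀ f g : Dart V d, f.1 ∈ U → N f = some g → g.1 ∈ U
  st : ∀ v ∈ U, x v = x' v

theorem Loc.col (h : Loc U N N' x x') {a : Dart V d} (ha : a.1 ∈ U) :
    FI.col x a = FI.col x' a := by
  unfold FI.col; rw [h.st _ ha]

theorem Loc.dt (h : Loc U N N' x x') {v : V} (hv : v ∈ U) (k : Fin d) :
    FI.dt x v k = FI.dt x' v k := by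
  unfold FI.dt; rw [h.st _ hv]

theorem Loc.nx (h : Loc U N N' x x') {a : Dart V d} (ha : a.1 ∈ U) (τ : Equiv.Perm (Fin d)) :
    FI.nx N x τ a = FI.nx N' x' τ a := by
  unfold FI.nx
  rw [← h.col ha, ← h.dt ha, h.adj _ (by exact ha)]

theorem Loc.nx_mem (h : Loc U N N' x x') {a c : Dart V d} (ha : a.1 ∈ U)
    {τ : Equiv.Perm (Fin d)} (hc : FI.nx N x τ a = some c) : c.1 ∈ U :=
  h.cl _ _ (by exact ha) hc

theorem Loc.pos (h : Loc U N N' x x') (τ : Equiv.Perm (Fin d)) (n : ℕ) {a : Dart V d}
    (ha : a.1 ∈ U) : FI.pos N x τ a n = FI.pos N' x' τ a n := by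
  induction n generalizing a with
  | zero => rfl
  | succ n ih =>
    rw [pos_succ', pos_succ', ← h.nx ha]
    cases hc : FI.nx N x τ a with
    | none => rfl
    | some c => exact ih (h.nx_mem ha hc)

theorem Loc.pos_mem (h : Loc U N N' x x') (τ : Equiv.Perm (Fin d)) (n : ℕ) {a c : Dart V d}
    (ha : a.1 ∈ U) (hc : FI.pos N x τ a n = some c) : c.1 ∈ U := by
  induction n generalizing a with
  | zero =>
    simp only [FI.pos, Option.some.injEq] at hc
    subst hc
    exact ha
  | succ n ih =>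
    rw [pos_succ', Option.bind_eq_some_iff] at hc
    obtain ⟨c', hc', hc⟩ := hc
    exact ih (h.nx_mem ha hc') hc

theorem Loc.onCh (h : Loc U N N' x x') (τ : Equiv.Perm (Fin d)) {a : Dart V d}
    (ha : a.1 ∈ U) (v : V) : FI.onCh N x τ a v ↔ FI.onCh N' x' τ a v := by
  unfold FI.onCh
  simp only [h.pos τ _ ha]

theorem Loc.sideOK (h : Loc U N N' x x') (J : ℕ) (τ : Equiv.Perm (Fin d)) {a : Dart V d}
    (ha : a.1 ∈ U) : FI.sideOK J N x τ a ↔ FI.sideOK J N' x' τ a := by
  unfold FI.sideOK
  rw [← h.adj _ ha]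
  refine forall_congr' fun c => imp_congr_right fun hc => ?_
  rw [h.pos τ J (h.cl _ _ ha hc)]

theorem Loc.own (h : Loc U N N' x x') (J : ℕ) (τ : Equiv.Perm (Fin d)) (b : Fin d)
    {a : Dart V d} (ha : a.1 ∈ U) (n : ℕ) : FI.own J N x τ b a n ↔ FI.own J N' x' τ b a n := by
  unfold FI.own
  rw [← h.pos τ n ha]
  refine exists_congr fun f => and_congr_right fun hf => ?_
  have hfU := h.pos_mem τ n ha hf
  rw [← h.col hfU, ← h.dt hfU, ← h.dt hfU, h.sideOK J _ (by exact hfU),
    h.sideOK J _ (by exact hfU)]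

theorem Loc.cntOwn (h : Loc U N N' x x') (J : ℕ) (τ : Equiv.Perm (Fin d)) (b : Fin d)
    {a : Dart V d} (ha : a.1 ∈ U) (n : ℕ) :
    FI.cntOwn J N x τ b a n = FI.cntOwn J N' x' τ b a n := by
  unfold FI.cntOwn
  simp only [h.own J τ b ha]

theorem Loc.flip (h : Loc U N N' x x') (τ : Equiv.Perm (Fin d)) {a : Dart V d}
    (ha : a.1 ∈ U) : Loc U N N' (FI.flip N x τ a) (FI.flip N' x' τ a) := by
  refine ⟨h.adj, h.cl, fun v hv => ?_⟩
  unfold FI.flip
  simp only [h.onCh τ ha, h.st v hv]

theorem Loc.cntOth (h : Loc U N N' x x') (J : ℕ) (τ : Equiv.Perm (Fin d)) (b : Fin d)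
    {a : Dart V d} (ha : a.1 ∈ U) (n : ℕ) :
    FI.cntOth J N x τ b a n = FI.cntOth J N' x' τ b a n :=
  (h.flip τ ha).cntOwn J τ b ha n

theorem Loc.avail (h : Loc U N N' x x') (P : Par) (τ : Equiv.Perm (Fin d)) (b : Fin d)
    {a : Dart V d} (ha : a.1 ∈ U) :
    FI.avail P N x τ b a = FI.avail P N' x' τ b a := by
  unfold FI.avail
  congr 1
  funext j
  have hs : sel P N x τ b a j ↔ sel P N' x' τ b a j := by
    unfold sel
    rw [h.cntOwn P.J τ b ha, h.cntOth P.J τ b ha, h.own P.J τ b ha]
  by_cases h1 : sel P N x τ b a j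
  · rw [decide_eq_true h1, decide_eq_true (hs.mp h1)]
  · rw [decide_eq_false h1, decide_eq_false (fun h2 => h1 (hs.mpr h2))]

end loc

/-! ### the list of available indices -/

theorem avail_nodup (P : Par) (N : Adj V d) (x : St V d) (τ : Equiv.Perm (Fin d))
    (b : Fin d) (a : Dart V d) : (avail P N x τ b a).Nodup :=
  List.nodup_range.filter _

theorem avail_toFinset (P : Par) (N : Adj V d) (x : St V d) (τ : Equiv.Perm (Fin d))
    (b : Fin d) (a : Dart V d) :
    (avail P N x τ b a).toFinset = (range P.M).filter (fun j => sel P N x τ b a j) := by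
  ext j
  simp [avail]

theorem avail_length_le (P : Par) (N : Adj V d) (x : St V d) (τ : Equiv.Perm (Fin d))
    (b : Fin d) (a : Dart V d) : (avail P N x τ b a).length ≤ P.K := by
  rw [← List.toFinset_card_of_nodup (avail_nodup P N x τ b a), avail_toFinset]
  set s := (range P.M).filter (fun j => sel P N x τ b a j) with hs
  rcases s.eq_empty_or_nonempty with h | h
  · rw [h]; simp
  · set j := s.max' h with hj
    have hjs : j ∈ s := s.max'_mem h
    have h1 : s.erase j ⊆ (range j).filter (fun m => own P.J N x τ b a (2 * m)) := by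
      intro m hm
      rw [Finset.mem_erase] at hm
      rw [Finset.mem_filter, Finset.mem_range]
      refine ⟨lt_of_le_of_ne (s.le_max' m hm.2) hm.1, ?_⟩
      exact (Finset.mem_filter.mp hm.2).2.1
    have h2 := Finset.card_le_card h1
    rw [Finset.card_erase_of_mem hjs] at h2
    have h3 : cntOwn P.J N x τ b a j < P.K := (Finset.mem_filter.mp hjs).2.2.1
    unfold cntOwn at h3
    have h4 : 0 < s.card := Finset.card_pos.mpr h
    omega

/-- summing over the noise -/
theorem sum_getElem (l : List ℕ) (K : ℕ) (hK : l.length ≤ K) (g : ℕ → ℝ) (c : ℝ) :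
    ∑ ξ ∈ range K, (match l[ξ]? with | some j => g j | none => c) =
      (l.map g).sum + (K - l.length : ℝ) * c := by
  induction l generalizing K with
  | nil => simp
  | cons a l ih =>
    cases K with
    | zero => simp at hK
    | succ K =>
      rw [Finset.sum_range_succ']
      simp only [List.getElem?_cons_succ, List.getElem?_cons_zero]
      rw [ih K (by simpa using hK)]
      simp only [List.map_cons, List.sum_cons, List.length_cons]
      push_cast
      ring

theorem avail_map_sum (P : Par) (N : Adj V d) (x : St V d) (τ : Equiv.Perm (Fin d))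
    (b : Fin d) (a : Dart V d) (g : ℕ → ℝ) :
    ((avail P N x τ b a).map g).sum =
      ∑ j ∈ range P.M, (if sel P N x τ b a j then g j else 0) := by
  rw [← Finset.sum_filter, ← avail_toFinset, List.sum_toFinset g (avail_nodup P N x τ b a)]

/-- pointwise bound for the kernel -/
theorem kern_cost [NeZero d] (P : Par) (N : Adj V d) (x : St V d) (a b' : Dart V d) (v : V)
    (hne : col x a ≠ col x b') :
    ∑ ξ ∈ range P.K, (if kern P N x ξ a b' v ≠ x v then (1 : ℝ) else 0) ≤
      (P.K - ((avail P N x (Equiv.swap (col x a) (col x b'))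
        (third (col x a) (col x b')) a).length : ℝ)) *
        (if onCh N x (Equiv.swap (col x a) (col x b')) b' v then 1 else 0) +
      ∑ j ∈ range P.M, (if own P.J N x (Equiv.swap (col x a) (col x b'))
        (third (col x a) (col x b')) a (2 * j) ∧
        SP N x (Equiv.swap (col x a) (col x b')) (third (col x a) (col x b')) v a (2 * j)
        then (1 : ℝ) else 0) := by
  set τ := Equiv.swap (col x a) (col x b')
  set b := third (col x a) (col x b')
  have h1 : ∀ ξ ∈ range P.K, (if kern P N x ξ a b' v ≠ x v then (1 : ℝ) else 0) ≤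
      (match (avail P N x τ b a)[ξ]? with
        | some j => (if SP N x τ b v a (2 * j) then (1 : ℝ) else 0)
        | none => if onCh N x τ b' v then (1 : ℝ) else 0) := by
    intro ξ _
    unfold kern
    rw [if_neg hne]
    change (if (match (avail P N x τ b a)[ξ]? with
      | some j => phi N x τ b a (2 * j)
      | none => flip N x τ b') v ≠ x v then (1 : ℝ) else 0) ≤ _
    cases h : (avail P N x τ b a)[ξ]? with
    | some j =>
      simp only
      by_cases h2 : phi N x τ b a (2 * j) v ≠ x v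
      · rw [if_pos h2, if_pos (SP_of_phi h2)]
      · rw [if_neg h2]; split_ifs <;> norm_num
    | none =>
      simp only
      by_cases h2 : onCh N x τ b' v
      · rw [if_pos h2]; split_ifs <;> norm_num
      · have : flip N x τ b' v = x v := by unfold flip; rw [if_neg h2]
        rw [if_neg h2, if_neg (fun h3 => h3 this)]
  refine (Finset.sum_le_sum h1).trans ?_
  rw [sum_getElem _ _ (avail_length_le P N x τ b a), avail_map_sum, add_comm]
  refine add_le_add le_rfl (Finset.sum_le_sum fun j _ => ?_)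
  by_cases h2 : sel P N x τ b a j
  · rw [if_pos h2]
    by_cases h3 : SP N x τ b v a (2 * j)
    · rw [if_pos h3, if_pos ⟨h2.1, h3⟩]
    · rw [if_neg h3]; split_ifs <;> norm_num
  · rw [if_neg h2]; split_ifs <;> norm_num

end F2

end FI
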