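import Pool.Agent.H99.FI.Cost.F2Path

/-!
# Job F2 (MP_bdd10f_pr), part 3: the exchange event seen from a vertex
-/

set_option autoImplicit false

namespace FI

namespace F2

open Finset Function
open scoped Classical

variable {V : Type*} {G : SimpleGraph V} {d : ℕ} {T : PT G d}

/-- an extension of the explored set by vertices beyond `g` -/
structure Ext (T : PT G d) (r : V) (B A : Finset V) (g : Dart V d) (ω : Cfg V d)
    (A' : Finset V) (ω' : Cfg V d) : Prop where
  clo : Clo G r A'
  sub : A ⊆ A'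
  subB : A' ⊆ B
  other : ∀ g', g' ≠ g → Lv T A g' → Lv T A' g'
  off : Off (T.cA B A) ω ω'

theorem Ext.refl {r : V} {B A : Finset V} {g : Dart V d} {ω : Cfg V d} (hA : Clo G r A)
    (hAB : A ⊆ B) : Ext T r B A g ω A ω :=
  ⟨hA, Finset.Subset.refl _, hAB, fun _ _ h => h, Off.refl _ _⟩

theorem Ext.step (hG : G.IsTree) {r : V} {B A : Finset V} {g : Dart V d} {ω : Cfg V d}
    {A' : Finset V} {ω' : Cfg V d} (hA : Clo G r A) (hAB : A ⊆ B) (hg : Lv T A g)
    (hwB : (T.N0 g).1 ∈ B) {σ : Equiv.Perm (Fin d)} {b : Bool} {i : Fin d}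
    (h : Ext T r B (insert (T.N0 g).1 A) ((T.N0 g).1, i) (up T g ω σ b) A' ω') :
    Ext T r B A g ω A' ω' := by
  refine ⟨h.clo, (Finset.subset_insert _ _).trans h.sub, h.subB, fun g' hne hg' => ?_, ?_⟩
  · refine h.other g' ?_ (hg.other hG hA hg' hne)
    intro h'
    have := hg'.1
    rw [h'] at this
    exact hg.2 this
  · exact off_trans hAB hg hwB h.off

theorem ball_next {B : Finset V} (hG : G.IsTree) {g : Dart V d} {n : ℕ}
    (h : ∀ z, G.dist g.1 z ≤ n + 1 → z ∈ B) : ∀ z, G.dist (T.N0 g).1 z ≤ n → z ∈ B := by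
  intro z hz
  apply h
  have h1 := hG.connected.dist_triangle (u := g.1) (v := (T.N0 g).1) (w := z)
  have h2 : G.dist g.1 (T.N0 g).1 = 1 := SimpleGraph.dist_eq_one_iff_adj.mpr (T.adj g)
  omega

theorem nof_of {B : Finset V} {u : Dart V d → Bool} {g : Dart V d} (h1 : g.1 ∈ B)
    (h2 : (T.N0 g).1 ∈ B) (h3 : u (T.cd g) = true) : T.nof B u g = some (T.N0 g) :=
  T.nof_some.mpr ⟨h1, h2, h3, rfl⟩

section

variable {ε : Dart V d → ℝ} (hε : WOK ε) (hG : G.IsTree) (hd : 2 ≤ d) {εh : ℝ}
  (hεh : ∀ e, ε e ≤ εh) {r : V} {B : Finset V} (hB : Clo G r B)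

include hε hG hd hεh hB

/-- upper bound for the probability that a side chain is short, with a passenger `H` -/
theorem side_le (J : ℕ) (H : Cfg V d → ℝ) (hH0 : ∀ ω, 0 ≤ H ω) (h : ℝ) (h0 : 0 ≤ h)
    {τ : Equiv.Perm (Fin d)} (hτ : ∀ k, τ (τ k) = k) :
    ∀ (A : Finset V) (g : Dart V d) (ω : Cfg V d), Clo G r A → A ⊆ B → Lv T A g →
      (∀ z, G.dist g.1 z ≤ J + 1 → z ∈ B) → τ (col ω.1 g) ≠ col ω.1 g →
      (∀ A' ω', Ext T r B A g ω A' ω' → T.EE ε B A' H ω' ≤ h) →
      T.EE ε B A (fun ω' => if sideOK J (T.nof B ω'.2) ω'.1 τ g then H ω' else 0) ω ≤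
        (J + 1) * εh * h := by
  induction J with
  | zero =>
    intro A g ω hA hAB hg hball hτg hH
    have hwB : (T.N0 g).1 ∈ B := by
      apply hball
      rw [SimpleGraph.dist_eq_one_iff_adj.mpr (T.adj g)]
    have hA' := hg.clo hG hA
    have hAB' := Finset.insert_subset hwB hAB
    have hεh0 : 0 ≤ εh := (hε (T.cd g)).1.trans (hεh _)
    have hst := EE_step_le hε hG hA hAB hg hwB
      (fun ω' => if sideOK 0 (T.nof B ω'.2) ω'.1 τ g then H ω' else 0) ω (fun _ => 0) h
      (fun σ _ => EE_le_const hε hG (by omega) hA' hB hAB' _ _ 0 fun ω' ho _ => by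
        rw [if_neg]
        rw [sideOK_zero, nof_of (hAB hg.1) hwB (off_cut hg ho)]
        simp)
      (fun σ => by
        refine le_trans (PT.EE_mono B _ hε (F' := H) (fun ω' => ?_) _) (hH _ _ ?_)
        · split_ifs
          · exact le_rfl
          · exact hH0 ω'
        · exact ⟨hA', Finset.subset_insert _ _, hAB', fun g' hne hg' => hg.other hG hA hg' hne,
            up_off hAB hg hwB⟩)
    refine hst.trans ?_
    simp only [mul_zero, Finset.sum_const_zero, zero_add, Nat.cast_zero, one_mul]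
    exact mul_le_mul_of_nonneg_right (hεh _) h0
  | succ J ih =>
    intro A g ω hA hAB hg hball hτg hH
    have hwB : (T.N0 g).1 ∈ B := by
      apply hball
      rw [SimpleGraph.dist_eq_one_iff_adj.mpr (T.adj g)]
      omega
    have hA' := hg.clo hG hA
    have hAB' := Finset.insert_subset hwB hAB
    have hεh0 : 0 ≤ εh := (hε (T.cd g)).1.trans (hεh _)
    have hst := EE_step_le hε hG hA hAB hg hwB
      (fun ω' => if sideOK (J + 1) (T.nof B ω'.2) ω'.1 τ g then H ω' else 0) ω
      (fun _ => (J + 1) * εh * h) h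
      (fun σ hσ => by
        set i' := σ.symm (τ (col ω.1 g)) with hi'
        have hij' : i' ≠ (T.N0 g).2 := by
          intro h
          have h2 := congrArg σ h
          rw [hi', Equiv.apply_symm_apply, hσ] at h2
          exact hτg h2
        have hg' : Lv T (insert (T.N0 g).1 A) ((T.N0 g).1, i') := hg.next hG hA hij'
        have hcol' : col (up T g ω σ true).1 ((T.N0 g).1, i') = τ (col ω.1 g) := by
          unfold col
          rw [up_new, hi', Equiv.apply_symm_apply]
          rfl
        refine le_trans (PT.EE_mono_off B _ hε _ fun ω' ho => ?_)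
          (ih (insert (T.N0 g).1 A) ((T.N0 g).1, i') (up T g ω σ true) hA' hAB' hg'
          (ball_next hG hball) (by rw [hcol', hτ]; exact hτg.symm)
          (fun A'' ω'' hext => hH A'' ω'' (hext.step hG hA hAB hg hwB)))
        by_cases h1 : sideOK (J + 1) (T.nof B ω'.2) ω'.1 τ g
        · rw [if_pos h1, if_pos]
          rw [sideOK_succ] at h1
          have h2 := h1 _ (nof_of (hAB hg.1) hwB (off_cut hg ho))
          have : dt ω'.1 (T.N0 g).1 (τ (col ω'.1 (T.N0 g))) = ((T.N0 g).1, i') := by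
            unfold dt col
            rw [off_new ho, hσ]
          rwa [this] at h2
        · rw [if_neg h1]
          split_ifs
          · exact hH0 ω'
          · exact le_rfl)
      (fun σ => by
        refine le_trans (PT.EE_mono B _ hε (F' := H) (fun ω' => ?_) _) (hH _ _ ?_)
        · split_ifs
          · exact le_rfl
          · exact hH0 ω'
        · exact ⟨hA', Finset.subset_insert _ _, hAB', fun g' hne hg' => hg.other hG hA hg' hne,
            up_off hAB hg hwB⟩)
    refine hst.trans ?_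
    rw [← Finset.sum_mul, ← mul_assoc (1 / (d.factorial : ℝ)), PT.avg_match (by omega), one_mul]
    have hε1 := hε (T.cd g)
    have hJ : (0 : ℝ) ≤ (J + 1) * εh * h := by positivity
    have e1 : (1 - ε (T.cd g)) * ((J + 1) * εh * h) ≤ (J + 1) * εh * h := by
      nlinarith
    have e2 : ε (T.cd g) * h ≤ εh * h := mul_le_mul_of_nonneg_right (hεh _) h0
    push_cast
    nlinarith

/-- the side chain is short and passes through `v` -/
theorem side_path {τ : Equiv.Perm (Fin d)} (hτ : ∀ k, τ (τ k) = k) (v : V) (t : ℕ) :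
    ∀ (J : ℕ) (A : Finset V) (g : Dart V d) (ω : Cfg V d), Clo G r A → A ⊆ B → Lv T A g →
      (∀ z, G.dist g.1 z ≤ J + 1 → z ∈ B) → τ (col ω.1 g) ≠ col ω.1 g →
      Aw T v g → G.dist v (T.N0 g).1 = t →
      T.EE ε B A (fun ω' => if sideOK J (T.nof B ω'.2) ω'.1 τ g ∧
        (∃ c, T.nof B ω'.2 g = some c ∧ onCh (T.nof B ω'.2) ω'.1 τ c v) then (1 : ℝ) else 0) ω ≤
        (J + 1) * εh * (1 / ((d : ℝ) - 1)) ^ t := by
  have hd1 : (0 : ℝ) < (d : ℝ) - 1 := by
    have : (2 : ℝ) ≤ d := by exact_mod_cast hd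
    linarith
  induction t with
  | zero =>
    intro J A g ω hA hAB hg hball hτg hv ht
    have h1 := side_le hε hG hd hεh hB J (fun _ => 1) (fun _ => by norm_num) 1 (by norm_num)
      hτ A g ω hA hAB hg hball hτg
      (fun A' ω' hext => by rw [PT.EE_one hG (by omega) ε hext.clo hB hext.subB])
    refine le_trans (PT.EE_mono B _ hε (fun ω' => ?_) _) (h1.trans (by simp))
    by_cases h2 : sideOK J (T.nof B ω'.2) ω'.1 τ g
    · rw [if_pos h2]; split_ifs <;> norm_num
    · rw [if_neg h2, if_neg (fun h => h2 h.1)]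
  | succ t ih =>
    intro J A g ω hA hAB hg hball hτg hv ht
    have hεh0 : 0 ≤ εh := (hε (T.cd g)).1.trans (hεh _)
    cases J with
    | zero =>
      refine (EE_le_const hε hG (by omega) hA hB hAB _ _ 0 fun ω' _ _ => ?_).trans (by positivity)
      rw [if_neg]
      rintro ⟨h1, c, h2, _⟩
      rw [sideOK_zero, h2] at h1
      simp at h1
    | succ J =>
    have hwB : (T.N0 g).1 ∈ B := by
      apply hball
      rw [SimpleGraph.dist_eq_one_iff_adj.mpr (T.adj g)]
      omega
    have hA' := hg.clo hG hA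
    have hAB' := Finset.insert_subset hwB hAB
    have hwv : (T.N0 g).1 ≠ v := by
      intro h
      rw [h, SimpleGraph.dist_self] at ht
      omega
    obtain ⟨i, hi⟩ := Aw_exists (T := T) hG hwv
    have hij : i ≠ (T.N0 g).2 := by
      rintro rfl
      exact Aw_not_both hv hi
    have hcut : ∀ σ : Equiv.Perm (Fin d), T.EE ε B (insert (T.N0 g).1 A)
        (fun ω' => if sideOK (J + 1) (T.nof B ω'.2) ω'.1 τ g ∧
          (∃ c, T.nof B ω'.2 g = some c ∧ onCh (T.nof B ω'.2) ω'.1 τ c v)
          then (1 : ℝ) else 0) (up T g ω σ false) ≤ 0 := by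
      intro σ
      refine EE_le_const hε hG (by omega) hA' hB hAB' _ _ _ fun ω' ho _ => ?_
      rw [if_neg]
      rintro ⟨_, c, hc, _⟩
      have h1 := (T.nof_some.mp hc).2.2.1
      rw [off_cut hg ho] at h1
      simp at h1
    have h1 : ∀ σ : Equiv.Perm (Fin d), σ (T.N0 g).2 = col ω.1 g →
        T.EE ε B (insert (T.N0 g).1 A)
        (fun ω' => if sideOK (J + 1) (T.nof B ω'.2) ω'.1 τ g ∧
          (∃ c, T.nof B ω'.2 g = some c ∧ onCh (T.nof B ω'.2) ω'.1 τ c v)
          then (1 : ℝ) else 0) (up T g ω σ true) ≤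
        (if σ i = τ (col ω.1 g) then 1 else 0) * ((J + 1) * εh * (1 / ((d : ℝ) - 1)) ^ t) := by
      intro σ hσ
      set i' := σ.symm (τ (col ω.1 g)) with hi'
      have hij' : i' ≠ (T.N0 g).2 := by
        intro h
        have h2 := congrArg σ h
        rw [hi', Equiv.apply_symm_apply, hσ] at h2
        exact hτg h2
      have hg' : Lv T (insert (T.N0 g).1 A) ((T.N0 g).1, i') := hg.next hG hA hij'
      have hred : ∀ ω' : Cfg V d, Off (T.cA B (insert (T.N0 g).1 A)) (up T g ω σ true) ω' →
          (sideOK (J + 1) (T.nof B ω'.2) ω'.1 τ g ∧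
            ∃ c, T.nof B ω'.2 g = some c ∧ onCh (T.nof B ω'.2) ω'.1 τ c v) →
          (sideOK J (T.nof B ω'.2) ω'.1 τ ((T.N0 g).1, i') ∧
            ∃ c, T.nof B ω'.2 ((T.N0 g).1, i') = some c ∧
            onCh (T.nof B ω'.2) ω'.1 τ c v) := by
        rintro ω' ho ⟨hside, c, hc, hon⟩
        have hdt : dt ω'.1 (T.N0 g).1 (τ (col ω'.1 (T.N0 g))) = ((T.N0 g).1, i') := by
          unfold dt col
          rw [off_new ho, hσ]
        constructor
        · rw [sideOK_succ] at hside
          have h2 := hside _ (nof_of (hAB hg.1) hwB (off_cut hg ho))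
          rwa [hdt] at h2
        have hcc := (T.nof_some.mp hc).2.2.2
        subst hcc
        rw [onCh_iff] at hon
        rcases hon with h | ⟨c', hc', hon⟩
        · exact absurd h hwv
        · refine ⟨c', ?_, hon⟩
          unfold nx at hc'
          rw [hdt] at hc'
          exact hc'
      have hcol' : col (up T g ω σ true).1 ((T.N0 g).1, i') = τ (col ω.1 g) := by
        unfold col
        rw [up_new, hi', Equiv.apply_symm_apply]
        rfl
      by_cases hii : σ i = τ (col ω.1 g)
      · rw [if_pos hii, one_mul]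
        have hieq : i' = i := by rw [hi', ← hii, Equiv.symm_apply_apply]
        refine le_trans (PT.EE_mono_off B _ hε _ fun ω' ho => ?_)
          (ih J (insert (T.N0 g).1 A) ((T.N0 g).1, i') (up T g ω σ true) hA' hAB' hg'
          (ball_next hG hball) (by rw [hcol', hτ]; exact hτg.symm) (by rw [hieq]; exact hi) ?_)
        · by_cases hx : sideOK (J + 1) (T.nof B ω'.2) ω'.1 τ g ∧
            ∃ c, T.nof B ω'.2 g = some c ∧ onCh (T.nof B ω'.2) ω'.1 τ c v
          · rw [if_pos hx, if_pos (hred ω' ho hx)]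
          · rw [if_neg hx]; split_ifs <;> norm_num
        · unfold Aw at hi
          simp only at hi
          rw [hieq]
          omega
      · rw [if_neg hii, zero_mul]
        refine EE_le_const hε hG (by omega) hA' hB hAB' _ _ 0 fun ω' ho hco => ?_
        rw [if_neg]
        intro hx
        refine not_reach hG hA' hco hτ hg' ?_ ?_ (hred ω' ho hx).2
        · have : col ω'.1 ((T.N0 g).1, i') = τ (col ω.1 g) := by
            unfold col
            rw [off_new ho, hi', Equiv.apply_symm_apply]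
            rfl
          rw [this, hτ]
          exact hτg.symm
        · rcases Aw_or (T := T) hG v ((T.N0 g).1, i') with h | h
          · exfalso
            apply hii
            rw [Aw_unique hG hi h, hi', Equiv.apply_symm_apply]
          · exact h
    have h := EE_step_le hε hG hA hAB hg hwB _ ω _ 0 h1 hcut
    refine h.trans ?_
    rw [avg2_mul hd hij (τ (col ω.1 g)) hτg, mul_zero, add_zero]
    have hε1 := hε (T.cd g)
    have e0 : 0 ≤ 1 / ((d : ℝ) - 1) * ((J + 1) * εh * (1 / ((d : ℝ) - 1)) ^ t) := by positivity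
    have e1 : (1 - ε (T.cd g)) * (1 / ((d : ℝ) - 1) * ((J + 1) * εh * (1 / ((d : ℝ) - 1)) ^ t)) ≤
        1 / ((d : ℝ) - 1) * ((J + 1) * εh * (1 / ((d : ℝ) - 1)) ^ t) := by nlinarith
    refine e1.trans ?_
    have e2 : 0 ≤ εh * (1 / ((d : ℝ) - 1)) ^ (t + 1) := by positivity
    push_cast
    calc 1 / ((d : ℝ) - 1) * ((J + 1) * εh * (1 / ((d : ℝ) - 1)) ^ t)
        = (J + 1) * (εh * (1 / ((d : ℝ) - 1)) ^ (t + 1)) := by rw [pow_succ]; ring
      _ ≤ (J + 1 + 1) * (εh * (1 / ((d : ℝ) - 1)) ^ (t + 1)) := by nlinarith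
      _ = _ := by ring

/-- probability of the exchange -/
theorem own_le (J : ℕ) {τ : Equiv.Perm (Fin d)} (hτ : ∀ k, τ (τ k) = k) (b : Fin d) (n : ℕ) :
    ∀ (A : Finset V) (f : Dart V d) (ω : Cfg V d), Clo G r A → A ⊆ B →
      (∀ i, i ≠ f.2 → Lv T A (f.1, i)) → (∀ z, G.dist f.1 z ≤ n + J + 1 → z ∈ B) →
      τ (col ω.1 f) ≠ col ω.1 f → b ≠ col ω.1 f → b ≠ τ (col ω.1 f) → f.1 ∈ A →
      T.EE ε B A (fun ω' => if own J (T.nof B ω'.2) ω'.1 τ b f n then (1 : ℝ) else 0) ω ≤
        ((J + 1) * εh) ^ 2 := by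
  induction n with
  | zero =>
    intro A f ω hA hAB hf hball hτf hb hb' hfA
    set gm := dt ω.1 f.1 (τ (col ω.1 f)) with hgm
    set gb := dt ω.1 f.1 b with hgb
    have hεh0 : 0 ≤ εh := (hε (T.cd f)).1.trans (hεh _)
    have hcm : col ω.1 gm = τ (col ω.1 f) := by simp [hgm, dt, col]
    have hcb : col ω.1 gb = b := by simp [hgb, dt, col]
    have hm2 : gm.2 ≠ f.2 := by
      intro h
      apply hτf
      rw [← hcm]
      unfold col
      rw [h]
      rfl
    have hb2 : gb.2 ≠ f.2 := by
      intro h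
      apply hb
      rw [← hcb]
      unfold col
      rw [h]
      rfl
    have hmb : gb ≠ gm := by
      intro h
      apply hb'
      rw [← hcb, ← hcm, h]
    have hLm : Lv T A gm := hf gm.2 hm2
    have hLb : Lv T A gb := hf gb.2 hb2
    have hball' : ∀ z, G.dist f.1 z ≤ J + 1 → z ∈ B := fun z hz => hball z (by omega)
    have h1 := side_le hε hG hd hεh hB J
      (fun ω' => if sideOK J (T.nof B ω'.2) ω'.1 (Equiv.swap b (col ω.1 f)) gb
        then (1 : ℝ) else 0) (fun ω' => by split_ifs <;> norm_num) ((J + 1) * εh * 1)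
        (by positivity) (swap_swap_apply (τ (col ω.1 f)) b) A gm ω hA hAB hLm hball'
        (by rw [hcm, Equiv.swap_apply_left]; exact hb')
        (fun A' ω' hext => by
          refine side_le hε hG hd hεh hB J (fun _ => 1) (fun _ => by norm_num) 1 (by norm_num)
            (swap_swap_apply b (col ω.1 f)) A' gb ω' hext.clo hext.subB (hext.other _ hmb hLb)
            hball' ?_
            (fun A'' ω'' hext' => by rw [PT.EE_one hG (by omega) ε hext'.clo hB hext'.subB])
          have : col ω'.1 gb = b := by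
            rw [← hcb]
            unfold col
            rw [off_st hext.off hLb.1]
          rw [this, Equiv.swap_apply_left]
          exact hb.symm)
    refine le_trans (PT.EE_mono_off B _ hε _ fun ω' ho => ?_) (h1.trans (le_of_eq (by ring)))
    have hx : ω'.1 f.1 = ω.1 f.1 := off_st ho hfA
    have e1 : col ω'.1 f = col ω.1 f := by unfold col; rw [hx]
    have e2 : ∀ k, dt ω'.1 f.1 k = dt ω.1 f.1 k := fun k => by unfold dt; rw [hx]
    by_cases h2 : own J (T.nof B ω'.2) ω'.1 τ b f 0
    · rw [if_pos h2]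
      rw [own_zero, e1, e2, e2, ← hgm, ← hgb] at h2
      rw [if_pos h2.1, if_pos h2.2]
    · rw [if_neg h2]; split_ifs <;> norm_num
  | succ n ih =>
    intro A f ω hA hAB hf hball hτf hb hb' hfA
    set gm := dt ω.1 f.1 (τ (col ω.1 f)) with hgm
    have hεh0 : 0 ≤ εh := (hε (T.cd f)).1.trans (hεh _)
    have hcm : col ω.1 gm = τ (col ω.1 f) := by simp [hgm, dt, col]
    have hm2 : gm.2 ≠ f.2 := by
      intro h
      apply hτf
      rw [← hcm]
      unfold col
      rw [h]
      rfl
    have hLm : Lv T A gm := hf gm.2 hm2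
    have hball' : ∀ z, G.dist gm.1 z ≤ (n + J + 1) + 1 → z ∈ B :=
      fun z hz => hball z (by change G.dist f.1 z ≤ _ at hz; omega)
    have hwB : (T.N0 gm).1 ∈ B := by
      apply hball'
      rw [SimpleGraph.dist_eq_one_iff_adj.mpr (T.adj gm)]
      omega
    have hA' := hLm.clo hG hA
    have hAB' := Finset.insert_subset hwB hAB
    have hnx : ∀ ω' : Cfg V d, Off (T.cA B A) ω ω' →
        nx (T.nof B ω'.2) ω'.1 τ f = T.nof B ω'.2 gm := by
      intro ω' ho
      have hx : ω'.1 f.1 = ω.1 f.1 := off_st ho hfA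
      unfold nx
      congr 1
      rw [hgm]
      unfold dt col
      rw [hx]
    have h := EE_step_le hε hG hA hAB hLm hwB
      (fun ω' => if own J (T.nof B ω'.2) ω'.1 τ b f (n + 1) then (1 : ℝ) else 0) ω
      (fun _ => ((J + 1) * εh) ^ 2) 0
      (fun σ hσ => by
        have hcn : col (up T gm ω σ true).1 (T.N0 gm) = τ (col ω.1 f) := by
          rw [← hcm, ← hσ]; unfold col; rw [up_new]
        refine le_trans (PT.EE_mono_off B _ hε _ fun ω' ho => ?_)
          (ih (insert (T.N0 gm).1 A) (T.N0 gm) (up T gm ω σ true) hA' hAB'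
            (fun i hi => hLm.next hG hA hi) (ball_next hG hball')
            (by rw [hcn, hτ]; exact hτf.symm) (by rw [hcn]; exact hb')
            (by rw [hcn, hτ]; exact hb) (Finset.mem_insert_self _ _))
        by_cases h1 : own J (T.nof B ω'.2) ω'.1 τ b f (n + 1)
        · rw [if_pos h1, if_pos]
          rw [own_succ, hnx ω' (off_trans hAB hLm hwB ho)] at h1
          obtain ⟨c, hc, h1⟩ := h1
          have hcc := (T.nof_some.mp hc).2.2.2
          rwa [← hcc] at h1
        · rw [if_neg h1]; split_ifs <;> norm_num)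
      (fun σ => EE_le_const hε hG (by omega) hA' hB hAB' _ _ 0 fun ω' ho _ => by
        rw [if_neg]
        rw [own_succ, hnx ω' (off_trans hAB hLm hwB ho)]
        rintro ⟨c, hc, _⟩
        have h1 := (T.nof_some.mp hc).2.2.1
        rw [off_cut hLm ho] at h1
        simp at h1)
    refine h.trans ?_
    rw [← Finset.sum_mul, ← mul_assoc (1 / (d.factorial : ℝ)), PT.avg_match (by omega), one_mul,
      mul_zero, add_zero]
    have hε1 := hε (T.cd gm)
    have hJ : (0 : ℝ) ≤ ((J + 1) * εh) ^ 2 := by positivity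
    nlinarith

/-- the exchange happens at position `n` and `v` is in its support -/
theorem main_le (J : ℕ) {τ : Equiv.Perm (Fin d)} (hτ : ∀ k, τ (τ k) = k) (b : Fin d) (v : V)
    (n : ℕ) :
    ∀ (t : ℕ) (A : Finset V) (f : Dart V d) (ω : Cfg V d), Clo G r A → A ⊆ B →
      (∀ i, i ≠ f.2 → Lv T A (f.1, i)) → (∀ z, G.dist f.1 z ≤ n + J + 1 → z ∈ B) →
      τ (col ω.1 f) ≠ col ω.1 f → b ≠ col ω.1 f → b ≠ τ (col ω.1 f) → f.1 ∈ A →
      G.dist v f.1 = t + 1 →
      T.EE ε B A (fun ω' => if own J (T.nof B ω'.2) ω'.1 τ b f n ∧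
        SP (T.nof B ω'.2) ω'.1 τ b v f n then (1 : ℝ) else 0) ω ≤
        (if n = 0 then ((if Aw T v (dt ω.1 f.1 (τ (col ω.1 f))) then 1 else 0) +
          (if Aw T v (dt ω.1 f.1 b) then 1 else 0)) else
          2 * (if Aw T v (dt ω.1 f.1 (τ (col ω.1 f))) then 1 else 0)) *
        (((J + 1) * εh) ^ 2 * (1 / ((d : ℝ) - 1)) ^ t) := by
  have hd1 : (0 : ℝ) < (d : ℝ) - 1 := by
    have : (2 : ℝ) ≤ d := by exact_mod_cast hd
    linarith
  induction n with
  | zero =>
    intro t A f ω hA hAB hf hball hτf hb hb' hfA ht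
    rw [if_pos rfl]
    set gm := dt ω.1 f.1 (τ (col ω.1 f)) with hgm
    set gb := dt ω.1 f.1 b with hgb
    have hεh0 : 0 ≤ εh := (hε (T.cd f)).1.trans (hεh _)
    have hcm : col ω.1 gm = τ (col ω.1 f) := by simp [hgm, dt, col]
    have hcb : col ω.1 gb = b := by simp [hgb, dt, col]
    have hm2 : gm.2 ≠ f.2 := by
      intro h
      apply hτf
      rw [← hcm]
      unfold col
      rw [h]
      rfl
    have hb2 : gb.2 ≠ f.2 := by
      intro h
      apply hb
      rw [← hcb]
      unfold col
      rw [h]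
      rfl
    have hmb : gb ≠ gm := by
      intro h
      apply hb'
      rw [← hcb, ← hcm, h]
    have hLm : Lv T A gm := hf gm.2 hm2
    have hLb : Lv T A gb := hf gb.2 hb2
    have hball' : ∀ z, G.dist f.1 z ≤ J + 1 → z ∈ B := fun z hz => hball z (by omega)
    have hvf : v ≠ f.1 := by
      rintro rfl
      rw [SimpleGraph.dist_self] at ht
      omega
    set τm := Equiv.swap (τ (col ω.1 f)) b with hτm
    set τb := Equiv.swap b (col ω.1 f) with hτb
    have hmm : τm (col ω.1 gm) ≠ col ω.1 gm := by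
      rw [hcm, hτm, Equiv.swap_apply_left]; exact hb'
    have hbb : τb (col ω.1 gb) ≠ col ω.1 gb := by
      rw [hcb, hτb, Equiv.swap_apply_left]; exact hb.symm
    -- the two parts
    have key : ∀ (g1 g2 : Dart V d) (τ1 τ2 : Equiv.Perm (Fin d)), (∀ k, τ1 (τ1 k) = k) →
        (∀ k, τ2 (τ2 k) = k) → g1.1 = f.1 → g2.1 = f.1 → Lv T A g1 → Lv T A g2 → g2 ≠ g1 →
        τ1 (col ω.1 g1) ≠ col ω.1 g1 → τ2 (col ω.1 g2) ≠ col ω.1 g2 →
        T.EE ε B A (fun ω' => if sideOK J (T.nof B ω'.2) ω'.1 τ1 g1 then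
          (if sideOK J (T.nof B ω'.2) ω'.1 τ2 g2 ∧
          (∃ c, T.nof B ω'.2 g2 = some c ∧ onCh (T.nof B ω'.2) ω'.1 τ2 c v)
            then (1 : ℝ) else 0) else 0) ω ≤
          (if Aw T v g2 then 1 else 0) * (((J + 1) * εh) ^ 2 * (1 / ((d : ℝ) - 1)) ^ t) := by
      intro g1 g2 τ1 τ2 hτ1 hτ2 hg1 hg2 hL1 hL2 hne h1 h2
      by_cases hv2 : Aw T v g2
      · rw [if_pos hv2, one_mul]
        have h3 := side_le hε hG hd hεh hB J
          (fun ω' => if sideOK J (T.nof B ω'.2) ω'.1 τ2 g2 ∧
          (∃ c, T.nof B ω'.2 g2 = some c ∧ onCh (T.nof B ω'.2) ω'.1 τ2 c v)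
            then (1 : ℝ) else 0) (fun ω' => by split_ifs <;> norm_num)
            ((J + 1) * εh * (1 / ((d : ℝ) - 1)) ^ t)
            (by positivity) hτ1 A g1 ω hA hAB hL1 (by rw [hg1]; exact hball') h1
            (fun A' ω' hext => by
              have hc2 : col ω'.1 g2 = col ω.1 g2 := by
                unfold col
                rw [off_st hext.off hL2.1]
              refine side_path hε hG hd hεh hB hτ2 v t J A' g2 ω' hext.clo hext.subB
                (hext.other _ hne hL2) (by rw [hg2]; exact hball') (by rw [hc2]; exact h2) hv2 ?_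
              unfold Aw at hv2
              rw [hg2] at hv2
              omega)
        exact h3.trans (le_of_eq (by ring))
      · rw [if_neg hv2, zero_mul]
        refine EE_le_const hε hG (by omega) hA hB hAB _ _ 0 fun ω' ho hco => ?_
        have hc2 : col ω'.1 g2 = col ω.1 g2 := by
          unfold col
          rw [off_st ho hL2.1]
        have hnr := not_reach hG hA hco hτ2 hL2 (by rw [hc2]; exact h2)
          (v := v) ((Aw_or hG v g2).resolve_left hv2)
        split_ifs with h3 h4
        · exact absurd h4.2 hnr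
        · exact le_rfl
        · exact le_rfl
    have k1 := key gb gm τb τm (swap_swap_apply _ _) (swap_swap_apply _ _) rfl rfl hLb hLm
      hmb.symm hbb hmm
    have k2 := key gm gb τm τb (swap_swap_apply _ _) (swap_swap_apply _ _) rfl rfl hLm hLb
      hmb hmm hbb
    have hadd := congrFun (PT.EE_add (T := T) ε B A
      (fun ω' => if sideOK J (T.nof B ω'.2) ω'.1 τb gb then
          (if sideOK J (T.nof B ω'.2) ω'.1 τm gm ∧
          (∃ c, T.nof B ω'.2 gm = some c ∧ onCh (T.nof B ω'.2) ω'.1 τm c v)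
            then (1 : ℝ) else 0) else 0)
      (fun ω' => if sideOK J (T.nof B ω'.2) ω'.1 τm gm then
          (if sideOK J (T.nof B ω'.2) ω'.1 τb gb ∧
          (∃ c, T.nof B ω'.2 gb = some c ∧ onCh (T.nof B ω'.2) ω'.1 τb c v)
            then (1 : ℝ) else 0) else 0)) ω
    rw [add_mul]
    refine le_trans ?_ (add_le_add k1 k2)
    rw [← hadd]
    refine PT.EE_mono_off B _ hε _ fun ω' ho => ?_
    have hx : ω'.1 f.1 = ω.1 f.1 := off_st ho hfA
    have e1 : col ω'.1 f = col ω.1 f := by unfold col; rw [hx]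
    have e2 : ∀ k, dt ω'.1 f.1 k = dt ω.1 f.1 k := fun k => by unfold dt; rw [hx]
    by_cases h2 : own J (T.nof B ω'.2) ω'.1 τ b f 0 ∧ SP (T.nof B ω'.2) ω'.1 τ b v f 0
    · rw [if_pos h2]
      rw [own_zero, SP_zero, e1, e2, e2, ← hgm, ← hgb, ← hτm, ← hτb] at h2
      obtain ⟨⟨h3, h4⟩, h5 | h5 | h5⟩ := h2
      · exact absurd h5 hvf
      · rw [if_pos h4, if_pos ⟨h3, h5⟩]
        split_ifs <;> norm_num
      · rw [if_pos h3, if_pos h4, if_pos (show sideOK J (T.nof B ω'.2) ω'.1 τb gb ∧
          (∃ c, T.nof B ω'.2 gb = some c ∧ onCh (T.nof B ω'.2) ω'.1 τb c v) from ⟨h4, h5⟩)]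
        split_ifs <;> norm_num
    · rw [if_neg h2]; split_ifs <;> norm_num
  | succ n ih =>
    intro t A f ω hA hAB hf hball hτf hb hb' hfA ht
    rw [if_neg (Nat.succ_ne_zero n)]
    set gm := dt ω.1 f.1 (τ (col ω.1 f)) with hgm
    have hεh0 : 0 ≤ εh := (hε (T.cd f)).1.trans (hεh _)
    have hcm : col ω.1 gm = τ (col ω.1 f) := by simp [hgm, dt, col]
    have hm2 : gm.2 ≠ f.2 := by
      intro h
      apply hτf
      rw [← hcm]
      unfold col
      rw [h]
      rfl
    have hLm : Lv T A gm := hf gm.2 hm2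
    have hball' : ∀ z, G.dist gm.1 z ≤ (n + J + 1) + 1 → z ∈ B :=
      fun z hz => hball z (by change G.dist f.1 z ≤ _ at hz; omega)
    have hwB : (T.N0 gm).1 ∈ B := by
      apply hball'
      rw [SimpleGraph.dist_eq_one_iff_adj.mpr (T.adj gm)]
      omega
    have hA' := hLm.clo hG hA
    have hAB' := Finset.insert_subset hwB hAB
    have hvf : v ≠ f.1 := by
      rintro rfl
      rw [SimpleGraph.dist_self] at ht
      omega
    have hnx : ∀ ω' : Cfg V d, Off (T.cA B A) ω ω' →
        nx (T.nof B ω'.2) ω'.1 τ f = T.nof B ω'.2 gm := by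
      intro ω' ho
      have hx : ω'.1 f.1 = ω.1 f.1 := off_st ho hfA
      unfold nx
      congr 1
      rw [hgm]
      unfold dt col
      rw [hx]
    have hred : ∀ ω' : Cfg V d, Off (T.cA B A) ω ω' →
        own J (T.nof B ω'.2) ω'.1 τ b f (n + 1) ∧ SP (T.nof B ω'.2) ω'.1 τ b v f (n + 1) →
        T.nof B ω'.2 gm = some (T.N0 gm) ∧ own J (T.nof B ω'.2) ω'.1 τ b (T.N0 gm) n ∧
          SP (T.nof B ω'.2) ω'.1 τ b v (T.N0 gm) n := by
      rintro ω' ho ⟨h1, h2⟩
      rw [own_succ, hnx ω' ho] at h1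
      obtain ⟨c, hc, h1⟩ := h1
      obtain ⟨c', hc', h2⟩ := SP_succ h2
      rw [hnx ω' ho, hc] at hc'
      have hcc := (T.nof_some.mp hc).2.2.2
      subst hcc
      simp only [Option.some.injEq] at hc'
      subst hc'
      exact ⟨hc, h1, h2.resolve_left hvf⟩
    by_cases hvm : Aw T v gm
    swap
    · rw [if_neg hvm, mul_zero, zero_mul]
      refine EE_le_const hε hG (by omega) hA hB hAB _ _ 0 fun ω' ho hco => ?_
      rw [if_neg]
      intro h
      obtain ⟨h1, _, h2⟩ := hred ω' ho h
      have hcol := hco.col hLm.2 h1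
      have hcm' : col ω'.1 gm = τ (col ω.1 f) := by
        rw [← hcm]; unfold col; rw [off_st ho hLm.1]
      rw [hcm'] at hcol
      exact not_SP hG hA hco hτ hLm.2 (hLm.away hG hA) (by rw [hcol, hτ]; exact hτf.symm)
        (by rw [hcol]; exact hb') (by rw [hcol, hτ]; exact hb)
        ((Aw_or hG v gm).resolve_left hvm) n h2
    rw [if_pos hvm, mul_one]
    have hcn : ∀ σ : Equiv.Perm (Fin d), σ (T.N0 gm).2 = col ω.1 gm →
        col (up T gm ω σ true).1 (T.N0 gm) = τ (col ω.1 f) := by
      intro σ hσ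
      rw [← hcm, ← hσ]; unfold col; rw [up_new]
    have hcut : ∀ σ : Equiv.Perm (Fin d), T.EE ε B (insert (T.N0 gm).1 A)
        (fun ω' => if own J (T.nof B ω'.2) ω'.1 τ b f (n + 1) ∧
        SP (T.nof B ω'.2) ω'.1 τ b v f (n + 1) then (1 : ℝ) else 0) (up T gm ω σ false) ≤ 0 := by
      intro σ
      refine EE_le_const hε hG (by omega) hA' hB hAB' _ _ 0 fun ω' ho _ => ?_
      rw [if_neg]
      intro h
      have h1 := (T.nof_some.mp (hred ω' (off_trans hAB hLm hwB ho) h).1).2.2.1
      rw [off_cut hLm ho] at h1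
      simp at h1
    have hε1 := hε (T.cd gm)
    by_cases hwv : (T.N0 gm).1 = v
    · -- `v` is the next vertex
      have ht0 : t = 0 := by
        unfold Aw at hvm
        rw [hwv, SimpleGraph.dist_self] at hvm
        change G.dist v f.1 = _ at hvm
        omega
      subst ht0
      have h := EE_step_le hε hG hA hAB hLm hwB _ ω (fun _ => ((J + 1) * εh) ^ 2) 0
        (fun σ hσ => by
          refine le_trans (PT.EE_mono_off B _ hε _ fun ω' ho => ?_)
            (own_le hε hG hd hεh hB J hτ b n (insert (T.N0 gm).1 A) (T.N0 gm)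
              (up T gm ω σ true) hA' hAB'
              (fun i hi => hLm.next hG hA hi) (ball_next hG hball')
              (by rw [hcn σ hσ, hτ]; exact hτf.symm) (by rw [hcn σ hσ]; exact hb')
              (by rw [hcn σ hσ, hτ]; exact hb) (Finset.mem_insert_self _ _))
          by_cases h1 : own J (T.nof B ω'.2) ω'.1 τ b f (n + 1) ∧
            SP (T.nof B ω'.2) ω'.1 τ b v f (n + 1)
          · rw [if_pos h1, if_pos (hred ω' (off_trans hAB hLm hwB ho) h1).2.1]
          · rw [if_neg h1]; split_ifs <;> norm_num) hcut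
      refine h.trans ?_
      rw [← Finset.sum_mul, ← mul_assoc (1 / (d.factorial : ℝ)), PT.avg_match (by omega), one_mul,
        mul_zero, add_zero, pow_zero, mul_one]
      have hJ : (0 : ℝ) ≤ ((J + 1) * εh) ^ 2 := by positivity
      nlinarith
    · obtain ⟨i, hi⟩ := Aw_exists (T := T) hG hwv
      have hij : i ≠ (T.N0 gm).2 := by
        rintro rfl
        exact Aw_not_both hvm hi
      obtain ⟨t', rfl⟩ : ∃ t', t = t' + 1 := by
        refine ⟨t - 1, ?_⟩
        unfold Aw at hvm hi
        change G.dist v f.1 = _ at hvm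
        simp only at hi
        omega
      have hdw : G.dist v (T.N0 gm).1 = t' + 1 := by
        unfold Aw at hvm
        change G.dist v f.1 = _ at hvm
        omega
      have hAwi : ∀ (σ : Equiv.Perm (Fin d)) (k : Fin d),
          Aw T v (dt (up T gm ω σ true).1 (T.N0 gm).1 k) ↔ σ i = k := by
        intro σ k
        unfold dt
        rw [up_new]
        constructor
        · intro h
          rw [Aw_unique hG hi h, Equiv.apply_symm_apply]
        · intro h
          rw [← h, Equiv.symm_apply_apply]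
          exact hi
      have h := EE_step_le hε hG hA hAB hLm hwB _ ω (fun σ =>
        (if n = 0 then ((if σ i = col ω.1 f then 1 else 0) + (if σ i = b then 1 else 0)) else
          2 * (if σ i = col ω.1 f then 1 else 0)) *
        (((J + 1) * εh) ^ 2 * (1 / ((d : ℝ) - 1)) ^ t')) 0
        (fun σ hσ => by
          have hIH := ih t' (insert (T.N0 gm).1 A) (T.N0 gm)
              (up T gm ω σ true) hA' hAB'
              (fun i hi => hLm.next hG hA hi) (ball_next hG hball')
              (by rw [hcn σ hσ, hτ]; exact hτf.symm) (by rw [hcn σ hσ]; exact hb')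
              (by rw [hcn σ hσ, hτ]; exact hb) (Finset.mem_insert_self _ _) hdw
          simp only [hAwi, hcn σ hσ, hτ] at hIH
          refine le_trans (PT.EE_mono_off B _ hε _ fun ω' ho => ?_) hIH
          by_cases h1 : own J (T.nof B ω'.2) ω'.1 τ b f (n + 1) ∧
            SP (T.nof B ω'.2) ω'.1 τ b v f (n + 1)
          · rw [if_pos h1, if_pos (hred ω' (off_trans hAB hLm hwB ho) h1).2]
          · rw [if_neg h1]; split_ifs <;> norm_num) hcut
      refine h.trans ?_
      set q := ((J + 1) * εh) ^ 2 * (1 / ((d : ℝ) - 1)) ^ t' with hq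
      have a1 := avg2_mul hd hij (col ω.1 f) (k := col ω.1 gm) (by rw [hcm]; exact hτf.symm) q
      have a2 := avg2_mul hd hij b (k := col ω.1 gm) (by rw [hcm]; exact hb') q
      have hq0 : 0 ≤ q := by positivity
      have hsum : (1 / (d.factorial : ℝ)) * ∑ σ : Equiv.Perm (Fin d),
          (if col ω.1 gm = σ (T.N0 gm).2 then (d : ℝ) else 0) *
          ((if n = 0 then ((if σ i = col ω.1 f then 1 else 0) + (if σ i = b then 1 else 0)) else
          2 * (if σ i = col ω.1 f then 1 else 0)) * q) = 2 * (1 / ((d : ℝ) - 1)) * q := by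
        by_cases hn : n = 0
        · simp only [if_pos hn]
          have : (1 / (d.factorial : ℝ)) * ∑ σ : Equiv.Perm (Fin d),
            (if col ω.1 gm = σ (T.N0 gm).2 then (d : ℝ) else 0) *
            (((if σ i = col ω.1 f then 1 else 0) + (if σ i = b then 1 else 0)) * q) =
            (1 / (d.factorial : ℝ)) * ∑ σ : Equiv.Perm (Fin d),
            (if col ω.1 gm = σ (T.N0 gm).2 then (d : ℝ) else 0) *
              ((if σ i = col ω.1 f then 1 else 0) * q) +
            (1 / (d.factorial : ℝ)) * ∑ σ : Equiv.Perm (Fin d),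
            (if col ω.1 gm = σ (T.N0 gm).2 then (d : ℝ) else 0) *
              ((if σ i = b then 1 else 0) * q) := by
            rw [← mul_add, ← Finset.sum_add_distrib]
            congr 1
            refine Finset.sum_congr rfl fun σ _ => ?_
            ring
          rw [this, a1, a2]
          ring
        · simp only [if_neg hn]
          have : (1 / (d.factorial : ℝ)) * ∑ σ : Equiv.Perm (Fin d),
            (if col ω.1 gm = σ (T.N0 gm).2 then (d : ℝ) else 0) *
            ((2 * (if σ i = col ω.1 f then 1 else 0)) * q) =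
            2 * ((1 / (d.factorial : ℝ)) * ∑ σ : Equiv.Perm (Fin d),
            (if col ω.1 gm = σ (T.N0 gm).2 then (d : ℝ) else 0) *
              ((if σ i = col ω.1 f then 1 else 0) * q)) := by
            rw [Finset.mul_sum, Finset.mul_sum, Finset.mul_sum]
            refine Finset.sum_congr rfl fun σ _ => ?_
            ring
          rw [this, a1]
          ring
      rw [hsum, mul_zero, add_zero]
      have e3 : 2 * (((J + 1) * εh) ^ 2 * (1 / ((d : ℝ) - 1)) ^ (t' + 1)) =
        2 * (1 / ((d : ℝ) - 1)) * q := by rw [hq, pow_succ]; ring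
      rw [e3]
      have e4 : 0 ≤ 2 * (1 / ((d : ℝ) - 1)) * q := by positivity
      nlinarith

end

end F2

end FI
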