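import Pool.Agent.H99.FI.Cost.F2Basic

/-!
# Job F2 (MP_bdd10f_pr), part 2: path lemmas under the exact law
-/

set_option autoImplicit false

namespace FI

namespace F2

open Finset Function
open scoped Classical

variable {V : Type*} {G : SimpleGraph V} {d : ℕ} {T : PT G d}

/-! ### directions in the tree -/

/-- `g` points towards `r`: its other end is closer to `r` -/
def Aw (T : PT G d) (r : V) (g : Dart V d) : Prop := G.dist r g.1 = G.dist r (T.N0 g).1 + 1

theorem Aw_N0 {r : V} {g : Dart V d} :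
    Aw T r (T.N0 g) ↔ G.dist r (T.N0 g).1 = G.dist r g.1 + 1 := by
  unfold Aw; rw [T.inv]

theorem Aw_or (hG : G.IsTree) (r : V) (g : Dart V d) : Aw T r g ∨ Aw T r (T.N0 g) := by
  rw [Aw_N0]
  exact dist_adj hG r (T.adj g)

theorem Aw_not_both {r : V} {g : Dart V d} (h : Aw T r g) (h' : Aw T r (T.N0 g)) : False := by
  rw [Aw_N0] at h'
  unfold Aw at h
  omega

theorem Aw_unique (hG : G.IsTree) {r z : V} {i j : Fin d} (h : Aw T r (z, i))
    (h' : Aw T r (z, j)) : i = j :=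
  T.inj z i j (closer_unique hG r (T.adj (z, i)) (T.adj (z, j)) h h')

theorem Aw_exists (hG : G.IsTree) {r z : V} (h : z ≠ r) : ∃ i, Aw T r (z, i) := by
  obtain ⟨w, hw, hd⟩ := exists_closer hG r h
  obtain ⟨i, hi⟩ := T.surj z w hw
  exact ⟨i, by unfold Aw; rw [hi]; exact hd⟩

theorem Aw_ne {r : V} {g : Dart V d} (h : Aw T r g) : g.1 ≠ r := by
  intro h'
  unfold Aw at h
  rw [h', SimpleGraph.dist_self] at h
  omega

/-- away-ness is preserved by non-backtracking steps -/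
theorem away_step (hG : G.IsTree) {r : V} {f : Dart V d} (hf : Aw T r f) {i : Fin d}
    (hi : i ≠ f.2) : Aw T r (T.N0 (f.1, i)) := by
  rcases Aw_or (T := T) hG r (f.1, i) with h | h
  · exact absurd (Aw_unique hG h (by exact hf)) hi
  · exact h

/-- leaving dart -/
def Lv (T : PT G d) (A : Finset V) (g : Dart V d) : Prop := g.1 ∈ A ∧ (T.N0 g).1 ∉ A

theorem Lv.away (hG : G.IsTree) {r : V} {A : Finset V} (hA : Clo G r A) {g : Dart V d}
    (hg : Lv T A g) : Aw T r (T.N0 g) := by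
  rw [Aw_N0]
  exact hA.closer hG hg.1 hg.2 (T.adj g).symm

theorem Lv.clo (hG : G.IsTree) {r : V} {A : Finset V} (hA : Clo G r A) {g : Dart V d}
    (hg : Lv T A g) : Clo G r (insert (T.N0 g).1 A) := hA.insert hG hg.1 (T.adj g).symm

/-- other leaving darts stay leaving -/
theorem Lv.other (hG : G.IsTree) {r : V} {A : Finset V} (hA : Clo G r A) {g g' : Dart V d}
    (hg : Lv T A g) (hg' : Lv T A g') (hne : g' ≠ g) : Lv T (insert (T.N0 g).1 A) g' := by
  refine ⟨Finset.mem_insert_of_mem hg'.1, ?_⟩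
  rw [Finset.mem_insert, not_or]
  refine ⟨fun h => hne ?_, hg'.2⟩
  have h1 : g'.1 = g.1 := by
    refine hA.nbr_unique hG hg'.1 hg.1 hg'.2 (T.adj g').symm ?_
    rw [h]; exact (T.adj g).symm
  exact T.eq_of_nb h1 h

/-- the darts at the new vertex -/
theorem Lv.next (hG : G.IsTree) {r : V} {A : Finset V} (hA : Clo G r A) {g : Dart V d}
    (hg : Lv T A g) {i : Fin d} (hi : i ≠ (T.N0 g).2) :
    Lv T (insert (T.N0 g).1 A) ((T.N0 g).1, i) := by
  refine ⟨Finset.mem_insert_self _ _, ?_⟩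
  rw [Finset.mem_insert, not_or]
  refine ⟨T.N0_ne _, fun h => hi ?_⟩
  have h1 : (T.N0 ((T.N0 g).1, i)).1 = g.1 :=
    hA.nbr_unique hG h hg.1 hg.2 (T.adj ((T.N0 g).1, i)) (T.adj g).symm
  refine T.inj _ _ _ (h1.trans ?_)
  change g.1 = (T.N0 (T.N0 g)).1
  rw [T.inv]

/-- consistency off the explored set -/
def CO (T : PT G d) (B A : Finset V) (ω : Cfg V d) : Prop :=
  ∀ e ∈ T.EB B, e ∉ T.EB A → ω.2 e = true → col ω.1 e = col ω.1 (T.N0 e)

theorem CO.mono {B A A' : Finset V} (h : A ⊆ A') {ω : Cfg V d} (hc : CO T B A ω) :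
    CO T B A' ω := fun e he he' hu => hc e he (fun h' => he' (T.EB_mono h h')) hu

theorem CO.col {B A : Finset V} {ω : Cfg V d} (hc : CO T B A ω) {g c : Dart V d}
    (hg : (T.N0 g).1 ∉ A) (hN : T.nof B ω.2 g = some c) : FI.col ω.1 c = FI.col ω.1 g := by
  rw [T.nof_some] at hN
  obtain ⟨h1, h2, h3, rfl⟩ := hN
  have h4 := hc (T.cd g) (T.cd_mem_EB h1 h2) (PT.cd_notMem_EB hg) h3
  rcases T.cd_cases g with h | h
  · rw [h] at h4; exact h4.symm
  · rw [h, T.inv] at h4; exact h4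

/-- one non-backtracking step away from the explored set -/
theorem step_out (hG : G.IsTree) {r : V} {A B : Finset V} (hA : Clo G r A) {ω : Cfg V d}
    (hc : CO T B A ω) {h h' : Dart V d} {i : Fin d} (h1 : h.1 ∉ A) (h2 : Aw T r h)
    (hi : i ≠ h.2) (hN : T.nof B ω.2 (h.1, i) = some h') :
    h'.1 ∉ A ∧ Aw T r h' ∧ col ω.1 h' = ω.1 h.1 i ∧ (∀ v, Aw T v h → Aw T v h') := by
  have hh := (T.nof_some.mp hN).2.2.2
  have h3 : Aw T r h' := by rw [← hh]; exact away_step hG h2 hi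
  have h4 : h'.1 ∉ A := by
    intro h5
    apply h1
    refine hA.2 h'.1 h5 h.1 ?_ ?_
    · rw [← hh]; exact (T.adj (h.1, i)).symm
    · rw [← hh, Aw_N0] at h3
      rw [← hh]; exact h3
  refine ⟨h4, h3, ?_, ?_⟩
  · exact hc.col (g := (h.1, i)) (by rw [hh]; exact h4) hN
  · intro v hv
    rw [← hh]
    exact away_step hG hv hi

/-- positions of a chain which starts away from the explored set -/
theorem pos_inv (hG : G.IsTree) {r : V} {A B : Finset V} (hA : Clo G r A) {ω : Cfg V d}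
    (hc : CO T B A ω) {τ : Equiv.Perm (Fin d)} (hτ : ∀ k, τ (τ k) = k) {h : Dart V d}
    (h1 : h.1 ∉ A) (h2 : Aw T r h) (h3 : τ (col ω.1 h) ≠ col ω.1 h) (n : ℕ) {f : Dart V d}
    (hf : pos (T.nof B ω.2) ω.1 τ h n = some f) :
    f.1 ∉ A ∧ Aw T r f ∧ τ (col ω.1 f) ≠ col ω.1 f ∧ (∀ v, Aw T v h → Aw T v f) ∧
      (col ω.1 f = col ω.1 h ∨ col ω.1 f = τ (col ω.1 h)) := by
  induction n generalizing f with
  | zero =>
    simp only [pos, Option.some.injEq] at hf
    subst hf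
    exact ⟨h1, h2, h3, fun _ hv => hv, Or.inl rfl⟩
  | succ n ih =>
    rw [pos, Option.bind_eq_some_iff] at hf
    obtain ⟨f', hf', hf⟩ := hf
    obtain ⟨i1, i2, i3, i4, i5⟩ := ih hf'
    have hi : (ω.1 f'.1).symm (τ (col ω.1 f')) ≠ f'.2 := by
      intro h
      apply i3
      have := congrArg (ω.1 f'.1) h
      rwa [Equiv.apply_symm_apply] at this
    obtain ⟨j1, j2, j3, j4⟩ := step_out hG hA hc i1 i2 hi hf
    rw [Equiv.apply_symm_apply] at j3
    refine ⟨j1, j2, ?_, fun v hv => j4 v (i4 v hv), ?_⟩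
    · rw [j3, hτ]; exact i3.symm
    · rw [j3]
      rcases i5 with h | h
      · exact Or.inr (by rw [h])
      · exact Or.inl (by rw [h, hτ])

theorem not_onCh (hG : G.IsTree) {r : V} {A B : Finset V} (hA : Clo G r A) {ω : Cfg V d}
    (hc : CO T B A ω) {τ : Equiv.Perm (Fin d)} (hτ : ∀ k, τ (τ k) = k) {h : Dart V d}
    (h1 : h.1 ∉ A) (h2 : Aw T r h) (h3 : τ (col ω.1 h) ≠ col ω.1 h) {v : V} (hv : Aw T v h) :
    ¬ onCh (T.nof B ω.2) ω.1 τ h v := by
  rintro ⟨n, f, hf, rfl⟩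
  exact Aw_ne ((pos_inv hG hA hc hτ h1 h2 h3 n hf).2.2.2.1 _ hv) rfl

theorem swap_swap_apply (a b k : Fin d) : Equiv.swap a b (Equiv.swap a b k) = k := by
  rw [← Equiv.Perm.mul_apply, Equiv.swap_mul_self]; rfl

theorem not_SP (hG : G.IsTree) {r : V} {A B : Finset V} (hA : Clo G r A) {ω : Cfg V d}
    (hc : CO T B A ω) {τ : Equiv.Perm (Fin d)} (hτ : ∀ k, τ (τ k) = k) {b : Fin d} {h : Dart V d}
    (h1 : h.1 ∉ A) (h2 : Aw T r h) (h3 : τ (col ω.1 h) ≠ col ω.1 h) (hb : b ≠ col ω.1 h)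
    (hb' : b ≠ τ (col ω.1 h)) {v : V} (hv : Aw T v h) (n : ℕ) :
    ¬ SP (T.nof B ω.2) ω.1 τ b v h n := by
  rintro ⟨f, hf, hcase⟩
  obtain ⟨i1, i2, i3, i4, i5⟩ := pos_inv hG hA hc hτ h1 h2 h3 n hf
  have hbf : b ≠ col ω.1 f := by
    rcases i5 with h | h <;> rw [h] <;> assumption
  have hbf' : b ≠ τ (col ω.1 f) := by
    rcases i5 with h | h <;> rw [h]
    · exact hb'
    · rw [hτ]; exact hb
  rcases hcase with h | ⟨i, g, _, hg, hgv⟩ | ⟨c, hN, hon⟩ | ⟨c, hN, hon⟩
  · exact Aw_ne (i4 v hv) h.symm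
  · exact Aw_ne ((pos_inv hG hA hc hτ h1 h2 h3 i hg).2.2.2.1 _ hv) hgv
  · have hi : (ω.1 f.1).symm (τ (col ω.1 f)) ≠ f.2 := by
      intro h
      apply i3
      have := congrArg (ω.1 f.1) h
      rwa [Equiv.apply_symm_apply] at this
    obtain ⟨j1, j2, j3, j4⟩ := step_out hG hA hc i1 i2 hi hN
    rw [Equiv.apply_symm_apply] at j3
    refine not_onCh hG hA hc (swap_swap_apply _ _) j1 j2 ?_ (j4 v (i4 v hv)) hon
    rw [j3, Equiv.swap_apply_left]
    exact hbf'
  · have hi : (ω.1 f.1).symm b ≠ f.2 := by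
      intro h
      apply hbf
      have := congrArg (ω.1 f.1) h
      rwa [Equiv.apply_symm_apply] at this
    obtain ⟨j1, j2, j3, j4⟩ := step_out hG hA hc i1 i2 hi hN
    rw [Equiv.apply_symm_apply] at j3
    refine not_onCh hG hA hc (swap_swap_apply _ _) j1 j2 ?_ (j4 v (i4 v hv)) hon
    rw [j3, Equiv.swap_apply_left]
    exact hbf.symm

/-- no chain through a leaving dart `g` reaches a vertex which is not beyond `g` -/
theorem not_reach (hG : G.IsTree) {r : V} {A B : Finset V} (hA : Clo G r A) {ω : Cfg V d}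
    (hc : CO T B A ω) {τ : Equiv.Perm (Fin d)} (hτ : ∀ k, τ (τ k) = k) {g : Dart V d}
    (hg : Lv T A g) (h3 : τ (col ω.1 g) ≠ col ω.1 g) {v : V} (hv : Aw T v (T.N0 g)) :
    ¬ ∃ c, T.nof B ω.2 g = some c ∧ onCh (T.nof B ω.2) ω.1 τ c v := by
  rintro ⟨c, hN, hon⟩
  have hcol := hc.col hg.2 hN
  have hcc := (T.nof_some.mp hN).2.2.2
  subst hcc
  exact not_onCh hG hA hc hτ hg.2 (hg.away hG hA) (by rw [hcol]; exact h3) hv hon

/-! ### averages over the state of the new vertex -/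

theorem card_perm_apply2 (hd : 2 ≤ d) {i j k : Fin d} (hij : i ≠ j) (k' : Fin d) (hk : k' ≠ k) :
    (d - 1) * (Finset.univ.filter fun σ : Equiv.Perm (Fin d) => σ j = k ∧ σ i = k').card =
      (d - 1).factorial := by
  have hpart : ∀ k'' : Fin d, k'' ≠ k →
      (Finset.univ.filter fun σ : Equiv.Perm (Fin d) => σ j = k ∧ σ i = k'').card =
      (Finset.univ.filter fun σ : Equiv.Perm (Fin d) => σ j = k ∧ σ i = k').card := by
    intro k'' hk''
    refine Finset.card_bij (fun σ _ => Equiv.swap k' k'' * σ) ?_ ?_ ?_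
    · intro σ hσ
      simp only [Finset.mem_filter, Finset.mem_univ, true_and] at hσ ⊢
      rw [Equiv.Perm.mul_apply, Equiv.Perm.mul_apply, hσ.1, hσ.2, Equiv.swap_apply_right,
        Equiv.swap_apply_of_ne_of_ne hk.symm hk''.symm]
      exact ⟨rfl, rfl⟩
    · intro σ _ σ' _ h
      exact mul_left_cancel h
    · intro σ hσ
      simp only [Finset.mem_filter, Finset.mem_univ, true_and] at hσ
      refine ⟨Equiv.swap k' k'' * σ, ?_, ?_⟩
      · simp only [Finset.mem_filter, Finset.mem_univ, true_and]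
        rw [Equiv.Perm.mul_apply, Equiv.Perm.mul_apply, hσ.1, hσ.2, Equiv.swap_apply_left,
          Equiv.swap_apply_of_ne_of_ne hk.symm hk''.symm]
        exact ⟨rfl, rfl⟩
      · rw [← mul_assoc, Equiv.swap_mul_self, one_mul]
  have htot : ∑ k'' : Fin d,
      (Finset.univ.filter fun σ : Equiv.Perm (Fin d) => σ j = k ∧ σ i = k'').card =
      (d - 1).factorial := by
    rw [← PT.card_perm_apply (by omega) j k,
      Finset.card_eq_sum_card_fiberwise (f := fun σ : Equiv.Perm (Fin d) => σ i)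
      (s := Finset.univ.filter fun σ : Equiv.Perm (Fin d) => σ j = k) (t := Finset.univ)
      (by intro _ _; simp)]
    refine Finset.sum_congr rfl fun k'' _ => ?_
    rw [Finset.filter_filter]
  rw [← Finset.add_sum_erase _ _ (Finset.mem_univ k)] at htot
  have hz : (Finset.univ.filter fun σ : Equiv.Perm (Fin d) => σ j = k ∧ σ i = k).card = 0 := by
    rw [Finset.card_eq_zero, Finset.filter_eq_empty_iff]
    rintro σ _ ⟨h1, h2⟩
    exact hij (σ.injective (h2.trans h1.symm))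
  rw [hz, zero_add, Finset.sum_congr rfl fun k'' hk'' => hpart k'' (Finset.ne_of_mem_erase hk''),
    Finset.sum_const, Finset.card_erase_of_mem (Finset.mem_univ k), Finset.card_univ,
    Fintype.card_fin, smul_eq_mul] at htot
  exact htot

theorem avg2 (hd : 2 ≤ d) {i j k : Fin d} (hij : i ≠ j) (k' : Fin d) (hk : k' ≠ k) :
    (1 / (d.factorial : ℝ)) * ∑ σ : Equiv.Perm (Fin d),
      (if k = σ j then (d : ℝ) else 0) * (if σ i = k' then 1 else 0) = 1 / ((d : ℝ) - 1) := by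
  have h1 : ∑ σ : Equiv.Perm (Fin d),
      (if k = σ j then (d : ℝ) else 0) * (if σ i = k' then 1 else 0) =
      (d : ℝ) * ((Finset.univ.filter fun σ : Equiv.Perm (Fin d) => σ j = k ∧ σ i = k').card : ℝ) := by
    rw [Finset.card_filter, Nat.cast_sum, Finset.mul_sum]
    refine Finset.sum_congr rfl fun σ _ => ?_
    by_cases h1 : k = σ j
    · by_cases h2 : σ i = k'
      · rw [if_pos h1, if_pos h2, if_pos ⟨h1.symm, h2⟩]; simp
      · rw [if_pos h1, if_neg h2, if_neg (fun h => h2 h.2)]; simp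
    · rw [if_neg h1, if_neg (show ¬ (σ j = k ∧ σ i = k') from fun h => h1 h.1.symm)]; simp
  rw [h1]
  have h2 := card_perm_apply2 hd hij k' hk
  set N := (Finset.univ.filter fun σ : Equiv.Perm (Fin d) => σ j = k ∧ σ i = k').card
  have h3 : d * (d - 1).factorial = d.factorial := Nat.mul_factorial_pred (by omega)
  have h4 : ((d : ℝ) - 1) * (N : ℝ) = ((d - 1).factorial : ℝ) := by
    have : ((d - 1 : ℕ) : ℝ) = (d : ℝ) - 1 := by
      rw [Nat.cast_sub (by omega)]; simp
    rw [← this]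
    exact_mod_cast h2
  have h5 : ((d : ℝ) * ((d - 1).factorial : ℝ)) = (d.factorial : ℝ) := by exact_mod_cast h3
  rw [← h5, ← h4]
  have hd1 : (d : ℝ) - 1 > 0 := by
    have : (2 : ℝ) ≤ d := by exact_mod_cast hd
    linarith
  have hN : (N : ℝ) ≠ 0 := by
    intro h
    rw [h, mul_zero] at h4
    have : ((d - 1).factorial : ℝ) ≠ 0 := by positivity
    exact this h4.symm
  have hd0 : (d : ℝ) ≠ 0 := by positivity
  field_simp

theorem avg2_mul (hd : 2 ≤ d) {i j k : Fin d} (hij : i ≠ j) (k' : Fin d) (hk : k' ≠ k)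
    (q : ℝ) : (1 / (d.factorial : ℝ)) * ∑ σ : Equiv.Perm (Fin d),
      (if k = σ j then (d : ℝ) else 0) * ((if σ i = k' then 1 else 0) * q) =
      1 / ((d : ℝ) - 1) * q := by
  rw [← avg2 hd hij k' hk, mul_assoc, Finset.sum_mul]
  congr 1
  refine Finset.sum_congr rfl fun σ _ => ?_
  ring

/-! ### revealing one vertex -/

/-- the configuration after revealing the vertex beyond `g` -/
noncomputable def up (T : PT G d) (g : Dart V d) (ω : Cfg V d) (σ : Equiv.Perm (Fin d))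
    (b : Bool) : Cfg V d :=
  (Function.update ω.1 (T.N0 g).1 σ, Function.update ω.2 (T.cd g) b)

section up

variable {A B : Finset V} {g : Dart V d} {ω ω' : Cfg V d} {σ : Equiv.Perm (Fin d)} {b : Bool}

theorem up_new : (up T g ω σ b).1 (T.N0 g).1 = σ := by simp [up]

theorem up_old {z : V} (hg : Lv T A g) (hz : z ∈ A) : (up T g ω σ b).1 z = ω.1 z := by
  have : z ≠ (T.N0 g).1 := fun h => hg.2 (h ▸ hz)
  simp [up, Function.update_of_ne this]

theorem up_edge : (up T g ω σ b).2 (T.cd g) = b := by simp [up]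

theorem off_st (ho : Off (T.cA B A) ω ω') {z : V} (hz : z ∈ A) : ω'.1 z = ω.1 z :=
  ho.1 z (by rw [PT.mem_cA_inl]; exact fun h => h.2 hz)

theorem off_edge (ho : Off (T.cA B A) ω ω') {e : Dart V d} (he : e ∈ T.EB A) :
    ω'.2 e = ω.2 e :=
  ho.2 e (by rw [PT.mem_cA_inr]; exact fun h => h.2 he)

theorem off_edge' (ho : Off (T.cA B A) ω ω') {g : Dart V d} (h1 : g.1 ∈ A)
    (h2 : (T.N0 g).1 ∈ A) : ω'.2 (T.cd g) = ω.2 (T.cd g) :=
  off_edge ho (T.cd_mem_EB h1 h2)

theorem off_new (ho : Off (T.cA B (insert (T.N0 g).1 A)) (up T g ω σ b) ω') :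
    ω'.1 (T.N0 g).1 = σ := by
  rw [off_st ho (Finset.mem_insert_self _ _), up_new]

theorem off_old (hg : Lv T A g)
    (ho : Off (T.cA B (insert (T.N0 g).1 A)) (up T g ω σ b) ω') {z : V} (hz : z ∈ A) :
    ω'.1 z = ω.1 z := by
  rw [off_st ho (Finset.mem_insert_of_mem hz), up_old hg hz]

theorem off_cut (hg : Lv T A g)
    (ho : Off (T.cA B (insert (T.N0 g).1 A)) (up T g ω σ b) ω') :
    ω'.2 (T.cd g) = b := by
  rw [off_edge' ho (Finset.mem_insert_of_mem hg.1) (Finset.mem_insert_self _ _), up_edge]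

theorem cA_sub {A A' : Finset V} (h : A ⊆ A') : T.cA B A' ⊆ T.cA B A := by
  intro c hc
  cases c with
  | inl v =>
    rw [PT.mem_cA_inl] at hc ⊢
    exact ⟨hc.1, fun h' => hc.2 (h h')⟩
  | inr e =>
    rw [PT.mem_cA_inr] at hc ⊢
    exact ⟨hc.1, fun h' => hc.2 (T.EB_mono h h')⟩

theorem up_off (hAB : A ⊆ B) (hg : Lv T A g) (hwB : (T.N0 g).1 ∈ B) :
    Off (T.cA B A) ω (up T g ω σ b) := by
  refine ⟨fun z hz => ?_, fun e he => ?_⟩
  · have : z ≠ (T.N0 g).1 := by
      rintro rfl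
      apply hz
      rw [PT.mem_cA_inl]
      exact ⟨hwB, hg.2⟩
    simp [up, Function.update_of_ne this]
  · have : e ≠ T.cd g := by
      rintro rfl
      apply he
      rw [PT.mem_cA_inr]
      exact ⟨T.cd_mem_EB (hAB hg.1) hwB, PT.cd_notMem_EB hg.2⟩
    simp [up, Function.update_of_ne this]

theorem off_trans (hAB : A ⊆ B) (hg : Lv T A g) (hwB : (T.N0 g).1 ∈ B)
    (ho : Off (T.cA B (insert (T.N0 g).1 A)) (up T g ω σ b) ω') : Off (T.cA B A) ω ω' :=
  (up_off hAB hg hwB).trans (ho.mono (cA_sub (Finset.subset_insert _ _)))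

end up

/-- upper bound by revealing the vertex beyond `g` -/
theorem EE_step_le {ε : Dart V d → ℝ} (hε : WOK ε) (hG : G.IsTree) {r : V} {A B : Finset V}
    (hA : Clo G r A) (hAB : A ⊆ B) {g : Dart V d} (hg : Lv T A g) (hwB : (T.N0 g).1 ∈ B)
    (F : Cfg V d → ℝ) (ω : Cfg V d) (Φ : Equiv.Perm (Fin d) → ℝ) (Ψ : ℝ)
    (h1 : ∀ σ : Equiv.Perm (Fin d), σ (T.N0 g).2 = col ω.1 g →
      T.EE ε B (insert (T.N0 g).1 A) F (up T g ω σ true) ≤ Φ σ)
    (h0 : ∀ σ : Equiv.Perm (Fin d),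
      T.EE ε B (insert (T.N0 g).1 A) F (up T g ω σ false) ≤ Ψ) :
    T.EE ε B A F ω ≤ (1 - ε (T.cd g)) * ((1 / (d.factorial : ℝ)) *
      ∑ σ : Equiv.Perm (Fin d), (if col ω.1 g = σ (T.N0 g).2 then (d : ℝ) else 0) * Φ σ) +
      ε (T.cd g) * Ψ := by
  rw [PT.EE_step' ε hG hA hAB hg.1 hg.2 hwB]
  have hfac : (0 : ℝ) < (d.factorial : ℝ) := by positivity
  have hΨ : Ψ = (1 / (d.factorial : ℝ)) * ∑ _σ : Equiv.Perm (Fin d), Ψ := by
    rw [Finset.sum_const, Finset.card_univ, Fintype.card_perm, Fintype.card_fin, nsmul_eq_mul]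
    field_simp
  have hrhs : (1 - ε (T.cd g)) * ((1 / (d.factorial : ℝ)) *
      ∑ σ : Equiv.Perm (Fin d), (if col ω.1 g = σ (T.N0 g).2 then (d : ℝ) else 0) * Φ σ) +
      ε (T.cd g) * Ψ = (1 / (d.factorial : ℝ)) * ∑ σ : Equiv.Perm (Fin d),
        ((1 - ε (T.cd g)) * ((if col ω.1 g = σ (T.N0 g).2 then (d : ℝ) else 0) * Φ σ) +
        ε (T.cd g) * Ψ) := by
    conv_lhs => rw [hΨ]
    rw [Finset.sum_add_distrib, ← Finset.mul_sum, ← Finset.mul_sum]
    ring
  rw [hrhs]
  refine mul_le_mul_of_nonneg_left (Finset.sum_le_sum fun σ _ => ?_) (by positivity)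
  have hε1 := hε (T.cd g)
  refine add_le_add (mul_le_mul_of_nonneg_left ?_ (by linarith))
    (mul_le_mul_of_nonneg_left (h0 σ) hε1.1)
  by_cases h : col ω.1 g = σ (T.N0 g).2
  · rw [if_pos h]
    exact mul_le_mul_of_nonneg_left (h1 σ h.symm) (by positivity)
  · rw [if_neg h]; simp

theorem EE_le_const {ε : Dart V d → ℝ} (hε : WOK ε) (hG : G.IsTree) (hd : 1 ≤ d) {r : V}
    {A B : Finset V} (hA : Clo G r A) (hB : Clo G r B) (hAB : A ⊆ B) (F : Cfg V d → ℝ)
    (ω : Cfg V d) (c : ℝ) (h : ∀ ω', Off (T.cA B A) ω ω' → CO T B A ω' → F ω' ≤ c) :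
    T.EE ε B A F ω ≤ c := by
  rw [← PT.EE_const (T := T) hG hd ε hA hB hAB c ω]
  exact PT.EE_mono_cons B A hε ω h

/-- the chain through a leaving dart reaches `v`: probability `≤ (1-δ)((1-δ)/(d-1))^t` -/
theorem t2path {ε : Dart V d → ℝ} (hε : WOK ε) (hG : G.IsTree) (hd : 2 ≤ d) {δ : ℝ}
    (hδ : ∀ e, δ ≤ ε e) {r : V} {B : Finset V} (hB : Clo G r B)
    (v : V) {τ : Equiv.Perm (Fin d)} (hτ : ∀ k, τ (τ k) = k) (t : ℕ) :
    ∀ (A : Finset V) (g : Dart V d) (ω : Cfg V d), Clo G r A → A ⊆ B → Lv T A g →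
      τ (col ω.1 g) ≠ col ω.1 g → Aw T v g → G.dist v (T.N0 g).1 = t →
      T.EE ε B A (fun ω' => if ∃ c, T.nof B ω'.2 g = some c ∧
        onCh (T.nof B ω'.2) ω'.1 τ c v then (1 : ℝ) else 0) ω ≤
        (1 - δ) * ((1 - δ) / ((d : ℝ) - 1)) ^ t := by
  have hd1 : (0 : ℝ) < (d : ℝ) - 1 := by
    have : (2 : ℝ) ≤ d := by exact_mod_cast hd
    linarith
  have hδ1 : ∀ e : Dart V d, 0 ≤ 1 - δ := fun e => by linarith [hδ e, (hε e).2]
  induction t with
  | zero =>
    intro A g ω hA hAB hg hτg hv ht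
    have hδ1 := hδ1 g
    by_cases hwB : (T.N0 g).1 ∈ B
    · have hcut : ∀ σ : Equiv.Perm (Fin d), T.EE ε B (insert (T.N0 g).1 A)
          (fun ω' => if ∃ c, T.nof B ω'.2 g = some c ∧
          onCh (T.nof B ω'.2) ω'.1 τ c v then (1 : ℝ) else 0) (up T g ω σ false) ≤ 0 := by
        intro σ
        refine EE_le_const hε hG (by omega) (hg.clo hG hA) hB (Finset.insert_subset hwB hAB) _ _ _
          fun ω' ho _ => ?_
        rw [if_neg]
        rintro ⟨c, hc, _⟩
        have h1 := (T.nof_some.mp hc).2.2.1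
        rw [off_cut hg ho] at h1
        simp at h1
      have h := EE_step_le hε hG hA hAB hg hwB _ ω (fun _ => 1) 0
        (fun σ _ => EE_le_const hε hG (by omega) (hg.clo hG hA) hB
          (Finset.insert_subset hwB hAB) _ _ 1 fun ω' _ _ => by split_ifs <;> norm_num) hcut
      refine h.trans ?_
      simp only [mul_one]
      rw [PT.avg_match (by omega)]
      simp only [mul_one, mul_zero, add_zero, pow_zero]
      linarith [hδ (T.cd g)]
    · refine (EE_le_const hε hG (by omega) hA hB hAB _ _ 0 fun ω' _ _ => ?_).trans (by positivity)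
      rw [if_neg]
      rintro ⟨c, hc, _⟩
      exact hwB (T.nof_some.mp hc).2.1
  | succ t ih =>
    intro A g ω hA hAB hg hτg hv ht
    have hδ1 := hδ1 g
    by_cases hwB : (T.N0 g).1 ∈ B
    swap
    · refine (EE_le_const hε hG (by omega) hA hB hAB _ _ 0 fun ω' _ _ => ?_).trans (by positivity)
      rw [if_neg]
      rintro ⟨c, hc, _⟩
      exact hwB (T.nof_some.mp hc).2.1
    have hA' := hg.clo hG hA
    have hAB' := Finset.insert_subset hwB hAB
    have hwv : (T.N0 g).1 ≠ v := by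
      intro h
      rw [h, SimpleGraph.dist_self] at ht
      omega
    obtain ⟨i, hi⟩ := Aw_exists (T := T) hG hwv
    have hij : i ≠ (T.N0 g).2 := by
      rintro rfl
      exact Aw_not_both hv hi
    have hcut : ∀ σ : Equiv.Perm (Fin d), T.EE ε B (insert (T.N0 g).1 A)
        (fun ω' => if ∃ c, T.nof B ω'.2 g = some c ∧
        onCh (T.nof B ω'.2) ω'.1 τ c v then (1 : ℝ) else 0) (up T g ω σ false) ≤ 0 := by
      intro σ
      refine EE_le_const hε hG (by omega) hA' hB hAB' _ _ _ fun ω' ho _ => ?_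
      rw [if_neg]
      rintro ⟨c, hc, _⟩
      have h1 := (T.nof_some.mp hc).2.2.1
      rw [off_cut hg ho] at h1
      simp at h1
    have h1 : ∀ σ : Equiv.Perm (Fin d), σ (T.N0 g).2 = col ω.1 g →
        T.EE ε B (insert (T.N0 g).1 A)
        (fun ω' => if ∃ c, T.nof B ω'.2 g = some c ∧
        onCh (T.nof B ω'.2) ω'.1 τ c v then (1 : ℝ) else 0) (up T g ω σ true) ≤
        (if σ i = τ (col ω.1 g) then 1 else 0) * ((1 - δ) * ((1 - δ) / ((d : ℝ) - 1)) ^ t) := by
      intro σ hσ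
      -- the next dart
      set i' := σ.symm (τ (col ω.1 g)) with hi'
      have hij' : i' ≠ (T.N0 g).2 := by
        intro h
        have h2 := congrArg σ h
        rw [hi', Equiv.apply_symm_apply, hσ] at h2
        exact hτg h2
      have hg' : Lv T (insert (T.N0 g).1 A) ((T.N0 g).1, i') := hg.next hG hA hij'
      have hred : ∀ ω' : Cfg V d, Off (T.cA B (insert (T.N0 g).1 A)) (up T g ω σ true) ω' →
          (∃ c, T.nof B ω'.2 g = some c ∧ onCh (T.nof B ω'.2) ω'.1 τ c v) →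
          ∃ c, T.nof B ω'.2 ((T.N0 g).1, i') = some c ∧
            onCh (T.nof B ω'.2) ω'.1 τ c v := by
        rintro ω' ho ⟨c, hc, hon⟩
        have hcc := (T.nof_some.mp hc).2.2.2
        subst hcc
        rw [onCh_iff] at hon
        rcases hon with h | ⟨c', hc', hon⟩
        · exact absurd h hwv
        · refine ⟨c', ?_, hon⟩
          unfold nx at hc'
          have : dt ω'.1 (T.N0 g).1 (τ (col ω'.1 (T.N0 g))) = ((T.N0 g).1, i') := by
            unfold dt col
            rw [off_new ho, hσ]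
          rw [this] at hc'
          exact hc'
      have hcol' : col (up T g ω σ true).1 ((T.N0 g).1, i') = τ (col ω.1 g) := by
        unfold col
        rw [up_new, hi', Equiv.apply_symm_apply]
        rfl
      by_cases hii : σ i = τ (col ω.1 g)
      · rw [if_pos hii, one_mul]
        have hieq : i' = i := by rw [hi', ← hii, Equiv.symm_apply_apply]
        refine le_trans (PT.EE_mono_off B _ hε _ fun ω' ho => ?_)
          (ih (insert (T.N0 g).1 A) ((T.N0 g).1, i') (up T g ω σ true) hA' hAB' hg'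
          (by rw [hcol', hτ]; exact hτg.symm) (by rw [hieq]; exact hi) ?_)
        · by_cases hx : ∃ c, T.nof B ω'.2 g = some c ∧ onCh (T.nof B ω'.2) ω'.1 τ c v
          · rw [if_pos hx, if_pos (hred ω' ho hx)]
          · rw [if_neg hx]; split_ifs <;> norm_num
        · unfold Aw at hi
          simp only at hi
          rw [hieq]
          omega
      · rw [if_neg hii, zero_mul]
        refine EE_le_const hε hG (by omega) hA' hB hAB' _ _ 0 fun ω' ho hco => ?_
        rw [if_neg]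
        intro hx
        refine not_reach hG hA' hco hτ hg' ?_ ?_ (hred ω' ho hx)
        · have : col ω'.1 ((T.N0 g).1, i') = τ (col ω.1 g) := by
            unfold col
            rw [off_new ho, hi', Equiv.apply_symm_apply]
            rfl
          rw [this, hτ]
          exact hτg.symm
        · rcases Aw_or (T := T) hG v ((T.N0 g).1, i') with h | h
          · exfalso
            apply hii
            rw [Aw_unique hG hi h, hi', Equiv.apply_symm_apply]
          · exact h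
    have h := EE_step_le hε hG hA hAB hg hwB _ ω _ 0 h1 hcut
    refine h.trans ?_
    rw [avg2_mul hd hij (τ (col ω.1 g)) hτg, mul_zero, add_zero]
    have e1 : (1 - δ) * ((1 - δ) / ((d : ℝ) - 1)) ^ (t + 1) =
      (1 - δ) * (1 / ((d : ℝ) - 1) * ((1 - δ) * ((1 - δ) / ((d : ℝ) - 1)) ^ t)) := by
      rw [pow_succ]; ring
    rw [e1]
    refine mul_le_mul_of_nonneg_right (by linarith [hδ (T.cd g)]) (by positivity)

end F2

end FI
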