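import Pool.Agent.H99.FI.Cost.F2T2

/-!
# Job F2 (MP_bdd10f_pr), part 5: summation over the edges
-/

set_option autoImplicit false

namespace FI

namespace F2

open Finset Function
open scoped Classical

section sph

variable {V : Type*} {G : SimpleGraph V} {d : ℕ}

/-- sphere around `v` inside `B` -/
noncomputable def sph (G : SimpleGraph V) (B : Finset V) (v : V) (r : ℕ) : Finset V :=
  B.filter (fun w => G.dist v w = r)

theorem mem_sph {B : Finset V} {v w : V} {r : ℕ} : w ∈ sph G B v r ↔ w ∈ B ∧ G.dist v w = r := by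
  simp [sph]

theorem card_sph_succ (hG : G.IsTree) (T : PT G d) {B : Finset V} {v : V} (hB : Clo G v B)
    (r : ℕ) : (sph G B v (r + 1)).card ≤ d * (d - 1) ^ r := by
  induction r with
  | zero =>
    have h : sph G B v 1 ⊆ (Finset.univ : Finset (Fin d)).image (fun i => (T.N0 (v, i)).1) := by
      intro w hw
      rw [mem_sph] at hw
      obtain ⟨i, hi⟩ := T.surj v w (SimpleGraph.dist_eq_one_iff_adj.mp hw.2)
      rw [Finset.mem_image]
      exact ⟨i, Finset.mem_univ _, hi⟩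
    refine (Finset.card_le_card h).trans (Finset.card_image_le.trans ?_)
    simp
  | succ r ih =>
    have h : sph G B v (r + 1 + 1) ⊆ (sph G B v (r + 1)).biUnion (fun w =>
        ((Finset.univ : Finset (Fin d)).filter (fun i => ¬ Aw T v (w, i))).image
          (fun i => (T.N0 (w, i)).1)) := by
      intro z hz
      rw [mem_sph] at hz
      have hzv : z ≠ v := by
        rintro rfl
        rw [SimpleGraph.dist_self] at hz
        omega
      obtain ⟨w, hw, hd⟩ := exists_closer hG v hzv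
      have hwB := hB.2 z hz.1 w hw hd
      obtain ⟨i, hi⟩ := T.surj w z hw.symm
      rw [Finset.mem_biUnion]
      refine ⟨w, mem_sph.mpr ⟨hwB, by omega⟩, ?_⟩
      rw [Finset.mem_image]
      refine ⟨i, ?_, hi⟩
      rw [Finset.mem_filter]
      refine ⟨Finset.mem_univ _, ?_⟩
      unfold Aw
      rw [hi]
      simp only
      omega
    refine (Finset.card_le_card h).trans (Finset.card_biUnion_le.trans ?_)
    have h2 : ∀ w ∈ sph G B v (r + 1),
        (((Finset.univ : Finset (Fin d)).filter (fun i => ¬ Aw T v (w, i))).image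
          (fun i => (T.N0 (w, i)).1)).card ≤ d - 1 := by
      intro w hw
      rw [mem_sph] at hw
      have hwv : w ≠ v := by
        rintro rfl
        rw [SimpleGraph.dist_self] at hw
        omega
      obtain ⟨i, hi⟩ := Aw_exists (T := T) hG hwv
      refine Finset.card_image_le.trans ?_
      have h3 : (Finset.univ : Finset (Fin d)).filter (fun i => ¬ Aw T v (w, i)) ⊆
          Finset.univ.erase i := by
        intro j hj
        rw [Finset.mem_filter] at hj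
        rw [Finset.mem_erase]
        refine ⟨?_, Finset.mem_univ _⟩
        rintro rfl
        exact hj.2 hi
      have h4 := Finset.card_le_card h3
      rwa [Finset.card_erase_of_mem (Finset.mem_univ i), Finset.card_univ, Fintype.card_fin] at h4
    refine (Finset.sum_le_card_nsmul _ _ _ h2).trans ?_
    rw [smul_eq_mul, pow_succ, ← mul_assoc]
    exact Nat.mul_le_mul_right _ ih

theorem card_sph_le (hG : G.IsTree) (T : PT G d) (hd : 2 ≤ d) {B : Finset V} {v : V}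
    (hB : Clo G v B) (r : ℕ) : ((sph G B v r).card : ℝ) ≤ (d : ℝ) * ((d : ℝ) - 1) ^ r := by
  have hd1 : (1 : ℝ) ≤ (d : ℝ) - 1 := by
    have : (2 : ℝ) ≤ d := by exact_mod_cast hd
    linarith
  cases r with
  | zero =>
    have h : sph G B v 0 ⊆ {v} := by
      intro w hw
      rw [mem_sph] at hw
      rw [Finset.mem_singleton]
      exact (hG.connected.dist_eq_zero_iff.mp hw.2).symm
    have h2 := Finset.card_le_card h
    rw [Finset.card_singleton] at h2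
    have h3 : ((sph G B v 0).card : ℝ) ≤ 1 := by exact_mod_cast h2
    rw [pow_zero, mul_one]
    linarith
  | succ r =>
    have h := card_sph_succ hG T hB r
    have h2 : ((sph G B v (r + 1)).card : ℝ) ≤ (d : ℝ) * ((d : ℝ) - 1) ^ r := by
      have : (((d * (d - 1) ^ r : ℕ)) : ℝ) = (d : ℝ) * ((d : ℝ) - 1) ^ r := by
        push_cast [Nat.cast_sub (show 1 ≤ d by omega)]
        ring
      rw [← this]
      exact_mod_cast h
    refine h2.trans ?_
    rw [pow_succ]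
    have h3 : 0 ≤ (d : ℝ) * ((d : ℝ) - 1) ^ r := by positivity
    nlinarith

theorem sum_dist_le (hG : G.IsTree) (T : PT G d) (hd : 2 ≤ d) {B : Finset V} {v : V}
    (hB : Clo G v B) (φ : ℕ → ℝ) (hφ : ∀ r, 0 ≤ φ r) :
    ∃ n, ∑ w ∈ B, φ (G.dist v w) ≤ ∑ r ∈ range n, ((d : ℝ) * ((d : ℝ) - 1) ^ r) * φ r := by
  refine ⟨B.sup (fun w => G.dist v w) + 1, ?_⟩
  have hmaps : ∀ w ∈ B, G.dist v w ∈ range (B.sup (fun w => G.dist v w) + 1) := by
    intro w hw
    rw [Finset.mem_range]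
    exact Nat.lt_succ_of_le (Finset.le_sup (f := fun w => G.dist v w) hw)
  rw [← Finset.sum_fiberwise_of_maps_to hmaps]
  refine Finset.sum_le_sum fun r _ => ?_
  have h1 : ∑ w ∈ B.filter (fun w => G.dist v w = r), φ (G.dist v w) =
      ((sph G B v r).card : ℝ) * φ r := by
    rw [Finset.sum_congr rfl (g := fun _ => φ r)
      (fun w hw => by rw [(Finset.mem_filter.mp hw).2]), Finset.sum_const, nsmul_eq_mul]
    rfl
  rw [h1]
  exact mul_le_mul_of_nonneg_right (card_sph_le hG T hd hB r) (hφ r)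

theorem sum_EB_fst (T : PT G d) {B : Finset V} (ψ : V → ℝ) (hψ : ∀ w, 0 ≤ ψ w) :
    ∑ e ∈ T.EB B, ψ e.1 ≤ (d : ℝ) * ∑ w ∈ B, ψ w := by
  have h1 : ∑ e ∈ T.EB B, ψ e.1 ≤ ∑ e ∈ B ×ˢ (Finset.univ : Finset (Fin d)), ψ e.1 := by
    refine Finset.sum_le_sum_of_subset_of_nonneg ?_ fun e _ _ => hψ e.1
    unfold PT.EB
    exact Finset.filter_subset _ _
  refine h1.trans (le_of_eq ?_)
  rw [Finset.sum_product, Finset.mul_sum]
  refine Finset.sum_congr rfl fun w _ => ?_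
  simp

theorem sum_EB_snd (T : PT G d) {B : Finset V} (ψ : V → ℝ) (hψ : ∀ w, 0 ≤ ψ w) :
    ∑ e ∈ T.EB B, ψ (T.N0 e).1 ≤ (d : ℝ) * ∑ w ∈ B, ψ w := by
  have h0 : ∑ e ∈ T.EB B, ψ (T.N0 e).1 = ∑ g ∈ (T.EB B).image T.N0, ψ g.1 := by
    rw [Finset.sum_image]
    intro a _ b _ h
    exact T.N0_inj h
  have h1 : ∑ g ∈ (T.EB B).image T.N0, ψ g.1 ≤
      ∑ e ∈ B ×ˢ (Finset.univ : Finset (Fin d)), ψ e.1 := by
    refine Finset.sum_le_sum_of_subset_of_nonneg ?_ fun e _ _ => hψ e.1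
    intro g hg
    obtain ⟨e, he, rfl⟩ := Finset.mem_image.mp hg
    rw [Finset.mem_product]
    exact ⟨(T.mem_EB.mp he).2.2, Finset.mem_univ _⟩
  rw [h0]
  refine h1.trans (le_of_eq ?_)
  rw [Finset.sum_product, Finset.mul_sum]
  refine Finset.sum_congr rfl fun w _ => ?_
  simp

end sph

section cost

variable {V : Type*} {G : SimpleGraph V} {d : ℕ} {T : PT G d}

/-- pointwise bound -/
theorem chg_le [NeZero d] (P : Par) (hK : 0 < P.K) (B : Finset V) (e : Dart V d) (v : V)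
    (ω : Cfg V d) (hne : col ω.1 e ≠ col ω.1 (T.N0 e)) :
    T.chg P B e v ω ≤ T.lf P B e ω * (if onCh (T.nof B ω.2) ω.1
      (Equiv.swap (col ω.1 e) (col ω.1 (T.N0 e))) (T.N0 e) v then (1 : ℝ) else 0) +
      (1 / (P.K : ℝ)) * ∑ j ∈ range P.M, (if own P.J (T.nof B ω.2) ω.1
        (Equiv.swap (col ω.1 e) (col ω.1 (T.N0 e)))
        (third (col ω.1 e) (col ω.1 (T.N0 e))) e (2 * j) ∧
        SP (T.nof B ω.2) ω.1 (Equiv.swap (col ω.1 e) (col ω.1 (T.N0 e)))
        (third (col ω.1 e) (col ω.1 (T.N0 e))) v e (2 * j) then (1 : ℝ) else 0) := by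
  have hK' : (0 : ℝ) < P.K := by exact_mod_cast hK
  have h := kern_cost P (T.nof B ω.2) ω.1 e (T.N0 e) v hne
  unfold PT.chg
  by_cases hc : ω.2 e = false
  · rw [if_pos hc]
    refine (mul_le_mul_of_nonneg_left h (by positivity)).trans (le_of_eq ?_)
    unfold PT.lf
    field_simp
  · rw [if_neg hc]
    refine add_nonneg (mul_nonneg (lf_nonneg _ _ _ _) (by split_ifs <;> norm_num)) ?_
    refine mul_nonneg (by positivity) (Finset.sum_nonneg fun j _ => by split_ifs <;> norm_num)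

theorem chg_le_one_cut [NeZero d] (P : Par) (B : Finset V) (e : Dart V d) (v : V)
    (ω : Cfg V d) (hc : ω.2 e ≠ false) : T.chg P B e v ω = 0 := by
  unfold PT.chg
  rw [if_neg hc]

theorem chg_eq [NeZero d] (P : Par) (B : Finset V) (e : Dart V d) (v : V)
    (ω : Cfg V d) (hc : col ω.1 e = col ω.1 (T.N0 e)) : T.chg P B e v ω = 0 := by
  unfold PT.chg
  split_ifs
  · have : ∀ ξ, kern P (T.nof B ω.2) ω.1 ξ e (T.N0 e) = ω.1 := by
      intro ξ
      unfold kern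
      rw [if_pos hc]
    simp [this]
  · rfl

theorem chg_root [NeZero d] {ε : Dart V d → ℝ} (hε : WOK ε) (hG : G.IsTree) (hd : 1 ≤ d)
    {B : Finset V} (hB : ∀ r ∈ B, Clo G r B) (P : Par) {e : Dart V d} (he : e ∈ T.EB B) (v : V)
    (c : ℝ) (h : ∀ ω : Cfg V d, ω.2 e = false →
      T.EE ε B {e.1, (T.N0 e).1} (T.chg P B e v) ω ≤ c) (ω : Cfg V d) :
    T.EE ε B ∅ (T.chg P B e v) ω ≤ ε e * c := by
  have hE := T.mem_EB.mp he
  have hBr := hB _ hE.1
  rw [PT.EE_root ε hE.1]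
  have hLv : Lv T ({e.1} : Finset V) e := by
    refine ⟨Finset.mem_singleton_self _, ?_⟩
    rw [Finset.mem_singleton]
    exact T.N0_ne e
  have hAB : ({e.1} : Finset V) ⊆ B := by
    rw [Finset.singleton_subset_iff]; exact hE.1
  have hA' := hLv.clo hG (Clo.singleton e.1)
  have hAB' := Finset.insert_subset hE.2.2 hAB
  have key : ∀ ω : Cfg V d, T.EE ε B {e.1} (T.chg P B e v) ω ≤ ε e * c := by
    intro ω
    have h1 := EE_step_le hε hG (Clo.singleton e.1) hAB hLv hE.2.2 (T.chg P B e v) ω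
      (fun _ => 0) c
      (fun σ _ => EE_le_const hε hG hd hA' hBr hAB' _ _ 0 fun ω' ho _ => by
        rw [chg_le_one_cut]
        have := off_cut hLv ho
        rw [hE.2.1] at this
        rw [this]; simp)
      (fun σ => by
        have h2 := h (up T e ω σ false) (by
          have := up_edge (T := T) (g := e) (ω := ω) (σ := σ) (b := false)
          rwa [hE.2.1] at this)
        rwa [Finset.pair_comm] at h2)
    simp only [mul_zero, Finset.sum_const_zero, zero_add] at h1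
    rwa [hE.2.1] at h1
  have hfac : (0 : ℝ) < (d.factorial : ℝ) := by positivity
  calc (1 / (d.factorial : ℝ)) * ∑ σ : Equiv.Perm (Fin d),
        T.EE ε B {e.1} (T.chg P B e v) (Function.update ω.1 e.1 σ, ω.2)
      ≤ (1 / (d.factorial : ℝ)) * ∑ σ : Equiv.Perm (Fin d), (ε e * c) :=
        mul_le_mul_of_nonneg_left (Finset.sum_le_sum fun σ _ => key _) (by positivity)
    _ = ε e * c := by
        rw [Finset.sum_const, Finset.card_univ, Fintype.card_perm, Fintype.card_fin, nsmul_eq_mul]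
        field_simp

/-- cost of the repair at the cut edge `e` -/
theorem chg_A2 [NeZero d] {ε : Dart V d → ℝ} (hε : WOK ε) (hG : G.IsTree) (hd : 3 ≤ d)
    {εh δ : ℝ} (hεh : ∀ e, ε e ≤ εh) (hδ : ∀ e, δ ≤ ε e) {B : Finset V}
    (hB : ∀ r ∈ B, Clo G r B) (P : Par) (hK : 0 < P.K) {e : Dart V d} (he : e ∈ T.EB B) (v : V)
    {lam : ℝ} (hlam0 : 0 ≤ lam)
    (hlam : ∀ ω : Cfg V d, ω.2 e = false → col ω.1 e ≠ col ω.1 (T.N0 e) →
      T.EE ε B {e.1, (T.N0 e).1} (T.lf P B e) ω ≤ lam)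
    (hball : G.dist v e.1 ≤ 2 * P.M + P.J → ∀ z, G.dist e.1 z ≤ 2 * P.M + P.J → z ∈ B)
    (ω : Cfg V d) (hcut : ω.2 e = false) :
    T.EE ε B {e.1, (T.N0 e).1} (T.chg P B e v) ω ≤
      (((d : ℝ) - 1) * ((1 - δ) / ((d : ℝ) - 1)) ^ (G.dist v (T.N0 e).1)) * lam +
      (1 / (P.K : ℝ)) * (P.M * (if G.dist v e.1 ≤ 2 * P.M + P.J then
        2 * ((d : ℝ) - 1) * (((P.J + 1) * εh) ^ 2 * (1 / ((d : ℝ) - 1)) ^ (G.dist v e.1))
        else 0)) := by
  have hd1 : (1 : ℝ) ≤ (d : ℝ) - 1 := by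
    have : (3 : ℝ) ≤ d := by exact_mod_cast hd
    linarith
  have hδ1 : 0 ≤ 1 - δ := by linarith [hδ e, (hε e).2]
  have hεh0 : 0 ≤ εh := (hε e).1.trans (hεh _)
  have hE := T.mem_EB.mp he
  have hAB : ({e.1, (T.N0 e).1} : Finset V) ⊆ B := by
    intro z hz
    rw [Finset.mem_insert, Finset.mem_singleton] at hz
    rcases hz with rfl | rfl
    · exact hE.1
    · exact hE.2.2
  have hBr := hB _ hE.1
  have hcong : ∀ ω' : Cfg V d, Off (T.cA B ({e.1, (T.N0 e).1} : Finset V)) ω ω' →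
      col ω'.1 e = col ω.1 e ∧ col ω'.1 (T.N0 e) = col ω.1 (T.N0 e) := by
    intro ω' ho
    constructor
    · unfold col; rw [off_st (z := e.1) ho (by simp)]
    · unfold col; rw [off_st (z := (T.N0 e).1) ho (by simp)]
  have hexn : (0 : ℝ) ≤ (if G.dist v e.1 ≤ 2 * P.M + P.J then
        2 * ((d : ℝ) - 1) * (((P.J + 1) * εh) ^ 2 * (1 / ((d : ℝ) - 1)) ^ (G.dist v e.1))
        else 0) := by
    have h2 : (0 : ℝ) ≤ 2 * ((d : ℝ) - 1) *
      (((P.J + 1) * εh) ^ 2 * (1 / ((d : ℝ) - 1)) ^ (G.dist v e.1)) := by positivity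
    split_ifs
    · exact h2
    · exact le_rfl
  by_cases hne : col ω.1 e = col ω.1 (T.N0 e)
  · refine (EE_le_const hε hG (by omega) (pair_clo hG e) hBr hAB _ _ 0
      fun ω' ho _ => ?_).trans (by positivity)
    obtain ⟨c1, c2⟩ := hcong ω' ho
    rw [chg_eq]
    rw [c1, c2, hne]
  · have h1 := t2_le hε hG (by omega) hδ hB P he v hcut hne (hlam ω hcut hne)
    have h2 : ∀ j ∈ range P.M, T.EE ε B {e.1, (T.N0 e).1} (fun ω' => if own P.J (T.nof B ω'.2)
        ω'.1 (Equiv.swap (col ω'.1 e) (col ω'.1 (T.N0 e)))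
        (third (col ω'.1 e) (col ω'.1 (T.N0 e))) e (2 * j) ∧
        SP (T.nof B ω'.2) ω'.1 (Equiv.swap (col ω'.1 e) (col ω'.1 (T.N0 e)))
        (third (col ω'.1 e) (col ω'.1 (T.N0 e))) v e (2 * j) then (1 : ℝ) else 0) ω ≤
        (if G.dist v e.1 ≤ 2 * P.M + P.J then
        2 * ((d : ℝ) - 1) * (((P.J + 1) * εh) ^ 2 * (1 / ((d : ℝ) - 1)) ^ (G.dist v e.1))
        else 0) := by
      intro j hj
      rw [Finset.mem_range] at hj
      by_cases hnear : G.dist v e.1 ≤ 2 * P.M + P.J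
      · rw [if_pos hnear]
        exact ex_le hε hG hd hεh hB P.J (2 * j) he v hne
          (fun z hz => hball hnear z (by omega))
      · rw [if_neg hnear]
        refine EE_le_const hε hG (by omega) (pair_clo hG e) hBr hAB _ _ 0 fun ω' ho _ => ?_
        rw [if_neg]
        rintro ⟨h3, h4⟩
        have := own_SP_dist hG h3 h4
        omega
    have h3 : T.EE ε B {e.1, (T.N0 e).1} (fun ω' => (1 / (P.K : ℝ)) * ∑ j ∈ range P.M,
        (if own P.J (T.nof B ω'.2)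
        ω'.1 (Equiv.swap (col ω'.1 e) (col ω'.1 (T.N0 e)))
        (third (col ω'.1 e) (col ω'.1 (T.N0 e))) e (2 * j) ∧
        SP (T.nof B ω'.2) ω'.1 (Equiv.swap (col ω'.1 e) (col ω'.1 (T.N0 e)))
        (third (col ω'.1 e) (col ω'.1 (T.N0 e))) v e (2 * j) then (1 : ℝ) else 0)) ω ≤
        (1 / (P.K : ℝ)) * (P.M * (if G.dist v e.1 ≤ 2 * P.M + P.J then
        2 * ((d : ℝ) - 1) * (((P.J + 1) * εh) ^ 2 * (1 / ((d : ℝ) - 1)) ^ (G.dist v e.1))
        else 0)) := by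
      rw [PT.EE_smul, PT.EE_sum]
      refine mul_le_mul_of_nonneg_left ?_ (by positivity)
      refine (Finset.sum_le_sum h2).trans (le_of_eq ?_)
      rw [Finset.sum_const, Finset.card_range, nsmul_eq_mul]
    have h4 := congrFun (PT.EE_add (T := T) ε B {e.1, (T.N0 e).1}
      (fun ω' => T.lf P B e ω' * (if onCh (T.nof B ω'.2) ω'.1
      (Equiv.swap (col ω'.1 e) (col ω'.1 (T.N0 e))) (T.N0 e) v then (1 : ℝ) else 0))
      (fun ω' => (1 / (P.K : ℝ)) * ∑ j ∈ range P.M,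
        (if own P.J (T.nof B ω'.2)
        ω'.1 (Equiv.swap (col ω'.1 e) (col ω'.1 (T.N0 e)))
        (third (col ω'.1 e) (col ω'.1 (T.N0 e))) e (2 * j) ∧
        SP (T.nof B ω'.2) ω'.1 (Equiv.swap (col ω'.1 e) (col ω'.1 (T.N0 e)))
        (third (col ω'.1 e) (col ω'.1 (T.N0 e))) v e (2 * j) then (1 : ℝ) else 0))) ω
    refine le_trans ?_ (add_le_add h1 h3)
    rw [← h4]
    refine PT.EE_mono_off B _ hε _ fun ω' ho => ?_
    obtain ⟨c1, c2⟩ := hcong ω' ho
    exact chg_le P hK B e v ω' (by rw [c1, c2]; exact hne)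

end cost

/-! ### the final sum -/

theorem geom_le {x : ℝ} (h0 : 0 ≤ x) (h1 : x < 1) (n : ℕ) :
    ∑ r ∈ range n, x ^ r ≤ 1 / (1 - x) := by
  have := geom_sum_Ico_le_of_lt_one (m := 0) (n := n) h0 h1
  rwa [pow_zero, ← Finset.range_eq_Ico] at this

theorem geom_tail_le {x : ℝ} (h0 : 0 ≤ x) (h1 : x < 1) (m n : ℕ) :
    ∑ r ∈ range n, (if m ≤ r then x ^ r else 0) ≤ x ^ m / (1 - x) := by
  have h2 := geom_sum_Ico_le_of_lt_one (m := m) (n := n) h0 h1
  rw [← Finset.sum_filter]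
  have : (range n).filter (fun r => m ≤ r) = Finset.Ico m n := by
    ext r
    simp only [Finset.mem_filter, Finset.mem_range, Finset.mem_Ico]
    tauto
  rw [this]
  exact h2

theorem num_bound (z : ℝ) (hz : 1 ≤ z) :
    1 / z ^ 8 * (1 / z ^ 2 * (128 * z ^ 6)) * ((128 * z ^ 6 + 1) * (1 / z ^ 8)) ^ 2 *
      (2 * (128 * z ^ 6) + 128 * z ^ 6 + 1) ≤ 2 ^ 32 / z := by
  have hz0 : 0 < z := by linarith
  have h6 : 1 ≤ z ^ 6 := one_le_pow₀ hz
  have h1 : 128 * z ^ 6 + 1 ≤ 256 * z ^ 6 := by linarith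
  have h2 : 2 * (128 * z ^ 6) + 128 * z ^ 6 + 1 ≤ 512 * z ^ 6 := by linarith
  have h3 : ((128 * z ^ 6 + 1) * (1 / z ^ 8)) ^ 2 ≤ ((256 * z ^ 6) * (1 / z ^ 8)) ^ 2 := by
    refine pow_le_pow_left₀ (by positivity) ?_ 2
    exact mul_le_mul_of_nonneg_right h1 (by positivity)
  calc _ ≤ 1 / z ^ 8 * (1 / z ^ 2 * (128 * z ^ 6)) * ((256 * z ^ 6) * (1 / z ^ 8)) ^ 2 *
      (512 * z ^ 6) := by
        refine mul_le_mul ?_ h2 (by positivity) (by positivity)
        exact mul_le_mul_of_nonneg_left h3 (by positivity)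
    _ = 2 ^ 32 / z ^ 2 := by field_simp; ring
    _ ≤ 2 ^ 32 / z := by
        refine div_le_div_of_nonneg_left (by positivity) hz0 ?_
        nlinarith

/-- Job F2, with the bound of job F1 as a hypothesis -/
theorem cost_static_of {d : ℕ} [NeZero d] (hd : 3 ≤ d) (hlam : ∃ C : ℝ, 0 ≤ C ∧
    ∀ (s : ℕ) (V : Type) (G : SimpleGraph V) (_ : G.IsTree) (T : PT G d) (B : Finset V)
      (_ : ∀ r ∈ B, Clo G r B) (ε : Dart V d → ℝ) (_ : Scale s ε) (e : Dart V d)
      (_ : e ∈ T.EB B) (_ : ∀ w, G.dist e.1 w ≤ 2 ^ (6 * s + 10) → w ∈ B) (ω : Cfg V d),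
      ω.2 e = false → col ω.1 e ≠ col ω.1 (T.N0 e) →
      T.EE ε B {e.1, (T.N0 e).1} (T.lf (parS s) B e) ω ≤ C / 2 ^ s) :
    ∃ (C : ℝ) (R : ℕ → ℕ), 0 ≤ C ∧
    ∀ (s : ℕ) (V : Type) (G : SimpleGraph V) (_ : G.IsTree) (T : PT G d) (B : Finset V)
      (_ : ∀ r ∈ B, Clo G r B) (v : V) (_ : ∀ w, G.dist v w ≤ R s → w ∈ B),
      ∃ b : Dart V d → ℝ, (∀ e, 0 ≤ b e) ∧ ∑ e ∈ T.EB B, b e ≤ C / 2 ^ s ∧
        ∀ ε : Dart V d → ℝ, Scale s ε → ∀ e ∈ T.EB B, ∀ ω : Cfg V d,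
          T.EE ε B ∅ (T.chg (parS s) B e v) ω ≤ b e := by
  obtain ⟨C₁, hC₁, hlam⟩ := hlam
  have hd1 : (1 : ℝ) ≤ (d : ℝ) - 1 := by
    have : (3 : ℝ) ≤ d := by exact_mod_cast hd
    linarith
  have hd0 : (0 : ℝ) ≤ d := by positivity
  have hns : ∀ s : ℕ, ∃ n : ℕ, (1 - 1 / (2 : ℝ) ^ (8 * s + 9)) ^ n ≤ 1 / 2 ^ s := by
    intro s
    obtain ⟨n, hn⟩ := exists_pow_lt_of_lt_one (show (0 : ℝ) < 1 / 2 ^ s by positivity)
      (show 1 - 1 / (2 : ℝ) ^ (8 * s + 9) < 1 by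
        have : (0 : ℝ) < 1 / 2 ^ (8 * s + 9) := by positivity
        linarith)
    exact ⟨n, hn.le⟩
  choose ns hns using hns
  refine ⟨2 ^ 9 * (((d : ℝ) - 1) * d ^ 2) * (C₁ + 1) + 2 ^ 33 * (((d : ℝ) - 1) * d ^ 2),
    fun s => ns s + 2 ^ (6 * s + 10) + 6 * 2 ^ (6 * s + 7) + 1, by positivity, ?_⟩
  intro s V G hG T B hB v hR'
  have hR : ∀ w, G.dist v w ≤ ns s + 2 ^ (6 * s + 10) + 6 * 2 ^ (6 * s + 7) + 1 → w ∈ B := hR'
  have hp1 : 0 < 2 ^ (6 * s + 10) := by positivity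
  have hp2 : 0 < 2 ^ (6 * s + 7) := by positivity
  -- parameters
  set εh : ℝ := 1 / 2 ^ (8 * s) with hεh
  set δ : ℝ := 1 / 2 ^ (8 * s + 9) with hδ
  have hδ0 : 0 < δ := by positivity
  have hεh0 : 0 < εh := by positivity
  have hδ1 : δ < 1 := by
    rw [hδ, div_lt_one (by positivity)]
    exact one_lt_pow₀ (by norm_num) (by omega)
  have hvB : v ∈ B := hR v (by rw [SimpleGraph.dist_self]; omega)
  have hBv := hB v hvB
  have hK : 0 < (parS s).K := by unfold parS; positivity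
  set M := (parS s).M with hM
  set J := (parS s).J with hJ
  have hMv : M = 2 ^ (6 * s + 7) := rfl
  have hJv : J = 2 ^ (6 * s + 7) := rfl
  set x : ℝ := 1 - δ with hx
  have hx0 : 0 ≤ x := by rw [hx]; linarith
  have hx1 : x < 1 := by rw [hx]; linarith
  set y : ℝ := x / ((d : ℝ) - 1) with hy
  have hy0 : 0 ≤ y := by positivity
  -- the three summands
  set φ₁ : ℕ → ℝ := fun r => y ^ r with hφ₁
  set φ₂ : ℕ → ℝ := fun r => if ns s ≤ r then y ^ r else 0 with hφ₂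
  set φ₃ : ℕ → ℝ := fun r => if r ≤ 2 * M + J then (1 / ((d : ℝ) - 1)) ^ r else 0 with hφ₃
  have hφ₁0 : ∀ r, 0 ≤ φ₁ r := fun r => by simp only [hφ₁]; positivity
  have hφ₂0 : ∀ r, 0 ≤ φ₂ r := fun r => by
    simp only [hφ₂]; split_ifs
    · positivity
    · exact le_rfl
  have hφ₃0 : ∀ r, 0 ≤ φ₃ r := fun r => by
    simp only [hφ₃]; split_ifs
    · positivity
    · exact le_rfl
  have hyx : ∀ r : ℕ, ((d : ℝ) - 1) ^ r * y ^ r = x ^ r := by
    intro r
    rw [← mul_pow, hy, mul_div_cancel₀ _ (by linarith)]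
  have hS₁ : ∑ e ∈ T.EB B, φ₁ (G.dist v (T.N0 e).1) ≤ d ^ 2 / δ := by
    refine (sum_EB_snd T (fun w => φ₁ (G.dist v w)) (fun w => hφ₁0 _)).trans ?_
    obtain ⟨n, hn⟩ := sum_dist_le hG T (by omega) hBv φ₁ hφ₁0
    refine (mul_le_mul_of_nonneg_left hn hd0).trans ?_
    have h1 : ∑ r ∈ range n, ((d : ℝ) * ((d : ℝ) - 1) ^ r) * φ₁ r =
        d * ∑ r ∈ range n, x ^ r := by
      rw [Finset.mul_sum]
      refine Finset.sum_congr rfl fun r _ => ?_
      simp only [hφ₁]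
      rw [mul_assoc, hyx]
    rw [h1]
    have h2 := geom_le hx0 hx1 n
    have h3 : 1 - x = δ := by rw [hx]; ring
    rw [h3] at h2
    calc (d : ℝ) * (d * ∑ r ∈ range n, x ^ r) ≤ d * (d * (1 / δ)) := by gcongr
      _ = d ^ 2 / δ := by ring
  have hS₂ : ∑ e ∈ T.EB B, φ₂ (G.dist v (T.N0 e).1) ≤ d ^ 2 / δ * (1 / 2 ^ s) := by
    refine (sum_EB_snd T (fun w => φ₂ (G.dist v w)) (fun w => hφ₂0 _)).trans ?_
    obtain ⟨n, hn⟩ := sum_dist_le hG T (by omega) hBv φ₂ hφ₂0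
    refine (mul_le_mul_of_nonneg_left hn hd0).trans ?_
    have h1 : ∑ r ∈ range n, ((d : ℝ) * ((d : ℝ) - 1) ^ r) * φ₂ r =
        d * ∑ r ∈ range n, (if ns s ≤ r then x ^ r else 0) := by
      rw [Finset.mul_sum]
      refine Finset.sum_congr rfl fun r _ => ?_
      simp only [hφ₂]
      split_ifs
      · rw [mul_assoc, hyx]
      · simp
    rw [h1]
    have h2 := geom_tail_le hx0 hx1 (ns s) n
    have h3 : 1 - x = δ := by rw [hx]; ring
    rw [h3] at h2
    have h4 : x ^ (ns s) ≤ 1 / 2 ^ s := hns s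
    calc (d : ℝ) * (d * ∑ r ∈ range n, (if ns s ≤ r then x ^ r else 0))
        ≤ d * (d * (x ^ (ns s) / δ)) := by gcongr
      _ ≤ d * (d * (1 / 2 ^ s / δ)) := by gcongr
      _ = d ^ 2 / δ * (1 / 2 ^ s) := by ring
  have hS₃ : ∑ e ∈ T.EB B, φ₃ (G.dist v e.1) ≤ d ^ 2 * (2 * M + J + 1) := by
    refine (sum_EB_fst T (fun w => φ₃ (G.dist v w)) (fun w => hφ₃0 _)).trans ?_
    obtain ⟨n, hn⟩ := sum_dist_le hG T (by omega) hBv φ₃ hφ₃0
    refine (mul_le_mul_of_nonneg_left hn hd0).trans ?_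
    have h1 : ∑ r ∈ range n, ((d : ℝ) * ((d : ℝ) - 1) ^ r) * φ₃ r =
        d * ∑ r ∈ range n, (if r ≤ 2 * M + J then (1 : ℝ) else 0) := by
      rw [Finset.mul_sum]
      refine Finset.sum_congr rfl fun r _ => ?_
      simp only [hφ₃]
      split_ifs
      · rw [mul_assoc, ← mul_pow]
        have : ((d : ℝ) - 1) * (1 / ((d : ℝ) - 1)) = 1 := by
          have : (d : ℝ) - 1 ≠ 0 := by linarith
          field_simp
        rw [this, one_pow]
      · simp
    have h2 : ∑ r ∈ range n, (if r ≤ 2 * M + J then (1 : ℝ) else 0) ≤ 2 * M + J + 1 := by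
      rw [← Finset.sum_filter, Finset.sum_const, nsmul_eq_mul, mul_one]
      have h3 : (range n).filter (fun r => r ≤ 2 * M + J) ⊆ range (2 * M + J + 1) := by
        intro r hr
        rw [Finset.mem_filter] at hr
        rw [Finset.mem_range]
        omega
      have h4 := Finset.card_le_card h3
      rw [Finset.card_range] at h4
      exact_mod_cast h4
    rw [h1]
    calc (d : ℝ) * (d * ∑ r ∈ range n, (if r ≤ 2 * M + J then (1 : ℝ) else 0))
        ≤ d * (d * (2 * M + J + 1)) := by gcongr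
      _ = d ^ 2 * (2 * M + J + 1) := by ring
  -- the bound
  refine ⟨fun e => εh * ((((d : ℝ) - 1) * φ₁ (G.dist v (T.N0 e).1)) * (C₁ / 2 ^ s) +
      ((d : ℝ) - 1) * φ₂ (G.dist v (T.N0 e).1) +
      (1 / ((parS s).K : ℝ)) * (M * (2 * ((d : ℝ) - 1) * (((J + 1) * εh) ^ 2 *
        φ₃ (G.dist v e.1))))), ?_, ?_, ?_⟩
  · intro e
    have h1 := hφ₁0 (G.dist v (T.N0 e).1)
    have h2 := hφ₂0 (G.dist v (T.N0 e).1)
    have h3 := hφ₃0 (G.dist v e.1)
    positivity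
  · -- the sum
    have hsum : ∑ e ∈ T.EB B, εh * ((((d : ℝ) - 1) * φ₁ (G.dist v (T.N0 e).1)) * (C₁ / 2 ^ s) +
        ((d : ℝ) - 1) * φ₂ (G.dist v (T.N0 e).1) +
        (1 / ((parS s).K : ℝ)) * (M * (2 * ((d : ℝ) - 1) * (((J + 1) * εh) ^ 2 *
        φ₃ (G.dist v e.1))))) =
        εh * (((d : ℝ) - 1) * (C₁ / 2 ^ s) * ∑ e ∈ T.EB B, φ₁ (G.dist v (T.N0 e).1) +
        ((d : ℝ) - 1) * ∑ e ∈ T.EB B, φ₂ (G.dist v (T.N0 e).1) +
        (1 / ((parS s).K : ℝ)) * (M * (2 * ((d : ℝ) - 1) * ((J + 1) * εh) ^ 2)) *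
        ∑ e ∈ T.EB B, φ₃ (G.dist v e.1)) := by
      rw [← Finset.mul_sum, Finset.sum_add_distrib, Finset.sum_add_distrib]
      congr 2
      · congr 1
        · rw [Finset.mul_sum]
          exact Finset.sum_congr rfl fun e _ => by ring
        · rw [Finset.mul_sum]
      · rw [Finset.mul_sum]
        exact Finset.sum_congr rfl fun e _ => by ring
    rw [hsum]
    have hle : εh * (((d : ℝ) - 1) * (C₁ / 2 ^ s) * ∑ e ∈ T.EB B, φ₁ (G.dist v (T.N0 e).1) +
        ((d : ℝ) - 1) * ∑ e ∈ T.EB B, φ₂ (G.dist v (T.N0 e).1) +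
        (1 / ((parS s).K : ℝ)) * (M * (2 * ((d : ℝ) - 1) * ((J + 1) * εh) ^ 2)) *
        ∑ e ∈ T.EB B, φ₃ (G.dist v e.1)) ≤
        εh * (((d : ℝ) - 1) * (C₁ / 2 ^ s) * (d ^ 2 / δ) +
        ((d : ℝ) - 1) * (d ^ 2 / δ * (1 / 2 ^ s)) +
        (1 / ((parS s).K : ℝ)) * (M * (2 * ((d : ℝ) - 1) * ((J + 1) * εh) ^ 2)) *
        (d ^ 2 * (2 * M + J + 1))) := by
      gcongr
    refine hle.trans ?_
    set z : ℝ := 2 ^ s with hz
    have hz1 : 1 ≤ z := one_le_pow₀ (by norm_num)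
    have hz0 : 0 < z := by linarith
    have e1 : εh = 1 / z ^ 8 := by rw [hεh, hz, ← pow_mul, mul_comm]
    have e2 : δ = 1 / (2 ^ 9 * z ^ 8) := by
      rw [hδ, hz, ← pow_mul, pow_add, mul_comm s 8]; ring
    have e3 : ((parS s).K : ℝ) = z ^ 2 := by
      unfold parS
      push_cast
      rw [hz, ← pow_mul, mul_comm s 2]
    have e4 : (M : ℝ) = 128 * z ^ 6 := by
      rw [hMv]
      push_cast
      rw [hz, ← pow_mul, pow_add, mul_comm s 6]; ring
    have e5 : (J : ℝ) = 128 * z ^ 6 := by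
      rw [hJv]
      push_cast
      rw [hz, ← pow_mul, pow_add, mul_comm s 6]; ring
    have hnum := num_bound z hz1
    rw [e2, e3, e4, e5, e1]
    have h1 : 1 / z ^ 8 * (((d : ℝ) - 1) * (C₁ / z) * (d ^ 2 / (1 / (2 ^ 9 * z ^ 8)))) =
        2 ^ 9 * (((d : ℝ) - 1) * d ^ 2) * C₁ / z := by field_simp
    have h2 : 1 / z ^ 8 * (((d : ℝ) - 1) * (d ^ 2 / (1 / (2 ^ 9 * z ^ 8)) * (1 / z))) =
        2 ^ 9 * (((d : ℝ) - 1) * d ^ 2) / z := by field_simp
    have h3 : 1 / z ^ 8 * (1 / z ^ 2 * (128 * z ^ 6 *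
        (2 * ((d : ℝ) - 1) * ((128 * z ^ 6 + 1) * (1 / z ^ 8)) ^ 2)) *
        (d ^ 2 * (2 * (128 * z ^ 6) + 128 * z ^ 6 + 1))) ≤
        2 ^ 33 * (((d : ℝ) - 1) * d ^ 2) / z := by
      have h4 : 0 ≤ 2 * (((d : ℝ) - 1) * d ^ 2) := by positivity
      have h5 := mul_le_mul_of_nonneg_left hnum h4
      calc _ = 2 * (((d : ℝ) - 1) * d ^ 2) * (1 / z ^ 8 * (1 / z ^ 2 * (128 * z ^ 6)) *
            ((128 * z ^ 6 + 1) * (1 / z ^ 8)) ^ 2 *
            (2 * (128 * z ^ 6) + 128 * z ^ 6 + 1)) := by ring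
        _ ≤ _ := h5
        _ = _ := by ring
    rw [mul_add, mul_add, h1, h2]
    calc _ ≤ 2 ^ 9 * (((d : ℝ) - 1) * d ^ 2) * C₁ / z + 2 ^ 9 * (((d : ℝ) - 1) * d ^ 2) / z +
          2 ^ 33 * (((d : ℝ) - 1) * d ^ 2) / z := by gcongr
      _ = _ := by ring
  · -- each edge
    intro ε hsc e he ω
    have hε : WOK ε := by
      intro e
      have h1 := hsc e
      refine ⟨le_trans (by positivity) h1.1, h1.2.trans ?_⟩
      rw [div_le_one (by positivity)]
      exact one_le_pow₀ (by norm_num)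
    have hE := T.mem_EB.mp he
    -- leftover
    set lam : ℝ := if (∀ w, G.dist e.1 w ≤ 2 ^ (6 * s + 10) → w ∈ B) then C₁ / 2 ^ s else 1
      with hlamdef
    have hlam0 : 0 ≤ lam := by rw [hlamdef]; split_ifs <;> positivity
    have hlam1 : ∀ ω : Cfg V d, ω.2 e = false → col ω.1 e ≠ col ω.1 (T.N0 e) →
        T.EE ε B {e.1, (T.N0 e).1} (T.lf (parS s) B e) ω ≤ lam := by
      intro ω h1 h2
      rw [hlamdef]
      split_ifs with h3
      · exact hlam s V G hG T B hB ε hsc e he h3 ω h1 h2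
      · refine EE_le_const hε hG (by omega) (pair_clo hG e) (hB _ hE.1) ?_ _ _ 1
          fun ω' _ _ => lf_le_one _ _ _ _
        intro z hz
        rw [Finset.mem_insert, Finset.mem_singleton] at hz
        rcases hz with rfl | rfl
        · exact hE.1
        · exact hE.2.2
    have hadj1 : G.dist e.1 (T.N0 e).1 = 1 := SimpleGraph.dist_eq_one_iff_adj.mpr (T.adj e)
    have htri : ∀ z, G.dist v z ≤ G.dist v e.1 + G.dist e.1 z :=
      fun z => hG.connected.dist_triangle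
    have hball : G.dist v e.1 ≤ 2 * M + J → ∀ z, G.dist e.1 z ≤ 2 * M + J → z ∈ B := by
      intro h1 z h2
      apply hR
      have := htri z
      rw [hMv, hJv] at h1 h2
      omega
    have hlam2 : y ^ (G.dist v (T.N0 e).1) * lam ≤
        φ₁ (G.dist v (T.N0 e).1) * (C₁ / 2 ^ s) + φ₂ (G.dist v (T.N0 e).1) := by
      rw [hlamdef]
      split_ifs with h3
      · have := hφ₂0 (G.dist v (T.N0 e).1)
        simp only [hφ₁]
        linarith
      · push Not at h3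
        obtain ⟨w, hw1, hw2⟩ := h3
        have h4 : ns s ≤ G.dist v (T.N0 e).1 := by
          by_contra hcon
          apply hw2
          apply hR
          have h5 := htri w
          have h6 : G.dist v e.1 ≤ G.dist v (T.N0 e).1 + G.dist (T.N0 e).1 e.1 :=
            hG.connected.dist_triangle
          rw [SimpleGraph.dist_comm (u := (T.N0 e).1), hadj1] at h6
          omega
        have h5 : φ₂ (G.dist v (T.N0 e).1) = y ^ (G.dist v (T.N0 e).1) := by
          simp only [hφ₂]; rw [if_pos h4]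
        rw [h5, mul_one]
        have : 0 ≤ φ₁ (G.dist v (T.N0 e).1) * (C₁ / 2 ^ s) :=
          mul_nonneg (hφ₁0 _) (by positivity)
        linarith
    have h1 := chg_root hε hG (by omega) hB (parS s) he v _
      (fun ω hcut => chg_A2 hε hG hd (fun e => (hsc e).2) (fun e => (hsc e).1) hB (parS s) hK he v
        hlam0 hlam1 hball ω hcut) ω
    refine h1.trans ?_
    have hfin : (((d : ℝ) - 1) * ((1 - 1 / 2 ^ (8 * s + 9)) / ((d : ℝ) - 1)) ^
        (G.dist v (T.N0 e).1)) * lam +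
        (1 / ((parS s).K : ℝ)) * ((parS s).M * (if G.dist v e.1 ≤ 2 * (parS s).M + (parS s).J then
        2 * ((d : ℝ) - 1) * ((((parS s).J + 1) * (1 / 2 ^ (8 * s))) ^ 2 *
          (1 / ((d : ℝ) - 1)) ^ (G.dist v e.1)) else 0)) ≤
        (((d : ℝ) - 1) * φ₁ (G.dist v (T.N0 e).1)) * (C₁ / 2 ^ s) +
        ((d : ℝ) - 1) * φ₂ (G.dist v (T.N0 e).1) +
        (1 / ((parS s).K : ℝ)) * (M * (2 * ((d : ℝ) - 1) * (((J + 1) * εh) ^ 2 *
        φ₃ (G.dist v e.1)))) := by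
      refine add_le_add ?_ (le_of_eq ?_)
      · calc (((d : ℝ) - 1) * ((1 - 1 / 2 ^ (8 * s + 9)) / ((d : ℝ) - 1)) ^
            (G.dist v (T.N0 e).1)) * lam
            = ((d : ℝ) - 1) * (y ^ (G.dist v (T.N0 e).1) * lam) := by
              rw [mul_assoc]
          _ ≤ ((d : ℝ) - 1) * (φ₁ (G.dist v (T.N0 e).1) * (C₁ / 2 ^ s) +
              φ₂ (G.dist v (T.N0 e).1)) :=
              mul_le_mul_of_nonneg_left hlam2 (by linarith)
          _ = _ := by ring
      · simp only [hφ₃]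
        congr 1
        by_cases hnear : G.dist v e.1 ≤ 2 * M + J
        · rw [if_pos hnear, if_pos hnear]
        · rw [if_neg hnear, if_neg hnear]; ring
    have h0 : 0 ≤ (((d : ℝ) - 1) * φ₁ (G.dist v (T.N0 e).1)) * (C₁ / 2 ^ s) +
        ((d : ℝ) - 1) * φ₂ (G.dist v (T.N0 e).1) +
        (1 / ((parS s).K : ℝ)) * (M * (2 * ((d : ℝ) - 1) * (((J + 1) * εh) ^ 2 *
        φ₃ (G.dist v e.1)))) := by
      have h1 := hφ₁0 (G.dist v (T.N0 e).1)
      have h2 := hφ₂0 (G.dist v (T.N0 e).1)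
      have h3 := hφ₃0 (G.dist v e.1)
      positivity
    calc ε e * _ ≤ ε e * ((((d : ℝ) - 1) * φ₁ (G.dist v (T.N0 e).1)) * (C₁ / 2 ^ s) +
        ((d : ℝ) - 1) * φ₂ (G.dist v (T.N0 e).1) +
        (1 / ((parS s).K : ℝ)) * (M * (2 * ((d : ℝ) - 1) * (((J + 1) * εh) ^ 2 *
        φ₃ (G.dist v e.1))))) := mul_le_mul_of_nonneg_left hfin (hε e).1
      _ ≤ _ := mul_le_mul_of_nonneg_right (hsc e).2 h0

end F2

end FI
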