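import Pool.Agent.H99.FI.Exp

/-!
# FI, cost of the repairs: branches of a ported tree
-/

set_option autoImplicit false

namespace FI

open Finset Function
open scoped Classical

variable {V : Type*} {G : SimpleGraph V} {d : ℕ}

namespace PT

variable (T : PT G d)

/-- `v` is in the branch beyond the dart `g` -/
def Bey (g : Dart V d) (v : V) : Prop := G.dist v g.1 = G.dist v (T.N0 g).1 + 1

/-- the part of the branch beyond `g` inside the volume `B` -/
noncomputable def Br (B : Finset V) (g : Dart V d) : Finset V := B.filter (fun v => T.Bey g v)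

variable {T}

theorem mem_Br {B : Finset V} {g : Dart V d} {v : V} : v ∈ T.Br B g ↔ v ∈ B ∧ T.Bey g v := by
  simp [Br]

theorem bey_N0 (g : Dart V d) : T.Bey g (T.N0 g).1 := by
  unfold Bey
  rw [SimpleGraph.dist_self, SimpleGraph.dist_eq_one_iff_adj]
  exact (T.adj g).symm

theorem not_bey_self (g : Dart V d) : ¬ T.Bey g g.1 := by
  unfold Bey
  rw [SimpleGraph.dist_self]
  omega

theorem not_bey (hG : G.IsTree) {g : Dart V d} {v : V} (h : ¬ T.Bey g v) :
    G.dist v (T.N0 g).1 = G.dist v g.1 + 1 := by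
  rcases dist_adj hG v (T.adj g) with h' | h'
  · exact absurd h' h
  · exact h'

/-- the two sides of an edge -/
theorem bey_N0_iff (hG : G.IsTree) {g : Dart V d} {v : V} : T.Bey (T.N0 g) v ↔ ¬ T.Bey g v := by
  constructor
  · intro h h'
    unfold Bey at h h'
    rw [T.inv] at h
    omega
  · intro h
    have := not_bey hG h
    unfold Bey
    rw [T.inv]
    exact this

/-- the only edge leaving the branch is `g` itself -/
theorem bey_adj (hG : G.IsTree) {g : Dart V d} {v w : V} (hv : T.Bey g v) (h : G.Adj v w) :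
    T.Bey g w ∨ (v = (T.N0 g).1 ∧ w = g.1) := by
  by_contra hcon
  push Not at hcon
  obtain ⟨hw, hne⟩ := hcon
  have h1 := not_bey hG hw
  unfold Bey at hv
  -- distances
  have h2 : G.dist (T.N0 g).1 v = G.dist (T.N0 g).1 w + 1 ∨
      G.dist (T.N0 g).1 w = G.dist (T.N0 g).1 v + 1 := dist_adj hG _ h
  have h3 : G.dist g.1 v = G.dist g.1 w + 1 ∨ G.dist g.1 w = G.dist g.1 v + 1 :=
    dist_adj hG _ h
  rw [SimpleGraph.dist_comm (u := v), SimpleGraph.dist_comm (u := v)] at hv
  rw [SimpleGraph.dist_comm (u := w), SimpleGraph.dist_comm (u := w)] at h1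
  have h4 : G.dist g.1 v = G.dist g.1 w + 1 := by omega
  have h5 : G.dist (T.N0 g).1 w = G.dist (T.N0 g).1 v + 1 := by omega
  by_cases hvg : v = (T.N0 g).1
  · subst hvg
    rw [SimpleGraph.dist_self] at hv
    have : G.dist g.1 w = 0 := by omega
    rw [hG.connected.dist_eq_zero_iff] at this
    exact hne rfl this.symm
  · obtain ⟨v', hv', hd⟩ := exists_closer hG (T.N0 g).1 hvg
    have h6 : G.dist g.1 v = G.dist g.1 v' + 1 := by
      rcases dist_adj hG g.1 hv' with h6 | h6
      · exact h6
      · exfalso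
        have h7 : G.dist g.1 v' ≤ G.dist g.1 (T.N0 g).1 + G.dist (T.N0 g).1 v' :=
          hG.connected.dist_triangle
        have h8 : G.dist g.1 (T.N0 g).1 = 1 := by
          rw [SimpleGraph.dist_eq_one_iff_adj]; exact T.adj g
        omega
    have := closer_unique hG g.1 h hv' h4 h6
    subst this
    omega

/-- branches beyond two different ports of a vertex are disjoint -/
theorem bey_disj (hG : G.IsTree) {g g' : Dart V d} (h1 : g.1 = g'.1) (hne : g ≠ g') {v : V}
    (hv : T.Bey g v) : ¬ T.Bey g' v := by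
  intro hv'
  unfold Bey at hv hv'
  rw [← h1] at hv'
  have h2 : G.Adj g.1 (T.N0 g').1 := by rw [h1]; exact T.adj g'
  exact hne (T.eq_of_nb h1 (closer_unique hG v (T.adj g) h2 hv hv'))

/-- going on at `f.1` through another port `g` -/
theorem bey_sub (hG : G.IsTree) {f g : Dart V d} (h1 : g.1 = f.1) (hne : g ≠ f) {v : V}
    (hv : T.Bey g v) : T.Bey (T.N0 f) v := by
  rw [bey_N0_iff hG]
  exact bey_disj hG h1 hne hv

theorem bey_N0_self (f : Dart V d) : T.Bey (T.N0 f) f.1 := by
  have := bey_N0 (T := T) (T.N0 f)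
  rwa [T.inv] at this

/-- closed sets which do not contain the vertex beyond `g` are disjoint from the branch -/
theorem Clo.not_bey (hG : G.IsTree) {r : V} {A : Finset V} (hA : Clo G r A) {g : Dart V d}
    (hg : g.1 ∈ A) (hg' : (T.N0 g).1 ∉ A) {v : V} (hv : v ∈ A) : ¬ T.Bey g v := by
  have hr : ¬ T.Bey g r := by
    intro h
    exact hg' (hA.2 _ hg _ (T.adj g) h)
  induction hn : G.dist r v using Nat.strong_induction_on generalizing v with
  | _ n ih =>
    intro hb
    have hvr : v ≠ r := by rintro rfl; exact hr hb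
    obtain ⟨w, hw, hd⟩ := exists_closer hG r hvr
    have hwA := hA.2 v hv w hw hd
    rcases bey_adj hG hb hw with h | ⟨h, _⟩
    · exact ih (G.dist r w) (by omega) hwA rfl h
    · exact hg' (h ▸ hv)

/-- exploring a whole branch -/
theorem Clo.union_Br (hG : G.IsTree) {r : V} {A B : Finset V} (hA : Clo G r A) (hB : Clo G r B)
    {g : Dart V d} (hg : g.1 ∈ A) : Clo G r (A ∪ T.Br B g) := by
  refine ⟨Finset.mem_union_left _ hA.1, fun v hv w hw hd => ?_⟩
  rcases Finset.mem_union.mp hv with hv | hv
  · exact Finset.mem_union_left _ (hA.2 v hv w hw hd)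
  · rw [mem_Br] at hv
    rcases bey_adj hG hv.2 hw with h | ⟨_, h⟩
    · exact Finset.mem_union_right _ (mem_Br.mpr ⟨hB.2 v hv.1 w hw hd, h⟩)
    · rw [h]; exact Finset.mem_union_left _ hg

theorem Br_sub (B : Finset V) (g : Dart V d) : T.Br B g ⊆ B := Finset.filter_subset _ _

end PT

end FI
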