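import Pool.Agent.H99.FI.Windows

/-!
# Definitions for jobs F1, F2 (MP_bdd10f_pr): leftover, cost, scale condition
-/

set_option autoImplicit false

namespace FI

open Finset Function
open scoped Classical

section
variable {V : Type*} {G : SimpleGraph V} {d : ℕ}

/-- leftover probability (as a function of the configuration) -/
noncomputable def PT.lf (T : PT G d) [NeZero d] (P : Par) (B : Finset V) (e : Dart V d)
    (ω : Cfg V d) : ℝ :=
  1 - ((avail P (T.nof B ω.2) ω.1 (Equiv.swap (col ω.1 e) (col ω.1 (T.N0 e)))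
    (third (col ω.1 e) (col ω.1 (T.N0 e))) e).length : ℝ) / P.K

/-- probability (over `ξ`) that the repair at `e` changes the state at `v` -/
noncomputable def PT.chg (T : PT G d) [NeZero d] (P : Par) (B : Finset V) (e : Dart V d) (v : V)
    (ω : Cfg V d) : ℝ :=
  if ω.2 e = false then (1 / (P.K : ℝ)) * ∑ ξ ∈ range P.K,
    (if kern P (T.nof B ω.2) ω.1 ξ e (T.N0 e) v ≠ ω.1 v then (1 : ℝ) else 0) else 0

/-- the scale condition on the cut probabilities -/
def Scale (s : ℕ) (ε : Dart V d → ℝ) : Prop :=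
  ∀ e, 1 / 2 ^ (8 * s + 9) ≤ ε e ∧ ε e ≤ 1 / 2 ^ (8 * s)

end

end FI
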