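import Pool.Agent.H99.FI.Cost.F2Own
import Pool.Agent.H99.FI.Cost.Geo
import Pool.Agent.H99.FI.Cost.Spec

/-!
# Job F2 (MP_bdd10f_pr), part 4: the two parts of the cost of one repair
-/

set_option autoImplicit false

namespace FI

namespace F2

open Finset Function
open scoped Classical

variable {V : Type*} {G : SimpleGraph V} {d : ℕ} {T : PT G d}

theorem third_ne [NeZero d] (hd : 3 ≤ d) (k l : Fin d) : third k l ≠ k ∧ third k l ≠ l := by
  have hex : ∃ b : Fin d, b ≠ k ∧ b ≠ l := by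
    by_contra h
    push Not at h
    have h1 : (Finset.univ : Finset (Fin d)) ⊆ {k, l} := by
      intro b _
      rw [Finset.mem_insert, Finset.mem_singleton]
      by_cases hb : b = k
      · exact Or.inl hb
      · exact Or.inr (h b hb)
    have h2 := Finset.card_le_card h1
    rw [Finset.card_univ, Fintype.card_fin] at h2
    have h3 : ({k, l} : Finset (Fin d)).card ≤ 2 := Finset.card_le_two
    omega
  exact Classical.epsilon_spec hex

theorem lf_nonneg [NeZero d] (P : Par) (B : Finset V) (e : Dart V d) (ω : Cfg V d) :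
    0 ≤ T.lf P B e ω := by
  unfold PT.lf
  have h := avail_length_le P (T.nof B ω.2) ω.1 (Equiv.swap (col ω.1 e) (col ω.1 (T.N0 e)))
    (third (col ω.1 e) (col ω.1 (T.N0 e))) e
  rw [sub_nonneg]
  refine div_le_one_of_le₀ ?_ (by positivity)
  exact_mod_cast h

theorem lf_le_one [NeZero d] (P : Par) (B : Finset V) (e : Dart V d) (ω : Cfg V d) :
    T.lf P B e ω ≤ 1 := by
  unfold PT.lf
  have : (0 : ℝ) ≤ ((avail P (T.nof B ω.2) ω.1 (Equiv.swap (col ω.1 e) (col ω.1 (T.N0 e)))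
    (third (col ω.1 e) (col ω.1 (T.N0 e))) e).length : ℝ) / P.K := by positivity
  linarith

/-- the explored set: both ends of `e`, and everything on the side of `e.1` -/
noncomputable def sideA (T : PT G d) (B : Finset V) (e : Dart V d) : Finset V :=
  {e.1, (T.N0 e).1} ∪ T.Br B (T.N0 e)

theorem mem_sideA {B : Finset V} {e : Dart V d} {z : V} :
    z ∈ sideA T B e ↔ z = e.1 ∨ z = (T.N0 e).1 ∨ (z ∈ B ∧ T.Bey (T.N0 e) z) := by
  unfold sideA
  rw [Finset.mem_union, Finset.mem_insert, Finset.mem_singleton, PT.mem_Br, or_assoc]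

theorem lf_local [NeZero d] (hG : G.IsTree) (P : Par) {B : Finset V} {e : Dart V d}
    (he : e ∈ T.EB B) {ω ω' : Cfg V d} (ho : Off (T.cA B (sideA T B e)) ω ω')
    (hcut : ω.2 e = false) : T.lf P B e ω' = T.lf P B e ω := by
  have hE := T.mem_EB.mp he
  have h1 : e.1 ∈ sideA T B e := mem_sideA.mpr (Or.inl rfl)
  have h2 : (T.N0 e).1 ∈ sideA T B e := mem_sideA.mpr (Or.inr (Or.inl rfl))
  have c1 : col ω'.1 e = col ω.1 e := by unfold col; rw [off_st ho h1]
  have c2 : col ω'.1 (T.N0 e) = col ω.1 (T.N0 e) := by unfold col; rw [off_st ho h2]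
  have hloc : Loc {z | z ∈ B ∧ T.Bey (T.N0 e) z} (T.nof B ω.2) (T.nof B ω'.2) ω.1 ω'.1 := by
    refine ⟨fun f hf => ?_, fun f g hf hg => ?_, fun z hz => ?_⟩
    · have hfA : f.1 ∈ sideA T B e := mem_sideA.mpr (Or.inr (Or.inr hf))
      unfold PT.nof
      by_cases hb : (T.N0 f).1 ∈ B
      · have hfA' : (T.N0 f).1 ∈ sideA T B e := by
          rcases PT.bey_adj hG hf.2 (T.adj f) with h | ⟨_, h⟩
          · exact mem_sideA.mpr (Or.inr (Or.inr ⟨hb, h⟩))
          · rw [h]; exact h2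
        rw [off_edge' ho hfA hfA']
      · rw [if_neg (fun h => hb h.2.1), if_neg (fun h => hb h.2.1)]
    · have hg' := T.nof_some.mp hg
      obtain ⟨g1, g2, g3, g4⟩ := hg'
      subst g4
      rcases PT.bey_adj hG hf.2 (T.adj f) with h | ⟨h, h'⟩
      · exact ⟨g2, h⟩
      · exfalso
        rw [T.inv] at h
        have hfe : f = e := T.eq_of_nb h h'
        subst hfe
        rw [hE.2.1, hcut] at g3
        simp at g3
    · exact (off_st ho (mem_sideA.mpr (Or.inr (Or.inr hz)))).symm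
  have heU : e.1 ∈ {z | z ∈ B ∧ T.Bey (T.N0 e) z} := by
    refine ⟨hE.1, ?_⟩
    have := PT.bey_N0 (T := T) (T.N0 e)
    rwa [T.inv] at this
  unfold PT.lf
  rw [c1, c2, ← hloc.avail P _ _ heU]

theorem pair_clo (hG : G.IsTree) (e : Dart V d) : Clo G e.1 ({e.1, (T.N0 e).1} : Finset V) := by
  rw [Finset.pair_comm]
  exact (Clo.singleton e.1).insert hG (Finset.mem_singleton_self _) (T.adj e).symm

theorem pair_leave (e : Dart V d) {i : Fin d} (hi : i ≠ e.2) :
    Lv T ({e.1, (T.N0 e).1} : Finset V) (e.1, i) := by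
  refine ⟨by simp, ?_⟩
  rw [Finset.mem_insert, Finset.mem_singleton, not_or]
  exact ⟨T.N0_ne _, fun h => hi (T.inj e.1 i e.2 h)⟩

/-- the flipped chain beyond `e` reaches `v` -/
theorem t2_path {ε : Dart V d → ℝ} (hε : WOK ε) (hG : G.IsTree) (hd : 2 ≤ d) {δ : ℝ}
    (hδ : ∀ e, δ ≤ ε e) {B : Finset V} (hB : ∀ r ∈ B, Clo G r B) {e : Dart V d}
    (he : e ∈ T.EB B) (v : V) {ω : Cfg V d} (hne : col ω.1 e ≠ col ω.1 (T.N0 e)) :
    T.EE ε B (sideA T B e) (fun ω' => if onCh (T.nof B ω'.2) ω'.1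
      (Equiv.swap (col ω'.1 e) (col ω'.1 (T.N0 e))) (T.N0 e) v then (1 : ℝ) else 0) ω ≤
      ((d : ℝ) - 1) * ((1 - δ) / ((d : ℝ) - 1)) ^ (G.dist v (T.N0 e).1) := by
  have hd1 : (1 : ℝ) ≤ (d : ℝ) - 1 := by
    have : (2 : ℝ) ≤ d := by exact_mod_cast hd
    linarith
  have hδ1 : 0 ≤ 1 - δ := by linarith [hδ e, (hε e).2]
  have hE := T.mem_EB.mp he
  have h1 : e.1 ∈ sideA T B e := mem_sideA.mpr (Or.inl rfl)
  have h2 : (T.N0 e).1 ∈ sideA T B e := mem_sideA.mpr (Or.inr (Or.inl rfl))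
  have hA : Clo G e.1 (sideA T B e) :=
    PT.Clo.union_Br hG (pair_clo hG e) (hB _ hE.1) (g := T.N0 e) (by simp)
  have hAB : sideA T B e ⊆ B := by
    intro z hz
    rcases mem_sideA.mp hz with rfl | rfl | h
    · exact hE.1
    · exact hE.2.2
    · exact h.1
  have hBr := hB _ hE.1
  by_cases hv : v = (T.N0 e).1
  · refine (EE_le_const hε hG (by omega) hA hBr hAB _ _ 1
      fun ω' _ _ => by split_ifs <;> norm_num).trans ?_
    rw [hv, SimpleGraph.dist_self, pow_zero, mul_one]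
    exact hd1
  set τ := Equiv.swap (col ω.1 e) (col ω.1 (T.N0 e)) with hτ
  set g := dt ω.1 (T.N0 e).1 (col ω.1 e) with hg
  have hcg : col ω.1 g = col ω.1 e := by simp [hg, dt, col]
  have hgN : g ≠ T.N0 e := by
    intro h
    rw [h] at hcg
    exact hne hcg.symm
  have hLv : Lv T (sideA T B e) g := by
    refine ⟨h2, fun h => ?_⟩
    rcases mem_sideA.mp h with h | h | h
    · refine hgN (T.eq_of_nb (by rfl) ?_)
      rw [T.inv]; exact h
    · exact T.N0_ne g h
    · exact PT.bey_disj hG (show g.1 = (T.N0 e).1 from rfl) hgN (PT.bey_N0 g) h.2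
  have hτg : τ (col ω.1 g) ≠ col ω.1 g := by
    rw [hcg, hτ, Equiv.swap_apply_left]; exact hne.symm
  have hred : ∀ ω' : Cfg V d, Off (T.cA B (sideA T B e)) ω ω' →
      onCh (T.nof B ω'.2) ω'.1 (Equiv.swap (col ω'.1 e) (col ω'.1 (T.N0 e))) (T.N0 e) v →
      ∃ c, T.nof B ω'.2 g = some c ∧ onCh (T.nof B ω'.2) ω'.1 τ c v := by
    intro ω' ho hon
    have c1 : col ω'.1 e = col ω.1 e := by unfold col; rw [off_st ho h1]
    have c2 : col ω'.1 (T.N0 e) = col ω.1 (T.N0 e) := by unfold col; rw [off_st ho h2]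
    rw [c1, c2, ← hτ, onCh_iff] at hon
    rcases hon with h | ⟨c, hc, hon⟩
    · exact absurd h.symm hv
    · refine ⟨c, ?_, hon⟩
      unfold nx at hc
      rw [c2, hτ, Equiv.swap_apply_right] at hc
      have : dt ω'.1 (T.N0 e).1 (col ω.1 e) = g := by
        rw [hg]; unfold dt; rw [off_st ho h2]
      rwa [this] at hc
  by_cases hvg : Aw T v g
  · obtain ⟨t, ht⟩ : ∃ t, G.dist v (T.N0 e).1 = t + 1 := by
      refine ⟨G.dist v (T.N0 e).1 - 1, ?_⟩
      have : G.dist v (T.N0 e).1 ≠ 0 := fun h => hv (hG.connected.dist_eq_zero_iff.mp h)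
      omega
    have h3 := t2path hε hG hd hδ hBr v (swap_swap_apply (col ω.1 e) (col ω.1 (T.N0 e))) t
      (sideA T B e) g ω hA hAB hLv hτg hvg (by
        unfold Aw at hvg
        change G.dist v (T.N0 e).1 = _ at hvg
        omega)
    refine le_trans (PT.EE_mono_off B _ hε _ fun ω' ho => ?_) (h3.trans (le_of_eq ?_))
    · by_cases hx : onCh (T.nof B ω'.2) ω'.1 (Equiv.swap (col ω'.1 e) (col ω'.1 (T.N0 e)))
          (T.N0 e) v
      · rw [if_pos hx, if_pos (hred ω' ho hx)]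
      · rw [if_neg hx]; split_ifs <;> norm_num
    · rw [ht, pow_succ]
      have : (d : ℝ) - 1 ≠ 0 := by linarith
      field_simp
  · refine (EE_le_const hε hG (by omega) hA hBr hAB _ _ 0 fun ω' ho hco => ?_).trans
      (by positivity)
    rw [if_neg]
    intro hx
    have hcg' : col ω'.1 g = col ω.1 g := by unfold col; rw [off_st (z := g.1) ho h2]
    exact not_reach hG hA hco (swap_swap_apply (col ω.1 e) (col ω.1 (T.N0 e))) hLv
      (by rw [hcg']; exact hτg) ((Aw_or hG v g).resolve_left hvg) (hred ω' ho hx)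

/-- the flip part of the cost -/
theorem t2_le [NeZero d] {ε : Dart V d → ℝ} (hε : WOK ε) (hG : G.IsTree) (hd : 2 ≤ d) {δ : ℝ}
    (hδ : ∀ e, δ ≤ ε e) {B : Finset V} (hB : ∀ r ∈ B, Clo G r B) (P : Par) {e : Dart V d}
    (he : e ∈ T.EB B) (v : V) {ω : Cfg V d} (hcut : ω.2 e = false)
    (hne : col ω.1 e ≠ col ω.1 (T.N0 e)) {lam : ℝ}
    (hlam : T.EE ε B {e.1, (T.N0 e).1} (T.lf P B e) ω ≤ lam) :
    T.EE ε B {e.1, (T.N0 e).1} (fun ω' => T.lf P B e ω' * (if onCh (T.nof B ω'.2) ω'.1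
      (Equiv.swap (col ω'.1 e) (col ω'.1 (T.N0 e))) (T.N0 e) v then (1 : ℝ) else 0)) ω ≤
      (((d : ℝ) - 1) * ((1 - δ) / ((d : ℝ) - 1)) ^ (G.dist v (T.N0 e).1)) * lam := by
  have hd1 : (1 : ℝ) ≤ (d : ℝ) - 1 := by
    have : (2 : ℝ) ≤ d := by exact_mod_cast hd
    linarith
  have hδ1 : 0 ≤ 1 - δ := by linarith [hδ e, (hε e).2]
  have hE := T.mem_EB.mp he
  have h1 : e.1 ∈ sideA T B e := mem_sideA.mpr (Or.inl rfl)
  have h2 : (T.N0 e).1 ∈ sideA T B e := mem_sideA.mpr (Or.inr (Or.inl rfl))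
  have hA : Clo G e.1 (sideA T B e) :=
    PT.Clo.union_Br hG (pair_clo hG e) (hB _ hE.1) (g := T.N0 e) (by simp)
  have hAB : sideA T B e ⊆ B := by
    intro z hz
    rcases mem_sideA.mp hz with rfl | rfl | h
    · exact hE.1
    · exact hE.2.2
    · exact h.1
  have hBr := hB _ hE.1
  set q := ((d : ℝ) - 1) * ((1 - δ) / ((d : ℝ) - 1)) ^ (G.dist v (T.N0 e).1) with hq
  have hq0 : 0 ≤ q := by positivity
  rw [← PT.EE_tower hG (by omega) ε (pair_clo hG e) hA hBr
    (by unfold sideA; exact Finset.subset_union_left) hAB]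
  refine le_trans (PT.EE_mono_off B _ hε (F' := fun ω' => q * T.lf P B e ω') _
    fun ω' ho => ?_) ?_
  · have hcut' : ω'.2 e = false := by
      have := off_edge' (g := e) ho (by simp) (by simp)
      rw [hE.2.1] at this
      rw [this, hcut]
    have hne' : col ω'.1 e ≠ col ω'.1 (T.N0 e) := by
      have c1 : col ω'.1 e = col ω.1 e := by
        unfold col; rw [off_st (z := e.1) ho (by simp)]
      have c2 : col ω'.1 (T.N0 e) = col ω.1 (T.N0 e) := by
        unfold col; rw [off_st (z := (T.N0 e).1) ho (by simp)]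
      rw [c1, c2]; exact hne
    have h3 := t2_path hε hG hd hδ hB he v (ω := ω') hne'
    calc T.EE ε B (sideA T B e) (fun ω'' => T.lf P B e ω'' * (if onCh (T.nof B ω''.2) ω''.1
          (Equiv.swap (col ω''.1 e) (col ω''.1 (T.N0 e))) (T.N0 e) v then (1 : ℝ) else 0)) ω'
        = T.EE ε B (sideA T B e) (fun ω'' => T.lf P B e ω' * (if onCh (T.nof B ω''.2) ω''.1
          (Equiv.swap (col ω''.1 e) (col ω''.1 (T.N0 e))) (T.N0 e) v
            then (1 : ℝ) else 0)) ω' := by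
          refine PT.EE_congr_cons B _ ε ω' fun ω'' ho' _ => ?_
          rw [lf_local hG P he ho' hcut']
      _ = T.lf P B e ω' * T.EE ε B (sideA T B e) (fun ω'' => (if onCh (T.nof B ω''.2) ω''.1
          (Equiv.swap (col ω''.1 e) (col ω''.1 (T.N0 e))) (T.N0 e) v
            then (1 : ℝ) else 0)) ω' := by
          rw [PT.EE_smul]
      _ ≤ T.lf P B e ω' * q := mul_le_mul_of_nonneg_left h3 (lf_nonneg _ _ _ _)
      _ = q * T.lf P B e ω' := by ring
  · rw [PT.EE_smul]
    exact mul_le_mul_of_nonneg_left hlam hq0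

/-- the exchange part of the cost, one index -/
theorem ex_le [NeZero d] {ε : Dart V d → ℝ} (hε : WOK ε) (hG : G.IsTree) (hd : 3 ≤ d)
    {εh : ℝ} (hεh : ∀ e, ε e ≤ εh) {B : Finset V} (hB : ∀ r ∈ B, Clo G r B) (J n : ℕ)
    {e : Dart V d} (he : e ∈ T.EB B) (v : V) {ω : Cfg V d}
    (hne : col ω.1 e ≠ col ω.1 (T.N0 e)) (hball : ∀ z, G.dist e.1 z ≤ n + J + 1 → z ∈ B) :
    T.EE ε B {e.1, (T.N0 e).1} (fun ω' => if own J (T.nof B ω'.2) ω'.1
      (Equiv.swap (col ω'.1 e) (col ω'.1 (T.N0 e)))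
      (third (col ω'.1 e) (col ω'.1 (T.N0 e))) e n ∧
      SP (T.nof B ω'.2) ω'.1 (Equiv.swap (col ω'.1 e) (col ω'.1 (T.N0 e)))
      (third (col ω'.1 e) (col ω'.1 (T.N0 e))) v e n then (1 : ℝ) else 0) ω ≤
      2 * ((d : ℝ) - 1) * (((J + 1) * εh) ^ 2 * (1 / ((d : ℝ) - 1)) ^ (G.dist v e.1)) := by
  have hd1 : (1 : ℝ) ≤ (d : ℝ) - 1 := by
    have : (3 : ℝ) ≤ d := by exact_mod_cast hd
    linarith
  have hE := T.mem_EB.mp he
  have hAB : ({e.1, (T.N0 e).1} : Finset V) ⊆ B := by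
    intro z hz
    rw [Finset.mem_insert, Finset.mem_singleton] at hz
    rcases hz with rfl | rfl
    · exact hE.1
    · exact hE.2.2
  have hBr := hB _ hE.1
  have hεh0 : 0 ≤ εh := (hε e).1.trans (hεh _)
  set τ := Equiv.swap (col ω.1 e) (col ω.1 (T.N0 e)) with hτ
  set b := third (col ω.1 e) (col ω.1 (T.N0 e)) with hb
  have hb1 := third_ne hd (col ω.1 e) (col ω.1 (T.N0 e))
  have hτe : τ (col ω.1 e) = col ω.1 (T.N0 e) := by rw [hτ, Equiv.swap_apply_left]
  have hcong : ∀ ω' : Cfg V d, Off (T.cA B ({e.1, (T.N0 e).1} : Finset V)) ω ω' →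
      col ω'.1 e = col ω.1 e ∧ col ω'.1 (T.N0 e) = col ω.1 (T.N0 e) := by
    intro ω' ho
    constructor
    · unfold col; rw [off_st (z := e.1) ho (by simp)]
    · unfold col; rw [off_st (z := (T.N0 e).1) ho (by simp)]
  have hq2 : 0 ≤ ((J + 1) * εh) ^ 2 := by positivity
  by_cases hv : v = e.1
  · have h1 := own_le hε hG (by omega) hεh hBr J (swap_swap_apply (col ω.1 e)
      (col ω.1 (T.N0 e))) b n {e.1, (T.N0 e).1} e ω (pair_clo hG e) hAB
      (fun i hi => pair_leave e hi) hball (by rw [← hτ, hτe]; exact hne.symm) hb1.1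
      (by rw [← hτ, hτe]; exact hb1.2) (by simp)
    refine le_trans (PT.EE_mono_off B _ hε _ fun ω' ho => ?_) (h1.trans ?_)
    · obtain ⟨c1, c2⟩ := hcong ω' ho
      rw [c1, c2]
      split_ifs with h2 h3
      · exact le_rfl
      · exact absurd h2.1 h3
      · norm_num
      · exact le_rfl
    · rw [hv, SimpleGraph.dist_self, pow_zero, mul_one]
      nlinarith
  · obtain ⟨t, ht⟩ : ∃ t, G.dist v e.1 = t + 1 := by
      refine ⟨G.dist v e.1 - 1, ?_⟩
      have : G.dist v e.1 ≠ 0 := fun h => hv (hG.connected.dist_eq_zero_iff.mp h)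
      omega
    have h1 := main_le hε hG (by omega) hεh hBr J (swap_swap_apply (col ω.1 e)
      (col ω.1 (T.N0 e))) b v n t {e.1, (T.N0 e).1} e ω (pair_clo hG e) hAB
      (fun i hi => pair_leave e hi) hball (by rw [← hτ, hτe]; exact hne.symm) hb1.1
      (by rw [← hτ, hτe]; exact hb1.2) (by simp) ht
    refine le_trans (PT.EE_mono_off B _ hε _ fun ω' ho => ?_) (h1.trans ?_)
    · obtain ⟨c1, c2⟩ := hcong ω' ho
      rw [c1, c2]
    · have hq : 0 ≤ ((J + 1) * εh) ^ 2 * (1 / ((d : ℝ) - 1)) ^ t := by positivity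
      have e1 : 2 * ((d : ℝ) - 1) * (((J + 1) * εh) ^ 2 * (1 / ((d : ℝ) - 1)) ^ (G.dist v e.1)) =
          2 * (((J + 1) * εh) ^ 2 * (1 / ((d : ℝ) - 1)) ^ t) := by
        have h3 : ((d : ℝ) - 1) * (1 / ((d : ℝ) - 1)) = 1 := by
          have : (d : ℝ) - 1 ≠ 0 := by linarith
          field_simp
        rw [ht, pow_succ (1 / ((d : ℝ) - 1)) t]
        calc _ = 2 * (((J + 1) * εh) ^ 2 * (1 / ((d : ℝ) - 1)) ^ t) *
              (((d : ℝ) - 1) * (1 / ((d : ℝ) - 1))) := by ring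
          _ = _ := by rw [h3, mul_one]
      rw [e1]
      refine mul_le_mul_of_nonneg_right ?_ hq
      split_ifs <;> norm_num

/-! ### range of the exchange -/

theorem dist_step {B : Finset V} {u : Dart V d → Bool} {g c : Dart V d}
    (h : T.nof B u g = some c) : G.dist g.1 c.1 = 1 := by
  have := (T.nof_some.mp h).2.2.2
  subst this
  rw [SimpleGraph.dist_eq_one_iff_adj]
  exact T.adj g

theorem pos_dist (hG : G.IsTree) {B : Finset V} {u : Dart V d → Bool} {x : St V d}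
    {τ : Equiv.Perm (Fin d)} {a : Dart V d} (n : ℕ) {f : Dart V d}
    (hf : pos (T.nof B u) x τ a n = some f) : G.dist a.1 f.1 ≤ n := by
  induction n generalizing f with
  | zero =>
    simp only [pos, Option.some.injEq] at hf
    subst hf
    simp
  | succ n ih =>
    rw [pos, Option.bind_eq_some_iff] at hf
    obtain ⟨f', hf', hf⟩ := hf
    have h1 := ih hf'
    have h2 : G.dist f'.1 f.1 = 1 :=
      dist_step (T := T) (B := B) (u := u) (g := dt x f'.1 (τ (col x f'))) hf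
    have h3 := hG.connected.dist_triangle (u := a.1) (v := f'.1) (w := f.1)
    omega

theorem pos_none_mono {N : Adj V d} {x : St V d} {τ : Equiv.Perm (Fin d)} {a : Dart V d}
    {m n : ℕ} (h : m ≤ n) (hm : pos N x τ a m = none) : pos N x τ a n = none := by
  induction n, h using Nat.le_induction with
  | base => exact hm
  | succ n _ ih => rw [pos, ih]; rfl

theorem side_dist (hG : G.IsTree) {B : Finset V} {u : Dart V d → Bool} {x : St V d}
    {τ : Equiv.Perm (Fin d)} {g : Dart V d} {J : ℕ} (h : sideOK J (T.nof B u) x τ g) {v : V}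
    (hv : ∃ c, T.nof B u g = some c ∧ onCh (T.nof B u) x τ c v) : G.dist g.1 v ≤ J := by
  obtain ⟨c, hc, n, f, hf, rfl⟩ := hv
  have h1 := h c hc
  have h2 : n < J := by
    by_contra hn
    rw [pos_none_mono (not_lt.mp hn) h1] at hf
    simp at hf
  have h3 := pos_dist hG n hf
  have h4 := dist_step hc
  have h5 := hG.connected.dist_triangle (u := g.1) (v := c.1) (w := f.1)
  omega

theorem own_SP_dist (hG : G.IsTree) {B : Finset V} {u : Dart V d → Bool} {x : St V d}
    {τ : Equiv.Perm (Fin d)} {b : Fin d} {a : Dart V d} {J n : ℕ} {v : V}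
    (h : own J (T.nof B u) x τ b a n) (h' : SP (T.nof B u) x τ b v a n) :
    G.dist v a.1 ≤ n + J := by
  obtain ⟨f, hf, hs1, hs2⟩ := h
  obtain ⟨f', hf', h'⟩ := h'
  rw [hf] at hf'
  simp only [Option.some.injEq] at hf'
  subst hf'
  rw [SimpleGraph.dist_comm]
  have h1 := pos_dist hG n hf
  rcases h' with rfl | ⟨i, g, hi, hg, rfl⟩ | h' | h'
  · omega
  · have := pos_dist hG i hg
    omega
  · have h2 : G.dist f.1 v ≤ J := side_dist hG hs1 h'
    have h5 := hG.connected.dist_triangle (u := a.1) (v := f.1) (w := v)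
    omega
  · have h2 : G.dist f.1 v ≤ J := side_dist hG hs2 h'
    have h5 := hG.connected.dist_triangle (u := a.1) (v := f.1) (w := v)
    omega

end F2

end FI
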