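import Pool.Agent.H99.FI.Cost.Walk
import Pool.Agent.H99.FI.Cost.Spec

/-!
# FI, cost of the repairs: the expected leftover (job F1)
-/

set_option autoImplicit false

namespace FI

open Finset Function
open scoped Classical

variable {V : Type*} {G : SimpleGraph V} {d : ℕ}

theorem third_ne [NeZero d] (hd : 3 ≤ d) (k l : Fin d) : third k l ≠ k ∧ third k l ≠ l := by
  unfold third
  apply Classical.epsilon_spec (p := fun b : Fin d => b ≠ k ∧ b ≠ l)
  have : (({k, l} : Finset (Fin d))).card < (Finset.univ : Finset (Fin d)).card := by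
    rw [Finset.card_univ, Fintype.card_fin]
    exact lt_of_le_of_lt Finset.card_le_two (by omega)
  obtain ⟨b, _, hb⟩ := Finset.exists_mem_notMem_of_card_lt_card this
  simp only [Finset.mem_insert, Finset.mem_singleton, not_or] at hb
  exact ⟨b, hb⟩

namespace PT

variable {T : PT G d}

/-! ### the main chain in a consistent configuration -/

section chain

variable {B : Finset V} {ω : Cfg V d} {k l : Fin d} {a : Dart V d}

theorem chain_col (hc : Cons (T.nof B ω.2) ω.1) (ha : col ω.1 a = k) (n : ℕ) {f : Dart V d}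
    (h : pos (T.nof B ω.2) ω.1 (Equiv.swap k l) a n = some f) :
    col ω.1 f = if n % 2 = 0 then k else l := by
  induction n generalizing f with
  | zero =>
    simp only [pos, Option.some.injEq] at h
    rw [← h]; simp [ha]
  | succ n ih =>
    rw [pos, Option.bind_eq_some_iff] at h
    obtain ⟨f', hf', hn⟩ := h
    have h1 := hc _ _ hn
    rw [← h1]
    have h2 : col ω.1 (dt ω.1 f'.1 (Equiv.swap k l (col ω.1 f'))) =
        Equiv.swap k l (col ω.1 f') := by simp [col, dt]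
    rw [h2, ih hf']
    rcases Nat.mod_two_eq_zero_or_one n with h3 | h3
    · have : (n + 1) % 2 = 1 := by omega
      rw [h3, this]; simp
    · have : (n + 1) % 2 = 0 := by omega
      rw [h3, this]; simp

theorem chain_ne (hkl : k ≠ l) (hc : Cons (T.nof B ω.2) ω.1) (ha : col ω.1 a = k) (n : ℕ)
    {f : Dart V d} (h : pos (T.nof B ω.2) ω.1 (Equiv.swap k l) a n = some f) :
    Equiv.swap k l (col ω.1 f) ≠ col ω.1 f := by
  rw [chain_col hc ha n h]
  split_ifs
  · rw [Equiv.swap_apply_left]; exact hkl.symm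
  · rw [Equiv.swap_apply_right]; exact hkl

theorem chain_succ (hG : G.IsTree) (hkl : k ≠ l) (hc : Cons (T.nof B ω.2) ω.1)
    (ha : col ω.1 a = k) (n : ℕ) {f f' : Dart V d}
    (h : pos (T.nof B ω.2) ω.1 (Equiv.swap k l) a n = some f)
    (h' : pos (T.nof B ω.2) ω.1 (Equiv.swap k l) a (n + 1) = some f') :
    T.N0 f' = dt ω.1 f.1 (Equiv.swap k l (col ω.1 f)) ∧
      (∀ v, T.Bey (T.N0 f') v → T.Bey (T.N0 f) v) ∧ ¬ T.Bey (T.N0 f') f.1 := by
  rw [pos, h, Option.bind_some, nx, T.nof_some] at h'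
  have h1 : T.N0 f' = dt ω.1 f.1 (Equiv.swap k l (col ω.1 f)) := by
    rw [← h'.2.2.2, T.inv]
  have hne : dt ω.1 f.1 (Equiv.swap k l (col ω.1 f)) ≠ f := by
    intro he
    have h2 : col ω.1 (dt ω.1 f.1 (Equiv.swap k l (col ω.1 f))) =
        Equiv.swap k l (col ω.1 f) := by simp [col, dt]
    rw [he] at h2
    exact chain_ne hkl hc ha n h h2.symm
  refine ⟨h1, fun v hv => ?_, ?_⟩
  · rw [h1] at hv
    exact bey_sub (f := f) (g := dt ω.1 f.1 (Equiv.swap k l (col ω.1 f))) hG rfl hne hv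
  · rw [h1]
    exact not_bey_self _

theorem chain_le (hG : G.IsTree) (hkl : k ≠ l) (hc : Cons (T.nof B ω.2) ω.1)
    (ha : col ω.1 a = k) (n m : ℕ) {f g : Dart V d}
    (h : pos (T.nof B ω.2) ω.1 (Equiv.swap k l) a n = some f)
    (h' : pos (T.nof B ω.2) ω.1 (Equiv.swap k l) a (n + m) = some g) :
    (∀ v, T.Bey (T.N0 g) v → T.Bey (T.N0 f) v) ∧ (0 < m → ¬ T.Bey (T.N0 g) f.1) := by
  induction m generalizing g with
  | zero =>
    rw [Nat.add_zero, h, Option.some.injEq] at h'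
    subst h'
    exact ⟨fun _ h => h, fun h => absurd h (lt_irrefl _)⟩
  | succ m ih =>
    have h0 := h'
    rw [← Nat.add_assoc, pos, Option.bind_eq_some_iff] at h'
    obtain ⟨f', hf', _⟩ := h'
    have h1 := ih hf'
    have h2 := chain_succ hG hkl hc ha (n + m) hf' h0
    refine ⟨fun v hv => h1.1 v (h2.2.1 v hv), fun _ hb => ?_⟩
    rcases Nat.eq_zero_or_pos m with rfl | hm
    · rw [Nat.add_zero, h, Option.some.injEq] at hf'
      subst hf'
      exact h2.2.2 hb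
    · exact h1.2 hm (h2.2.1 _ hb)

theorem pos_before {N : Adj V d} {x : St V d} {τ : Equiv.Perm (Fin d)} {a g : Dart V d} (n m : ℕ)
    (h : pos N x τ a (n + m) = some g) : ∃ f, pos N x τ a n = some f := by
  induction m generalizing g with
  | zero => exact ⟨g, h⟩
  | succ m ih =>
    rw [← Nat.add_assoc, pos, Option.bind_eq_some_iff] at h
    obtain ⟨f', hf', _⟩ := h
    exact ih hf'

/-- branches leaving the main chain do not meet it -/
theorem off_chain (hG : G.IsTree) (hkl : k ≠ l) (hc : Cons (T.nof B ω.2) ω.1)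
    (ha : col ω.1 a = k) (n : ℕ) {f h : Dart V d}
    (hf : pos (T.nof B ω.2) ω.1 (Equiv.swap k l) a n = some f) (h1 : h.1 = f.1) (h2 : h ≠ f)
    (h3 : h ≠ dt ω.1 f.1 (Equiv.swap k l (col ω.1 f))) {v : V} (hv : T.Bey h v) :
    ¬ onCh (T.nof B ω.2) ω.1 (Equiv.swap k l) a v := by
  rintro ⟨i, g, hg, rfl⟩
  rcases lt_trichotomy i n with hi | hi | hi
  · obtain ⟨m, rfl⟩ := Nat.exists_eq_add_of_lt hi
    have := (chain_le hG hkl hc ha i (m + 1) hg (by rw [← Nat.add_assoc]; exact hf)).2 (by omega)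
    exact this (bey_sub hG h1 h2 hv)
  · subst hi
    rw [hf, Option.some.injEq] at hg
    subst hg
    rw [← h1] at hv
    exact not_bey_self _ hv
  · obtain ⟨m, rfl⟩ := Nat.exists_eq_add_of_lt hi
    have hg' : pos (T.nof B ω.2) ω.1 (Equiv.swap k l) a (n + 1 + m) = some g := by
      rw [Nat.add_right_comm]; exact hg
    obtain ⟨f', hf'⟩ := pos_before (n + 1) m hg'
    have h4 := chain_succ hG hkl hc ha n hf hf'
    have h5 := (chain_le hG hkl hc ha (n + 1) m hf' hg').1 _ (bey_N0_self g)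
    rw [h4.1] at h5
    exact bey_disj hG (g := h) (g' := dt ω.1 f.1 (Equiv.swap k l (col ω.1 f))) h1 h3 hv h5

/-- the flipped state has the same main chain -/
theorem pos_flip (n : ℕ) {N : Adj V d} {x : St V d} :
    pos N (flip N x (Equiv.swap k l) a) (Equiv.swap k l) a n =
      pos N x (Equiv.swap k l) a n := by
  induction n with
  | zero => rfl
  | succ n ih =>
    rw [pos, pos, ih]
    cases h : pos N x (Equiv.swap k l) a n with
    | none => rfl
    | some f =>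
      simp only [Option.bind_some, nx]
      have hon : onCh N x (Equiv.swap k l) a f.1 := ⟨n, f, h, rfl⟩
      congr 1
      have e1 : flip N x (Equiv.swap k l) a f.1 = Equiv.swap k l * x f.1 := by
        unfold flip; rw [if_pos hon]
      unfold dt col
      rw [e1]
      simp [Equiv.Perm.mul_def]

theorem flip_on {N : Adj V d} {x : St V d} (n : ℕ) {f : Dart V d}
    (h : pos N x (Equiv.swap k l) a n = some f) :
    flip N x (Equiv.swap k l) a f.1 = Equiv.swap k l * x f.1 := by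
  unfold flip
  rw [if_pos ⟨n, f, h, rfl⟩]

theorem flip_off {N : Adj V d} {x : St V d} {v : V} (h : ¬ onCh N x (Equiv.swap k l) a v) :
    flip N x (Equiv.swap k l) a v = x v := by
  unfold flip
  rw [if_neg h]

end chain

/-! ### availability along the main chain -/

section own

variable {B : Finset V} {ω : Cfg V d} {k l b : Fin d} {a : Dart V d}

/-- current state -/
theorem own_iff (hG : G.IsTree) (hbk : b ≠ k) (hbl : b ≠ l)
    (hc : Cons (T.nof B ω.2) ω.1) (ha : col ω.1 a = k) (J j : ℕ) {f : Dart V d}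
    (hf : pos (T.nof B ω.2) ω.1 (Equiv.swap k l) a (2 * j) = some f)
    (hN : T.nof B ω.2 (dt ω.1 f.1 l) ≠ none) :
    own (J + 1) (T.nof B ω.2) ω.1 (Equiv.swap k l) b a (2 * j) ↔ T.Zp B J l b k l f ω := by
  have hcf : col ω.1 f = k := by
    rw [chain_col hc ha _ hf]; simp
  have e1 : Equiv.swap k l (col ω.1 f) = l := by rw [hcf, Equiv.swap_apply_left]
  have h1 : sideOK (J + 1) (T.nof B ω.2) ω.1 (Equiv.swap l b) (dt ω.1 f.1 l) ↔
      T.sd B J (dt ω.1 (T.N0 (dt ω.1 f.1 l)).1 b) b l ω := by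
    rw [sideOK_iff hG hc (J + 1) hbl.symm (fun _ _ => rfl) (by simp [col, dt]), sd]
    constructor
    · rintro (h | h)
      · exact absurd h hN
      · exact h.2
    · intro h
      refine Or.inr ⟨fun he => ?_, h⟩
      cases h' : T.nof B ω.2 (dt ω.1 f.1 l) with
      | none => exact hN h'
      | some f' =>
        have h2 := hc _ _ h'
        have h3 := (T.nof_some.mp h').2.2.2
        rw [← h3, ← he] at h2
        simp [col, dt] at h2
        exact hbl h2.symm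
  have h2 : sideOK (J + 1) (T.nof B ω.2) ω.1 (Equiv.swap b k) (dt ω.1 f.1 b) ↔
      T.sd B (J + 1) (dt ω.1 f.1 b) b k ω :=
    sideOK_iff hG hc (J + 1) hbk (fun _ _ => rfl) (by simp [col, dt])
  unfold own Zp
  constructor
  · rintro ⟨f', hf', ha1, ha2⟩
    rw [hf, Option.some.injEq] at hf'
    subst hf'
    rw [e1] at ha1
    rw [hcf] at ha2
    exact ⟨h2.mp ha2, h1.mp ha1⟩
  · rintro ⟨ha1, ha2⟩
    refine ⟨f, hf, ?_, ?_⟩
    · rw [e1]; exact h1.mpr ha2
    · rw [hcf]; exact h2.mpr ha1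

/-- flipped state -/
theorem own_flip_iff (hG : G.IsTree) (hkl : k ≠ l) (hbk : b ≠ k) (hbl : b ≠ l)
    (hc : Cons (T.nof B ω.2) ω.1) (ha : col ω.1 a = k) (J j : ℕ) {f : Dart V d}
    (hf : pos (T.nof B ω.2) ω.1 (Equiv.swap k l) a (2 * j) = some f)
    (hN : T.nof B ω.2 (dt ω.1 f.1 l) ≠ none) :
    own (J + 1) (T.nof B ω.2) (flip (T.nof B ω.2) ω.1 (Equiv.swap k l) a)
      (Equiv.swap k l) b a (2 * j) ↔ T.Zp B J l b l k f ω := by
  set x' := flip (T.nof B ω.2) ω.1 (Equiv.swap k l) a with hx'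
  have hcf : col ω.1 f = k := by
    rw [chain_col hc ha _ hf]; simp
  have e0 : x' f.1 = Equiv.swap k l * ω.1 f.1 := flip_on _ hf
  have hcf' : col x' f = l := by
    have : ω.1 f.1 f.2 = k := hcf
    unfold col
    rw [e0, Equiv.Perm.mul_apply, this, Equiv.swap_apply_left]
  have e1 : Equiv.swap k l (col x' f) = k := by rw [hcf', Equiv.swap_apply_right]
  have e2 : dt x' f.1 k = dt ω.1 f.1 l := by
    unfold dt
    rw [e0]
    simp [Equiv.Perm.mul_def]
  have e3 : dt x' f.1 b = dt ω.1 f.1 b := by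
    unfold dt
    rw [e0]
    simp [Equiv.Perm.mul_def, Equiv.swap_apply_of_ne_of_ne hbk hbl]
  -- the next vertex
  obtain ⟨f', hf'⟩ := Option.ne_none_iff_exists'.mp hN
  have hN0 : f' = T.N0 (dt ω.1 f.1 l) := ((T.nof_some.mp hf').2.2.2).symm
  have hpos' : pos (T.nof B ω.2) ω.1 (Equiv.swap k l) a (2 * j + 1) = some f' := by
    rw [pos, hf, Option.bind_some, nx, hcf, Equiv.swap_apply_left]
    exact hf'
  have hcf1 : col ω.1 f' = l := by
    rw [chain_col hc ha _ hpos', if_neg (by omega)]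
  have e4 : x' f'.1 = Equiv.swap k l * ω.1 f'.1 := flip_on _ hpos'
  have hcf1' : col x' f' = k := by
    have : ω.1 f'.1 f'.2 = l := hcf1
    unfold col
    rw [e4, Equiv.Perm.mul_apply, this, Equiv.swap_apply_right]
  have e5 : dt x' f'.1 b = dt ω.1 f'.1 b := by
    unfold dt
    rw [e4]
    simp [Equiv.Perm.mul_def, Equiv.swap_apply_of_ne_of_ne hbk hbl]
  -- branches off the main chain
  have hne1 : dt ω.1 f.1 b ≠ f := by
    intro h
    have : col ω.1 (dt ω.1 f.1 b) = b := by simp [col, dt]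
    rw [h, hcf] at this
    exact hbk this.symm
  have hne2 : dt ω.1 f.1 b ≠ dt ω.1 f.1 (Equiv.swap k l (col ω.1 f)) := by
    intro h
    have h1 : col ω.1 (dt ω.1 f.1 b) = b := by simp [col, dt]
    rw [h, hcf, Equiv.swap_apply_left] at h1
    simp [col, dt] at h1
    exact hbl h1.symm
  have hne3 : dt ω.1 f'.1 b ≠ f' := by
    intro h
    have : col ω.1 (dt ω.1 f'.1 b) = b := by simp [col, dt]
    rw [h, hcf1] at this
    exact hbl this.symm
  have hne4 : dt ω.1 f'.1 b ≠ dt ω.1 f'.1 (Equiv.swap k l (col ω.1 f')) := by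
    intro h
    have h1 : col ω.1 (dt ω.1 f'.1 b) = b := by simp [col, dt]
    rw [h, hcf1, Equiv.swap_apply_right] at h1
    simp [col, dt] at h1
    exact hbk h1.symm
  have hag1 : ∀ v, T.Bey (dt ω.1 f.1 b) v → x' v = ω.1 v := fun v hv =>
    flip_off (off_chain (h := dt ω.1 f.1 b) hG hkl hc ha _ hf rfl hne1 hne2 hv)
  have hag2 : ∀ v, T.Bey (dt ω.1 f'.1 b) v → x' v = ω.1 v := fun v hv =>
    flip_off (off_chain (h := dt ω.1 f'.1 b) hG hkl hc ha _ hpos' rfl hne3 hne4 hv)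
  have h2 : sideOK (J + 1) (T.nof B ω.2) x' (Equiv.swap b l) (dt ω.1 f.1 b) ↔
      T.sd B (J + 1) (dt ω.1 f.1 b) b l ω :=
    sideOK_iff hG hc (J + 1) hbl hag1 (by simp [col, dt])
  have h3 : sideOK J (T.nof B ω.2) x' (Equiv.swap b k) (dt ω.1 f'.1 b) ↔
      T.sd B J (dt ω.1 f'.1 b) b k ω :=
    sideOK_iff hG hc J hbk hag2 (by simp [col, dt])
  have h1 : sideOK (J + 1) (T.nof B ω.2) x' (Equiv.swap k b) (dt ω.1 f.1 l) ↔
      T.sd B J (dt ω.1 (T.N0 (dt ω.1 f.1 l)).1 b) b k ω := by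
    rw [← hN0, ← h3]
    have e6 : nx (T.nof B ω.2) x' (Equiv.swap k b) f' = T.nof B ω.2 (dt ω.1 f'.1 b) := by
      unfold nx
      rw [hcf1', Equiv.swap_apply_left, e5]
    constructor
    · intro h g hg
      have := h f' hf'
      rw [pos_succ', e6, hg] at this
      rw [Equiv.swap_comm]
      simpa using this
    · intro h g hg
      rw [hf', Option.some.injEq] at hg
      subst hg
      rw [pos_succ', e6]
      cases h4 : T.nof B ω.2 (dt ω.1 f'.1 b) with
      | none => simp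
      | some g =>
        have := h g h4
        rw [Equiv.swap_comm] at this
        simpa using this
  unfold own Zp
  constructor
  · rintro ⟨g, hg, ha1, ha2⟩
    rw [hx', pos_flip, hf, Option.some.injEq] at hg
    subst hg
    rw [e1, e2] at ha1
    rw [hcf', e3] at ha2
    exact ⟨h2.mp ha2, h1.mp ha1⟩
  · rintro ⟨ha1, ha2⟩
    refine ⟨f, ?_, ?_, ?_⟩
    · rw [hx', pos_flip, hf]
    · rw [e1, e2]; exact h1.mpr ha2
    · rw [hcf', e3]; exact h2.mpr ha1

end own

/-! ### the leftover is bounded by the walk -/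

section left

variable {B : Finset V} {ω : Cfg V d} {k l b : Fin d} {a : Dart V d}

theorem cntOwn_succ (J : ℕ) (N : Adj V d) (x : St V d) (τ : Equiv.Perm (Fin d))
    (b : Fin d) (a : Dart V d) (j : ℕ) :
    cntOwn J N x τ b a (j + 1) = cntOwn J N x τ b a j +
      if own J N x τ b a (2 * j) then 1 else 0 := by
  unfold cntOwn
  rw [Finset.range_add_one, Finset.filter_insert]
  split_ifs with h
  · rw [Finset.card_insert_of_notMem (by simp)]
  · rfl

/-- number of selectable indices in `[i, i + m)` -/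
noncomputable def nSel (P : Par) (N : Adj V d) (x : St V d) (τ : Equiv.Perm (Fin d))
    (b : Fin d) (a : Dart V d) (i m : ℕ) : ℕ :=
  ∑ t ∈ range m, if sel P N x τ b a (i + t) then 1 else 0

theorem nSel_succ (P : Par) (N : Adj V d) (x : St V d) (τ : Equiv.Perm (Fin d))
    (b : Fin d) (a : Dart V d) (i m : ℕ) :
    nSel P N x τ b a i (m + 1) = (if sel P N x τ b a i then 1 else 0) +
      nSel P N x τ b a (i + 1) m := by
  unfold nSel
  rw [Finset.sum_range_succ', add_comm]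
  congr 1
  refine Finset.sum_congr rfl fun t _ => ?_
  rw [show i + (t + 1) = i + 1 + t by ring]

theorem avail_length (P : Par) (N : Adj V d) (x : St V d) (τ : Equiv.Perm (Fin d))
    (b : Fin d) (a : Dart V d) : (avail P N x τ b a).length = nSel P N x τ b a 0 P.M := by
  unfold avail nSel
  rw [← List.countP_eq_length_filter]
  have := Nat.count_eq_card_filter_range (fun j => sel P N x τ b a j) P.M
  unfold Nat.count at this
  simp only [Nat.zero_add]
  rw [Finset.sum_boole, Nat.cast_id, ← this]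

theorem left_le (hG : G.IsTree) (hkl : k ≠ l) (hbk : b ≠ k) (hbl : b ≠ l)
    (hc : Cons (T.nof B ω.2) ω.1) (ha : col ω.1 a = k) (K M J m i : ℕ) {f : Dart V d}
    (hf : pos (T.nof B ω.2) ω.1 (Equiv.swap k l) a (2 * i) = some f) :
    (K : ℝ) - cntOwn (J + 1) (T.nof B ω.2) ω.1 (Equiv.swap k l) b a i -
      nSel ⟨K, M, J + 1⟩ (T.nof B ω.2) ω.1 (Equiv.swap k l) b a i m ≤
    T.Qw B K J k l b m (cntOwn (J + 1) (T.nof B ω.2) ω.1 (Equiv.swap k l) b a i)
      (cntOth (J + 1) (T.nof B ω.2) ω.1 (Equiv.swap k l) b a i) f ω := by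
  induction m generalizing i f with
  | zero =>
    unfold Qw nSel
    simp
  | succ m ih =>
    have hn : (0 : ℝ) ≤ nSel ⟨K, M, J + 1⟩ (T.nof B ω.2) ω.1 (Equiv.swap k l) b a i (m + 1) := by
      positivity
    have hp : (0 : ℝ) ≤ cntOwn (J + 1) (T.nof B ω.2) ω.1 (Equiv.swap k l) b a i := by positivity
    unfold Qw
    by_cases h1 : K ≤ cntOwn (J + 1) (T.nof B ω.2) ω.1 (Equiv.swap k l) b a i ∨
      K ≤ cntOth (J + 1) (T.nof B ω.2) ω.1 (Equiv.swap k l) b a i
    · rw [if_pos h1]; linarith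
    rw [if_neg h1]
    by_cases h2 : T.nof B ω.2 (dt ω.1 f.1 l) = none
    · rw [if_pos h2]; linarith
    rw [if_neg h2]
    by_cases h3 : T.nof B ω.2 (dt ω.1 (T.N0 (dt ω.1 f.1 l)).1 k) = none
    · rw [if_pos h3]; linarith
    rw [if_neg h3]
    · have e1 := own_iff hG hbk hbl hc ha J i hf h2
      have e2 := own_flip_iff hG hkl hbk hbl hc ha J i hf h2
      have hcf : col ω.1 f = k := by
        rw [chain_col hc ha _ hf]; simp
      obtain ⟨f', hf'⟩ := Option.ne_none_iff_exists'.mp h2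
      have hN0 : f' = T.N0 (dt ω.1 f.1 l) := ((T.nof_some.mp hf').2.2.2).symm
      have hpos' : pos (T.nof B ω.2) ω.1 (Equiv.swap k l) a (2 * i + 1) = some f' := by
        rw [pos, hf, Option.bind_some, nx, hcf, Equiv.swap_apply_left]
        exact hf'
      have hcf1 : col ω.1 f' = l := by
        rw [chain_col hc ha _ hpos', if_neg (by omega)]
      rw [← hN0] at h3
      obtain ⟨f'', hf''⟩ := Option.ne_none_iff_exists'.mp h3
      have hN1 : f'' = T.N0 (dt ω.1 f'.1 k) := ((T.nof_some.mp hf'').2.2.2).symm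
      have hpos'' : pos (T.nof B ω.2) ω.1 (Equiv.swap k l) a (2 * (i + 1)) = some f'' := by
        rw [show 2 * (i + 1) = (2 * i + 1) + 1 by ring, pos, hpos', Option.bind_some, nx, hcf1,
          Equiv.swap_apply_right]
        exact hf''
      have key := ih (i + 1) hpos''
      have c1 : cntOwn (J + 1) (T.nof B ω.2) ω.1 (Equiv.swap k l) b a (i + 1) =
          cntOwn (J + 1) (T.nof B ω.2) ω.1 (Equiv.swap k l) b a i +
          if T.Zp B J l b k l f ω then 1 else 0 := by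
        rw [cntOwn_succ]
        simp only [e1]
      have c2 : cntOth (J + 1) (T.nof B ω.2) ω.1 (Equiv.swap k l) b a (i + 1) =
          cntOth (J + 1) (T.nof B ω.2) ω.1 (Equiv.swap k l) b a i +
          if T.Zp B J l b l k f ω then 1 else 0 := by
        unfold cntOth
        rw [cntOwn_succ]
        simp only [e2]
      have hsel : sel ⟨K, M, J + 1⟩ (T.nof B ω.2) ω.1 (Equiv.swap k l) b a i ↔
          T.Zp B J l b k l f ω := by
        unfold sel
        simp only [not_or, not_le] at h1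
        rw [← e1]
        exact ⟨fun h => h.1, fun h => ⟨h, h1.1, h1.2⟩⟩
      have c3 : nSel ⟨K, M, J + 1⟩ (T.nof B ω.2) ω.1 (Equiv.swap k l) b a i (m + 1) =
          (if T.Zp B J l b k l f ω then 1 else 0) +
          nSel ⟨K, M, J + 1⟩ (T.nof B ω.2) ω.1 (Equiv.swap k l) b a (i + 1) m := by
        rw [nSel_succ]
        simp only [hsel]
      rw [← hN0, ← hN1, ← c1, ← c2]
      refine le_trans (le_of_eq ?_) key
      rw [c3, c1]
      push_cast
      ring

end left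

/-- the configurations seen from a cut edge are consistent -/
theorem cons_of {B : Finset V} {e : Dart V d} (he : e ∈ T.EB B) {ω ω' : Cfg V d}
    (hcut : ω.2 e = false) (ho : Off (T.cA B {e.1, (T.N0 e).1}) ω ω')
    (hcons : ∀ e' ∈ T.EB B, e' ∉ T.EB {e.1, (T.N0 e).1} → ω'.2 e' = true →
      col ω'.1 e' = col ω'.1 (T.N0 e')) : Cons (T.nof B ω'.2) ω'.1 := by
  intro a b hab
  rw [T.nof_some] at hab
  obtain ⟨h1, h2, h3, rfl⟩ := hab
  have h4 := T.cd_mem_EB h1 h2
  have heA : e ∈ T.EB {e.1, (T.N0 e).1} := by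
    rw [T.mem_EB] at he ⊢
    exact ⟨by simp, he.2.1, by simp⟩
  by_cases h5 : T.cd a ∈ T.EB {e.1, (T.N0 e).1}
  · exfalso
    have h6 : T.cd a = e := by
      rw [T.mem_EB] at h5
      obtain ⟨g1, g2, g3⟩ := h5
      simp only [Finset.mem_insert, Finset.mem_singleton] at g1 g3
      rcases g1 with g1 | g1 <;> rcases g3 with g3 | g3
      · exact absurd (g3.trans g1.symm) (T.N0_ne _)
      · exact T.eq_of_nb g1 g3
      · have : T.cd a = T.N0 e := T.eq_of_nb g1 (by rw [T.inv]; exact g3)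
        rw [T.mem_EB] at he
        rw [← g2, this, T.cd_N0, he.2.1]
      · exact absurd (g3.trans g1.symm) (T.N0_ne _)
    rw [h6, ho.2 e (by rw [mem_cA_inr]; exact fun h => h.2 heA), hcut] at h3
    exact absurd h3 (by simp)
  · have h6 := hcons _ h4 h5 h3
    rcases T.cd_cases a with h | h
    · rw [h] at h6; exact h6
    · rw [h, T.inv] at h6; exact h6.symm

/-- the leftover is bounded by the value of the walk -/
theorem EE_lf_le [NeZero d] (hG : G.IsTree) (hd : 3 ≤ d) {B : Finset V}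
    {ε : Dart V d → ℝ} (hε : WOK ε) {e : Dart V d} (he : e ∈ T.EB B) {K M J : ℕ} (hK : 0 < K)
    {ω : Cfg V d} (hcut : ω.2 e = false) (hne : col ω.1 e ≠ col ω.1 (T.N0 e)) :
    T.EE ε B {e.1, (T.N0 e).1} (T.lf ⟨K, M, J + 1⟩ B e) ω ≤
      (1 / (K : ℝ)) * T.EE ε B {e.1, (T.N0 e).1}
        (T.Qw B K J (col ω.1 e) (col ω.1 (T.N0 e)) (third (col ω.1 e) (col ω.1 (T.N0 e)))
          M 0 0 e) ω := by
  have h1 := congrFun (EE_smul (T := T) (ε := ε) B {e.1, (T.N0 e).1} (1 / (K : ℝ))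
    (T.Qw B K J (col ω.1 e) (col ω.1 (T.N0 e)) (third (col ω.1 e) (col ω.1 (T.N0 e)))
          M 0 0 e)) ω
  rw [← h1]
  refine EE_mono_cons B {e.1, (T.N0 e).1} hε ω fun ω' ho hcons => ?_
  have hc := cons_of he hcut ho hcons
  have e1 : col ω'.1 e = col ω.1 e := by
    unfold col
    rw [ho.1 _ (by rw [mem_cA_inl]; simp)]
  have e2 : col ω'.1 (T.N0 e) = col ω.1 (T.N0 e) := by
    unfold col
    rw [ho.1 _ (by rw [mem_cA_inl]; simp)]
  obtain ⟨hb1, hb2⟩ := third_ne hd (col ω.1 e) (col ω.1 (T.N0 e))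
  have hKr : (0 : ℝ) < K := by exact_mod_cast hK
  have key := left_le (T := T) hG hne hb1 hb2 hc e1 K M J M 0 (f := e) rfl
  unfold lf
  rw [e1, e2, avail_length]
  have c0 : cntOwn (J + 1) (T.nof B ω'.2) ω'.1 (Equiv.swap (col ω.1 e) (col ω.1 (T.N0 e)))
      (third (col ω.1 e) (col ω.1 (T.N0 e))) e 0 = 0 := by simp [cntOwn]
  have c1 : cntOth (J + 1) (T.nof B ω'.2) ω'.1 (Equiv.swap (col ω.1 e) (col ω.1 (T.N0 e)))
      (third (col ω.1 e) (col ω.1 (T.N0 e))) e 0 = 0 := by simp [cntOth, cntOwn]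
  rw [c0, c1, Nat.cast_zero, sub_zero] at key
  simp only
  rw [one_div, le_inv_mul_iff₀ hKr, mul_sub, mul_one, mul_div_cancel₀ _ hKr.ne']
  exact key

end PT

/-! ### numerics -/

theorem num_exp (K : ℕ) : (K : ℝ) * (2 ^ K * Real.exp (-(K : ℝ))) ≤ 3 := by
  have h1 : (2 : ℝ) ^ K * Real.exp (-(K : ℝ)) = (2 / Real.exp 1) ^ K := by
    rw [div_pow, Real.exp_neg, ← Real.exp_nat_mul, mul_one, div_eq_mul_inv]
  have he : (2.7 : ℝ) < Real.exp 1 := by
    have := Real.exp_one_gt_d9; linarith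
  have h2 : (1 : ℝ) + K * (Real.exp 1 / 2 - 1) ≤ (Real.exp 1 / 2) ^ K := by
    have := one_add_mul_le_pow (a := Real.exp 1 / 2 - 1) (by linarith) K
    calc _ ≤ (1 + (Real.exp 1 / 2 - 1)) ^ K := this
      _ = _ := by ring_nf
  have h3 : (K : ℝ) ≤ 3 * (Real.exp 1 / 2) ^ K := by
    have : (0 : ℝ) ≤ K := by positivity
    nlinarith
  have h4 : (0 : ℝ) < (Real.exp 1 / 2) ^ K := by positivity
  have h5 : (2 / Real.exp 1) ^ K * (Real.exp 1 / 2) ^ K = 1 := by
    rw [← mul_pow]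
    have : 2 / Real.exp 1 * (Real.exp 1 / 2) = 1 := by
      have := (Real.exp_pos 1).ne'
      field_simp
    rw [this, one_pow]
  rw [h1]
  have h6 : (0 : ℝ) ≤ (2 / Real.exp 1) ^ K := by positivity
  calc (K : ℝ) * (2 / Real.exp 1) ^ K ≤ (3 * (Real.exp 1 / 2) ^ K) * (2 / Real.exp 1) ^ K :=
        mul_le_mul_of_nonneg_right h3 h6
    _ = 3 * ((2 / Real.exp 1) ^ K * (Real.exp 1 / 2) ^ K) := by ring
    _ = 3 := by rw [h5, mul_one]

/-- `1 - (1 - x)^n ≥ n x / 2` when `n x ≤ 1` -/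
theorem num_pow {x : ℝ} (hx0 : 0 ≤ x) (hx1 : x ≤ 1) (n : ℕ) (h : n * x ≤ 1) :
    n * x / 2 ≤ 1 - (1 - x) ^ n := by
  have h1 : (1 : ℝ) + n * x ≤ (1 + x) ^ n := one_add_mul_le_pow (by linarith) n
  have h2 : (1 - x) ^ n * (1 + x) ^ n ≤ 1 := by
    rw [← mul_pow]
    apply pow_le_one₀
    · nlinarith
    · nlinarith
  have h3 : 0 ≤ (1 - x) ^ n := pow_nonneg (by linarith) n
  have h4 : (1 - x) ^ n * (1 + n * x) ≤ 1 := (mul_le_mul_of_nonneg_left h1 h3).trans h2
  have h5 : (0 : ℝ) ≤ n * x := by positivity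
  -- (1-x)^n ≤ 1/(1+nx) ≤ 1 - nx/2
  have h6 : 1 ≤ (1 - n * x / 2) * (1 + n * x) := by nlinarith
  have h7 : (1 - x) ^ n * (1 + n * x) ≤ (1 - n * x / 2) * (1 + n * x) := h4.trans h6
  have h8 := le_of_mul_le_mul_right h7 (by linarith)
  linarith

/-- Job F1: the expected leftover is `O(2^{-s})`. -/
theorem lam_bound {d : ℕ} [NeZero d] (hd : 3 ≤ d) : ∃ C : ℝ, 0 ≤ C ∧
    ∀ (s : ℕ) (V : Type) (G : SimpleGraph V) (_ : G.IsTree) (T : PT G d) (B : Finset V)
      (_ : ∀ r ∈ B, Clo G r B) (ε : Dart V d → ℝ) (_ : Scale s ε) (e : Dart V d)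
      (_ : e ∈ T.EB B) (_ : ∀ w, G.dist e.1 w ≤ 2 ^ (6 * s + 10) → w ∈ B) (ω : Cfg V d),
      ω.2 e = false → col ω.1 e ≠ col ω.1 (T.N0 e) →
      T.EE ε B {e.1, (T.N0 e).1} (T.lf (parS s) B e) ω ≤ C / 2 ^ s := by
  refine ⟨261, by norm_num, ?_⟩
  intro s V G hG T B hB ε hsc e he hball ω hcut hne
  have hpow : ∀ n : ℕ, (0 : ℝ) < 2 ^ n := fun n => by positivity
  have hhi1 : (1 : ℝ) / 2 ^ (8 * s) ≤ 1 := by
    rw [div_le_one (hpow _)]
    exact one_le_pow₀ (by norm_num)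
  have hε : WOK ε := fun e => ⟨le_trans (by positivity) (hsc e).1, (hsc e).2.trans hhi1⟩
  obtain ⟨J, hJ⟩ : ∃ J : ℕ, 2 ^ (6 * s + 7) = J + 1 :=
    ⟨2 ^ (6 * s + 7) - 1, by have := Nat.one_le_two_pow (n := 6 * s + 7); omega⟩
  have hpar : parS s = ⟨2 ^ (2 * s), 2 ^ (6 * s + 7), J + 1⟩ := by
    unfold parS
    simp only [Par.mk.injEq, true_and]
    exact hJ
  have heB := he
  rw [T.mem_EB] at heB
  have hclB := hB e.1 heB.1
  rw [hpar]
  have hstep1 := PT.EE_lf_le (T := T) hG hd hε he (K := 2 ^ (2 * s)) (M := 2 ^ (6 * s + 7))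
    (J := J) (by positivity) hcut hne
  obtain ⟨hb1, hb2⟩ := third_ne hd (col ω.1 e) (col ω.1 (T.N0 e))
  -- the lower bound for side chains
  set lo : ℝ := 1 / 2 ^ (8 * s + 9) with hlo
  have hlo0 : 0 ≤ lo := by positivity
  have hlo1 : lo ≤ 1 := by
    rw [hlo, div_le_one (hpow _)]
    exact one_le_pow₀ (by norm_num)
  have hJr : ((J + 1 : ℕ) : ℝ) = 2 ^ (6 * s + 7) := by rw [← hJ]; push_cast; ring
  have hJlo : ((J + 1 : ℕ) : ℝ) * lo = 1 / 2 ^ (2 * s + 2) := by
    rw [hJr, hlo]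
    rw [mul_one_div, div_eq_div_iff (hpow _).ne' (hpow _).ne', one_mul, ← pow_add]
    congr 1
    ring
  have hJlo1 : ((J + 1 : ℕ) : ℝ) * lo ≤ 1 := by
    rw [hJlo, div_le_one (hpow _)]
    exact one_le_pow₀ (by norm_num)
  have ht0 := num_pow hlo0 hlo1 (J + 1) hJlo1
  rw [hJlo] at ht0
  set t : ℝ := 1 / 2 ^ (2 * s + 2) / 2 with htdef
  have ht : 0 ≤ t := by positivity
  have hsg1 : ∀ h : Dart V d, t ≤ T.sg B ε J h := fun h =>
    ht0.trans (PT.sg_lower (by omega) (fun e => (hsc e).1) hε B J h)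
  have hsg2 : ∀ h : Dart V d, t ≤ T.sg B ε (J + 1) h := fun h => by
    refine le_trans (ht0.trans ?_) (PT.sg_lower (by omega) (fun e => (hsc e).1) hε B (J + 1) h)
    have : (1 - lo) ^ (J + 1 + 1) ≤ (1 - lo) ^ (J + 1) := by
      rw [pow_succ (1 - lo) (J + 1)]
      have h0 : 0 ≤ (1 - lo) ^ (J + 1) := pow_nonneg (by linarith) _
      nlinarith
    linarith
  have hsg : ∀ h h' : Dart V d, t ^ 2 ≤ T.sg B ε (J + 1) h * T.sg B ε J h' := by
    intro h h'
    rw [sq]
    exact mul_le_mul (hsg2 h) (hsg1 h') ht (ht.trans (hsg2 h))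
  have ht1 : t ≤ 1 := by
    rw [htdef]
    have : (1 : ℝ) / 2 ^ (2 * s + 2) ≤ 1 := by
      rw [div_le_one (hpow _)]
      exact one_le_pow₀ (by norm_num)
    linarith
  have ht21 : t ^ 2 ≤ 1 := by nlinarith
  have hstep2 := PT.EE_Qw (T := T) hG (by omega : 2 ≤ d) hε hclB (K := 2 ^ (2 * s)) (J := J)
    (S := 2 ^ s) (θ := t ^ 2) (η := 1 / 2 ^ (8 * s)) (hpow s) ht21 (by positivity)
    (fun e => (hsc e).2) hsg hne hb1 hb2 (2 ^ (6 * s + 7)) 0 0 {e.1, (T.N0 e).1} e ω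
    (by
      have h1 := (Clo.singleton (G := G) e.1).insert hG (Finset.mem_singleton_self e.1)
        (T.adj e).symm
      rw [Finset.pair_comm]
      exact h1)
    (by
      intro v hv
      simp only [Finset.mem_insert, Finset.mem_singleton] at hv
      rcases hv with rfl | rfl
      · exact heB.1
      · exact heB.2.2)
    (by simp)
    (by
      intro v hv hb
      simp only [Finset.mem_insert, Finset.mem_singleton] at hv
      rcases hv with rfl | rfl
      · rfl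
      · exact absurd hb (PT.not_bey_self _))
    rfl
    (by
      intro w hw
      apply hball
      refine hw.trans ?_
      rw [← pow_succ']
      exact Nat.pow_le_pow_right (by norm_num) (by omega))
    (Nat.zero_le _) (Nat.zero_le _)
  refine hstep1.trans ((mul_le_mul_of_nonneg_left hstep2 (by positivity)).trans ?_)
  -- numerics
  unfold PT.Wp
  have hKr : ((2 ^ (2 * s) : ℕ) : ℝ) = 2 ^ s * 2 ^ s := by
    push_cast
    rw [← pow_add]
    congr 1
    ring
  have hs0 := hpow s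
  have hs1 : (1 : ℝ) ≤ 2 ^ s := one_le_pow₀ (by norm_num)
  have n1 : ((((0 : ℕ) : ℝ) - ((0 : ℕ) : ℝ)) ^ 2 - (((0 : ℕ) : ℝ) + ((0 : ℕ) : ℝ)) +
      2 * ((2 ^ (2 * s) : ℕ) : ℝ)) / 2 ^ s + 2 ^ s = 3 * 2 ^ s := by
    rw [hKr]
    field_simp
    push_cast
    ring
  have n2 : ((2 ^ (2 * s) : ℕ) : ℝ) * 2 ^ (2 ^ (2 * s)) * (1 / 2) ^ 0 *
      (1 - t ^ 2 / 2) ^ (2 ^ (6 * s + 7)) ≤ 3 := by
    have h1 : (1 - t ^ 2 / 2) ^ (2 ^ (6 * s + 7)) ≤ Real.exp (-((2 ^ (2 * s) : ℕ) : ℝ)) := by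
      have h2 : 1 - t ^ 2 / 2 ≤ Real.exp (-(t ^ 2 / 2)) := by
        have := Real.add_one_le_exp (-(t ^ 2 / 2))
        linarith
      have h3 : (0 : ℝ) ≤ 1 - t ^ 2 / 2 := by linarith
      refine (pow_le_pow_left₀ h3 h2 _).trans ?_
      rw [← Real.exp_nat_mul]
      apply le_of_eq
      congr 1
      push_cast
      rw [htdef]
      have h4 : (2 : ℝ) ^ (6 * s + 7) = 2 ^ (2 * s) * (2 ^ (2 * s + 2)) ^ 2 * 8 := by
        rw [← pow_mul, ← pow_add, show (8 : ℝ) = 2 ^ 3 by norm_num, ← pow_add]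
        congr 1
        ring
      rw [h4]
      have h5 := (hpow (2 * s + 2)).ne'
      field_simp
      ring
    have h4 := num_exp (2 ^ (2 * s))
    have h5 : (0 : ℝ) ≤ ((2 ^ (2 * s) : ℕ) : ℝ) * 2 ^ (2 ^ (2 * s)) := by positivity
    calc ((2 ^ (2 * s) : ℕ) : ℝ) * 2 ^ (2 ^ (2 * s)) * (1 / 2) ^ 0 *
      (1 - t ^ 2 / 2) ^ (2 ^ (6 * s + 7)) ≤ ((2 ^ (2 * s) : ℕ) : ℝ) * 2 ^ (2 ^ (2 * s)) *
        (1 / 2) ^ 0 * Real.exp (-((2 ^ (2 * s) : ℕ) : ℝ)) :=
          mul_le_mul_of_nonneg_left h1 (by simpa using h5)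
      _ = ((2 ^ (2 * s) : ℕ) : ℝ) * (2 ^ (2 ^ (2 * s)) * Real.exp (-((2 ^ (2 * s) : ℕ) : ℝ))) := by
          ring
      _ ≤ 3 := h4
  have n3 : ((2 ^ (6 * s + 7) : ℕ) : ℝ) * (2 * (((2 ^ (2 * s) : ℕ) : ℝ) * (1 / 2 ^ (8 * s)))) =
      256 := by
    push_cast
    have h4 : (2 : ℝ) ^ (6 * s + 7) * (2 ^ (2 * s) * 2) = 2 ^ (8 * s) * 256 := by
      rw [show (256 : ℝ) = 2 ^ 8 by norm_num, ← pow_succ, ← pow_add, ← pow_add]
      congr 1
      ring
    have h5 := (hpow (8 * s)).ne'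
    field_simp
    linarith
  rw [n1, n3]
  have n4 : 3 * (2 : ℝ) ^ s / 2 + ((2 ^ (2 * s) : ℕ) : ℝ) * 2 ^ (2 ^ (2 * s)) * (1 / 2) ^ 0 *
      (1 - t ^ 2 / 2) ^ (2 ^ (6 * s + 7)) + 256 ≤ 261 * 2 ^ s := by
    linarith
  calc 1 / ((2 ^ (2 * s) : ℕ) : ℝ) * (3 * (2 : ℝ) ^ s / 2 +
      ((2 ^ (2 * s) : ℕ) : ℝ) * 2 ^ (2 ^ (2 * s)) * (1 / 2) ^ 0 *
      (1 - t ^ 2 / 2) ^ (2 ^ (6 * s + 7)) + 256) ≤ 1 / ((2 ^ (2 * s) : ℕ) : ℝ) * (261 * 2 ^ s) :=
        mul_le_mul_of_nonneg_left n4 (by positivity)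
    _ = 261 / 2 ^ s := by
      rw [hKr]
      field_simp

end FI
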