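import Pool.Agent.H99.FI.Cost.Geo

/-!
# FI, cost of the repairs: side chains (σ)

`sd B J g c c' ω` is a local version of `sideOK`: the chain which leaves through the dart `g` (of
colour `c`), then uses the colours `c', c, c', …`, has at most `J` positions.
-/

set_option autoImplicit false

namespace FI

open Finset Function
open scoped Classical

variable {V : Type*} {G : SimpleGraph V} {d : ℕ}

theorem pos_succ' (N : Adj V d) (x : St V d) (τ : Equiv.Perm (Fin d)) (a : Dart V d) (n : ℕ) :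
    pos N x τ a (n + 1) = (nx N x τ a).bind (fun c => pos N x τ c n) := by
  induction n with
  | zero =>
    simp only [pos]
    cases h : nx N x τ a <;> simp [h]
  | succ n ih =>
    rw [pos, ih]
    cases nx N x τ a <;> simp [pos]

namespace PT

variable (T : PT G d)

/-- local version of `sideOK` -/
def sd (B : Finset V) : ℕ → Dart V d → Fin d → Fin d → Cfg V d → Prop
  | 0, g, _, _, ω => T.nof B ω.2 g = none
  | J + 1, g, c, c', ω => T.nof B ω.2 g = none ∨
      (dt ω.1 (T.N0 g).1 c' ≠ T.N0 g ∧ sd B J (dt ω.1 (T.N0 g).1 c') c' c ω)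

/-- agreement of two configurations on the branch beyond `g` -/
def Agr (B : Finset V) (g : Dart V d) (ω ω' : Cfg V d) : Prop :=
  (∀ v ∈ B, T.Bey g v → ω'.1 v = ω.1 v) ∧
  (∀ c : Dart V d, c.1 ∈ B → (T.N0 c).1 ∈ B → T.Bey g (T.N0 c).1 → ω'.2 (T.cd c) = ω.2 (T.cd c))

variable {T}

theorem Agr.sub {B : Finset V} {g g' : Dart V d} {ω ω' : Cfg V d} (h : T.Agr B g ω ω')
    (hs : ∀ v, T.Bey g' v → T.Bey g v) : T.Agr B g' ω ω' :=
  ⟨fun v hv hb => h.1 v hv (hs v hb), fun c h1 h2 h3 => h.2 c h1 h2 (hs _ h3)⟩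

theorem Agr.nof {B : Finset V} {g : Dart V d} {ω ω' : Cfg V d} (h : T.Agr B g ω ω')
    {c : Dart V d} (hc : T.Bey g (T.N0 c).1) : T.nof B ω'.2 c = T.nof B ω.2 c := by
  unfold PT.nof
  by_cases h1 : c.1 ∈ B ∧ (T.N0 c).1 ∈ B
  · rw [h.2 c h1.1 h1.2 hc]
  · rw [if_neg (fun h' => h1 ⟨h'.1, h'.2.1⟩), if_neg (fun h' => h1 ⟨h'.1, h'.2.1⟩)]

/-- `sd` depends only on the branch -/
theorem sd_congr (hG : G.IsTree) {B : Finset V} (J : ℕ) {g : Dart V d} (c c' : Fin d)
    {ω ω' : Cfg V d} (h : T.Agr B g ω ω') : T.sd B J g c c' ω' ↔ T.sd B J g c c' ω := by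
  induction J generalizing g c c' with
  | zero => unfold sd; rw [h.nof (bey_N0 g)]
  | succ J ih =>
    unfold sd
    rw [h.nof (bey_N0 g)]
    by_cases hn : T.nof B ω.2 g = none
    · simp [hn]
    · have hB : (T.N0 g).1 ∈ B := by
        cases h' : T.nof B ω.2 g with
        | none => exact absurd h' hn
        | some f => exact (T.nof_some.mp h').2.1
      have hx : dt ω'.1 (T.N0 g).1 c' = dt ω.1 (T.N0 g).1 c' := by
        unfold dt; rw [h.1 _ hB (bey_N0 g)]
      rw [hx]
      by_cases hne : dt ω.1 (T.N0 g).1 c' = T.N0 g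
      · simp [hne]
      · rw [ih]
        refine h.sub fun v hv => ?_
        have := bey_sub (T := T) hG (f := T.N0 g) (g := dt ω.1 (T.N0 g).1 c') rfl hne hv
        rwa [T.inv] at this

/-- configurations agreeing off the unexplored part agree on explored branches -/
theorem agr_of_off (hG : G.IsTree) {A B : Finset V} {g : Dart V d} (hg : g.1 ∈ A)
    (hbr : T.Br B g ⊆ A) {ω ω' : Cfg V d} (ho : Off (T.cA B A) ω ω') : T.Agr B g ω ω' := by
  constructor
  · intro v hv hb
    exact ho.1 v (by rw [mem_cA_inl]; exact fun h => h.2 (hbr (mem_Br.mpr ⟨hv, hb⟩)))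
  · intro c h1 h2 h3
    have hc2 : (T.N0 c).1 ∈ A := hbr (mem_Br.mpr ⟨h2, h3⟩)
    have hc1 : c.1 ∈ A := by
      rcases bey_adj hG h3 (T.adj c).symm with h | ⟨_, h⟩
      · exact hbr (mem_Br.mpr ⟨h1, h⟩)
      · rw [h]; exact hg
    exact ho.2 _ (by rw [mem_cA_inr]; exact fun h => h.2 (T.cd_mem_EB hc1 hc2))

/-- the indicator of `sd` -/
noncomputable def sdI (T : PT G d) (B : Finset V) (J : ℕ) (g : Dart V d) (c c' : Fin d)
    (ω : Cfg V d) : ℝ := if T.sd B J g c c' ω then 1 else 0

theorem sdI_nonneg (B : Finset V) (J : ℕ) (g : Dart V d) (c c' : Fin d) (ω : Cfg V d) :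
    0 ≤ T.sdI B J g c c' ω := by unfold sdI; split_ifs <;> simp

theorem sdI_le_one (B : Finset V) (J : ℕ) (g : Dart V d) (c c' : Fin d) (ω : Cfg V d) :
    T.sdI B J g c c' ω ≤ 1 := by unfold sdI; split_ifs <;> simp

theorem noDep_sdI (hG : G.IsTree) {A B : Finset V} {g : Dart V d} (hg : g.1 ∈ A)
    (hbr : T.Br B g ⊆ A) (J : ℕ) (c c' : Fin d) : NoDep (T.cA B A) (T.sdI B J g c c') := by
  intro ω ω' ho
  have := sd_congr hG J c c' (agr_of_off hG hg hbr ho)
  unfold sdI
  by_cases h : T.sd B J g c c' ω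
  · rw [if_pos h, if_pos (this.mpr h)]
  · rw [if_neg h, if_neg (fun h' => h (this.mp h'))]

/-- `sideOK` is `sd` for states which agree with a consistent state on the branch -/
theorem sideOK_iff (hG : G.IsTree) {B : Finset V} {ω : Cfg V d} (hcons : Cons (T.nof B ω.2) ω.1)
    (J : ℕ) {g : Dart V d} {c c' : Fin d} (hcc : c ≠ c') {x' : St V d}
    (hx : ∀ v, T.Bey g v → x' v = ω.1 v) (hc : col ω.1 g = c) :
    sideOK J (T.nof B ω.2) x' (Equiv.swap c c') g ↔ T.sd B J g c c' ω := by
  induction J generalizing g c c' with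
  | zero =>
    unfold sd sideOK
    constructor
    · intro h
      cases h' : T.nof B ω.2 g with
      | none => rfl
      | some f => have := h f h'; simp [pos] at this
    · intro h f hf
      rw [h] at hf
      exact absurd hf (by simp)
  | succ J ih =>
    unfold sd
    cases h' : T.nof B ω.2 g with
    | none =>
      simp only [true_or, iff_true]
      intro f hf
      rw [h'] at hf
      exact absurd hf (by simp)
    | some f =>
      have hf := (T.nof_some.mp h').2.2.2
      subst hf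
      have e1 : x' (T.N0 g).1 = ω.1 (T.N0 g).1 := hx _ (bey_N0 g)
      have e2 : col ω.1 (T.N0 g) = c := by rw [← hcons _ _ h', hc]
      have e3 : col x' (T.N0 g) = c := by unfold col at e2 ⊢; rw [e1, e2]
      have e4 : dt x' (T.N0 g).1 c' = dt ω.1 (T.N0 g).1 c' := by unfold dt; rw [e1]
      have e5 : nx (T.nof B ω.2) x' (Equiv.swap c c') (T.N0 g) =
          T.nof B ω.2 (dt ω.1 (T.N0 g).1 c') := by
        unfold nx
        rw [e3, Equiv.swap_apply_left, e4]
      have e6 : col ω.1 (dt ω.1 (T.N0 g).1 c') = c' := by simp [col, dt]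
      have hne : dt ω.1 (T.N0 g).1 c' ≠ T.N0 g := by
        intro h
        rw [h, e2] at e6
        exact hcc e6
      have hsub : ∀ v, T.Bey (dt ω.1 (T.N0 g).1 c') v → T.Bey g v := by
        intro v hv
        have := bey_sub (T := T) hG (f := T.N0 g) (g := dt ω.1 (T.N0 g).1 c') rfl hne hv
        rwa [T.inv] at this
      have key := ih (g := dt ω.1 (T.N0 g).1 c') (c := c') (c' := c) hcc.symm
        (fun v hv => hx v (hsub v hv)) e6
      rw [Equiv.swap_comm] at key
      simp only [reduceCtorEq, false_or]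
      rw [← key]
      constructor
      · intro h
        refine ⟨hne, fun f hf => ?_⟩
        have := h _ h'
        rw [pos_succ', e5, hf] at this
        simpa using this
      · rintro ⟨_, h⟩ f hf
        rw [h', Option.some.injEq] at hf
        subst hf
        rw [pos_succ', e5]
        cases h2 : T.nof B ω.2 (dt ω.1 (T.N0 g).1 c') with
        | none => simp
        | some f => simpa using h f h2

/-! ### the averaging fact -/

theorem card_perm_two (hd : 2 ≤ d) {i j : Fin d} (hij : i ≠ j) {c c' : Fin d} (hcc : c ≠ c') :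
    ((d : ℝ) - 1) * ((Finset.univ.filter fun σ : Equiv.Perm (Fin d) =>
      σ j = c ∧ σ i = c').card : ℝ) = ((d - 1).factorial : ℝ) := by
  have hpart : ∀ i' : Fin d, i' ≠ j →
      (Finset.univ.filter fun σ : Equiv.Perm (Fin d) => σ j = c ∧ σ i' = c').card =
      (Finset.univ.filter fun σ : Equiv.Perm (Fin d) => σ j = c ∧ σ i = c').card := by
    intro i' hi'
    refine Finset.card_bij (fun σ _ => σ * Equiv.swap i i') ?_ ?_ ?_
    · intro σ hσ
      simp only [Finset.mem_filter, Finset.mem_univ, true_and] at hσ ⊢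
      refine ⟨?_, by simp [hσ.2]⟩
      rw [Equiv.Perm.mul_apply, Equiv.swap_apply_of_ne_of_ne hij.symm hi'.symm, hσ.1]
    · intro σ _ σ' _ h
      exact mul_right_cancel h
    · intro σ hσ
      simp only [Finset.mem_filter, Finset.mem_univ, true_and] at hσ
      refine ⟨σ * Equiv.swap i i', ?_, ?_⟩
      · simp only [Finset.mem_filter, Finset.mem_univ, true_and]
        refine ⟨?_, by simp [hσ.2]⟩
        rw [Equiv.Perm.mul_apply, Equiv.swap_apply_of_ne_of_ne hij.symm hi'.symm, hσ.1]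
      · rw [mul_assoc, Equiv.swap_mul_self, mul_one]
  have htot : ∑ i' : Fin d,
      (Finset.univ.filter fun σ : Equiv.Perm (Fin d) => σ j = c ∧ σ i' = c').card =
      (d - 1).factorial := by
    rw [← card_perm_apply (by omega : 1 ≤ d) j c,
      Finset.card_eq_sum_card_fiberwise (f := fun σ : Equiv.Perm (Fin d) => σ.symm c')
      (s := Finset.univ.filter fun σ : Equiv.Perm (Fin d) => σ j = c) (t := Finset.univ)
      (by intro _ _; simp)]
    refine Finset.sum_congr rfl fun i' _ => ?_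
    congr 1
    ext σ
    simp only [Finset.mem_filter, Finset.mem_univ, true_and]
    refine and_congr_right fun _ => ?_
    rw [Equiv.symm_apply_eq, eq_comm]
  have hzero : (Finset.univ.filter fun σ : Equiv.Perm (Fin d) => σ j = c ∧ σ j = c').card = 0 := by
    rw [Finset.card_eq_zero, Finset.filter_eq_empty_iff]
    rintro σ _ ⟨h1, h2⟩
    exact hcc (h1.symm.trans h2)
  rw [← Finset.add_sum_erase _ _ (Finset.mem_univ j), hzero, zero_add,
    Finset.sum_congr rfl (fun i' hi' => hpart i' (Finset.ne_of_mem_erase hi')),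
    Finset.sum_const, Finset.card_erase_of_mem (Finset.mem_univ j), Finset.card_univ,
    Fintype.card_fin, smul_eq_mul] at htot
  have h1 : ((d - 1 : ℕ) : ℝ) = (d : ℝ) - 1 := by
    rw [Nat.cast_sub (by omega)]; simp
  rw [← h1]
  exact_mod_cast htot

/-- averaging over a fresh vertex with prescribed incoming colour -/
theorem avg_out (hd : 2 ≤ d) (j : Fin d) {c c' : Fin d} (hcc : c ≠ c') (h : Fin d → ℝ) :
    (1 / (d.factorial : ℝ)) * ∑ σ : Equiv.Perm (Fin d),
      (if c = σ j then (d : ℝ) else 0) * h (σ.symm c') =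
    (1 / ((d : ℝ) - 1)) * ∑ i ∈ Finset.univ.erase j, h i := by
  have h0 : ∑ σ : Equiv.Perm (Fin d), (if c = σ j then (d : ℝ) else 0) * h (σ.symm c') =
      ∑ i : Fin d, ∑ σ : Equiv.Perm (Fin d),
        (if c = σ j ∧ σ i = c' then (d : ℝ) * h i else 0) := by
    rw [Finset.sum_comm]
    refine Finset.sum_congr rfl fun σ _ => ?_
    rw [Finset.sum_eq_single (σ.symm c')]
    · by_cases h1 : c = σ j
      · simp [h1]
      · simp [h1]
    · intro i _ hi
      rw [if_neg]
      rintro ⟨_, h2⟩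
      exact hi (by rw [← h2]; simp)
    · simp
  have h1 : ∀ i : Fin d, ∑ σ : Equiv.Perm (Fin d),
      (if c = σ j ∧ σ i = c' then (d : ℝ) * h i else 0) =
      ((Finset.univ.filter fun σ : Equiv.Perm (Fin d) => σ j = c ∧ σ i = c').card : ℝ) *
        ((d : ℝ) * h i) := by
    intro i
    rw [← Finset.sum_filter, Finset.sum_const, nsmul_eq_mul]
    congr 3
    ext σ
    simp [eq_comm]
  rw [h0, Finset.sum_congr rfl (fun i _ => h1 i), ← Finset.add_sum_erase _ _ (Finset.mem_univ j)]
  have hzero : (Finset.univ.filter fun σ : Equiv.Perm (Fin d) => σ j = c ∧ σ j = c').card = 0 := by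
    rw [Finset.card_eq_zero, Finset.filter_eq_empty_iff]
    rintro σ _ ⟨h1, h2⟩
    exact hcc (h1.symm.trans h2)
  rw [hzero, Nat.cast_zero, zero_mul, zero_add, Finset.mul_sum, Finset.mul_sum]
  refine Finset.sum_congr rfl fun i hi => ?_
  have hij := Finset.ne_of_mem_erase hi
  have h2 := card_perm_two hd hij hcc
  have h3 : d * (d - 1).factorial = d.factorial := Nat.mul_factorial_pred (by omega)
  have h4 : (d : ℝ) * ((d - 1).factorial : ℝ) = (d.factorial : ℝ) := by exact_mod_cast h3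
  have h5 : (d : ℝ) - 1 ≠ 0 := by
    have : (2 : ℝ) ≤ d := by exact_mod_cast hd
    linarith
  have h6 : (d : ℝ) ≠ 0 := by
    have : (2 : ℝ) ≤ d := by exact_mod_cast hd
    linarith
  have h7 : ((d - 1).factorial : ℝ) ≠ 0 := by positivity
  rw [← h4]
  field_simp
  rw [← h2]
  ring

/-! ### the value of a side chain -/

/-- probability that the side chain leaving through `g` has at most `J` positions -/
noncomputable def sg (T : PT G d) (B : Finset V) (ε : Dart V d → ℝ) : ℕ → Dart V d → ℝ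
  | 0, g => if (T.N0 g).1 ∈ B then ε (T.cd g) else 1
  | J + 1, g => if (T.N0 g).1 ∈ B then ε (T.cd g) + (1 - ε (T.cd g)) *
      ((1 / ((d : ℝ) - 1)) * ∑ i ∈ Finset.univ.erase (T.N0 g).2, sg T B ε J ((T.N0 g).1, i))
      else 1

/-- `EE` only sees configurations agreeing on the explored set -/
theorem EE_congr_off (ε : Dart V d → ℝ) {A B : Finset V} {F F' : Cfg V d → ℝ} (ω : Cfg V d)
    (h : ∀ ω', Off (T.cA B A) ω ω' → F ω' = F' ω') : T.EE ε B A F ω = T.EE ε B A F' ω :=
  AV_congr_off _ ω fun ω' hω' => by rw [h ω' hω']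

theorem nof_of_notMem {B : Finset V} {u : Dart V d → Bool} {g : Dart V d}
    (h : (T.N0 g).1 ∉ B) : T.nof B u g = none := by
  unfold PT.nof
  rw [if_neg (fun h' => h h'.2.1)]

/-- after one more step the beyond vertices are still unexplored -/
theorem notMem_step (hG : G.IsTree) {r : V} {A : Finset V} (hA : Clo G r A) {g g2 : Dart V d}
    (hg : g.1 ∈ A) (hg' : (T.N0 g).1 ∉ A) (h1 : g2.1 = (T.N0 g).1) (hne : g2 ≠ T.N0 g) :
    (T.N0 g2).1 ∉ insert (T.N0 g).1 A := by
  rw [Finset.mem_insert, not_or]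
  refine ⟨fun h => T.N0_ne g2 (h.trans h1.symm), fun h => ?_⟩
  refine PT.Clo.not_bey hG hA hg hg' h ?_
  have := bey_sub (T := T) hG (f := T.N0 g) h1 hne (bey_N0 g2)
  rwa [T.inv] at this

theorem cd_mem_EB_insert {A : Finset V} {g : Dart V d} (hg : g.1 ∈ A) :
    T.cd g ∈ T.EB (insert (T.N0 g).1 A) :=
  T.cd_mem_EB (Finset.mem_insert_of_mem hg) (Finset.mem_insert_self _ _)

/-- revealing an edge, equality form -/
theorem EE_edge (hG : G.IsTree) (ε : Dart V d → ℝ) {r : V} {A B : Finset V}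
    (hA : Clo G r A) (hAB : A ⊆ B) {g : Dart V d} (hg : g.1 ∈ A)
    (hg' : (T.N0 g).1 ∉ A) (hgB : (T.N0 g).1 ∈ B) (F : Cfg V d → ℝ) (ω : Cfg V d)
    (h : Equiv.Perm (Fin d) → ℝ) (h0 : ℝ)
    (H1 : ∀ σ : Equiv.Perm (Fin d), col ω.1 g = σ (T.N0 g).2 →
      T.EE ε B (insert (T.N0 g).1 A) F
        (Function.update ω.1 (T.N0 g).1 σ, Function.update ω.2 (T.cd g) true) = h σ)
    (H0 : ∀ σ : Equiv.Perm (Fin d), T.EE ε B (insert (T.N0 g).1 A) F
        (Function.update ω.1 (T.N0 g).1 σ, Function.update ω.2 (T.cd g) false) = h0) :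
    T.EE ε B A F ω = (1 - ε (T.cd g)) * ((1 / (d.factorial : ℝ)) * ∑ σ : Equiv.Perm (Fin d),
      (if col ω.1 g = σ (T.N0 g).2 then (d : ℝ) else 0) * h σ) + ε (T.cd g) * h0 := by
  rw [EE_step' ε hG hA hAB hg hg' hgB]
  have e1 : ∀ σ : Equiv.Perm (Fin d), (if col ω.1 g = σ (T.N0 g).2 then (d : ℝ) else 0) *
      T.EE ε B (insert (T.N0 g).1 A) F
        (Function.update ω.1 (T.N0 g).1 σ, Function.update ω.2 (T.cd g) true) =
      (if col ω.1 g = σ (T.N0 g).2 then (d : ℝ) else 0) * h σ := by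
    intro σ
    by_cases hc : col ω.1 g = σ (T.N0 g).2
    · rw [H1 σ hc]
    · rw [if_neg hc, zero_mul, zero_mul]
  simp only [e1, H0]
  rw [Finset.sum_add_distrib, ← Finset.mul_sum, Finset.sum_const, Finset.card_univ,
    Fintype.card_perm, Fintype.card_fin, nsmul_eq_mul]
  have : (d.factorial : ℝ) ≠ 0 := by positivity
  field_simp

/-- revealing an edge, upper bound form -/
theorem EE_edge_le (hG : G.IsTree) (hd : 1 ≤ d) {ε : Dart V d → ℝ} (hε : WOK ε) {r : V}
    {A B : Finset V} (hA : Clo G r A) (hAB : A ⊆ B) {g : Dart V d} (hg : g.1 ∈ A)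
    (hg' : (T.N0 g).1 ∉ A) (hgB : (T.N0 g).1 ∈ B) (F : Cfg V d → ℝ) (ω : Cfg V d)
    (b1 b0 : ℝ)
    (H1 : ∀ σ : Equiv.Perm (Fin d), col ω.1 g = σ (T.N0 g).2 →
      T.EE ε B (insert (T.N0 g).1 A) F
        (Function.update ω.1 (T.N0 g).1 σ, Function.update ω.2 (T.cd g) true) ≤ b1)
    (H0 : ∀ σ : Equiv.Perm (Fin d), T.EE ε B (insert (T.N0 g).1 A) F
        (Function.update ω.1 (T.N0 g).1 σ, Function.update ω.2 (T.cd g) false) ≤ b0) :
    T.EE ε B A F ω ≤ (1 - ε (T.cd g)) * b1 + ε (T.cd g) * b0 := by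
  have hε1 := hε (T.cd g)
  rw [EE_step' ε hG hA hAB hg hg' hgB]
  have e1 : ∑ σ : Equiv.Perm (Fin d),
      ((1 - ε (T.cd g)) * ((if col ω.1 g = σ (T.N0 g).2 then (d : ℝ) else 0) *
        T.EE ε B (insert (T.N0 g).1 A) F
          (Function.update ω.1 (T.N0 g).1 σ, Function.update ω.2 (T.cd g) true)) +
      ε (T.cd g) * T.EE ε B (insert (T.N0 g).1 A) F
          (Function.update ω.1 (T.N0 g).1 σ, Function.update ω.2 (T.cd g) false)) ≤
      ∑ σ : Equiv.Perm (Fin d),
      ((1 - ε (T.cd g)) * ((if col ω.1 g = σ (T.N0 g).2 then (d : ℝ) else 0) * b1) +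
      ε (T.cd g) * b0) := by
    refine Finset.sum_le_sum fun σ _ => ?_
    refine add_le_add ?_ (mul_le_mul_of_nonneg_left (H0 σ) hε1.1)
    refine mul_le_mul_of_nonneg_left ?_ (by linarith [hε1.2])
    by_cases hc : col ω.1 g = σ (T.N0 g).2
    · rw [if_pos hc]
      exact mul_le_mul_of_nonneg_left (H1 σ hc) (by positivity)
    · rw [if_neg hc, zero_mul, zero_mul]
  have e2 : (1 / (d.factorial : ℝ)) * ∑ σ : Equiv.Perm (Fin d),
      ((1 - ε (T.cd g)) * ((if col ω.1 g = σ (T.N0 g).2 then (d : ℝ) else 0) * b1) +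
      ε (T.cd g) * b0) = (1 - ε (T.cd g)) * b1 + ε (T.cd g) * b0 := by
    rw [Finset.sum_add_distrib, ← Finset.mul_sum, ← Finset.sum_mul, mul_add, mul_left_comm,
      ← mul_assoc (1 / (d.factorial : ℝ)), avg_match hd, Finset.sum_const, Finset.card_univ,
      Fintype.card_perm, Fintype.card_fin, nsmul_eq_mul]
    have : (d.factorial : ℝ) ≠ 0 := by positivity
    field_simp
  rw [← e2]
  exact mul_le_mul_of_nonneg_left e1 (by positivity)

/-- configurations agreeing off the unexplored part: the new vertex and the new edge -/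
theorem off_upd {A B : Finset V} {g : Dart V d} (hg : g.1 ∈ A) {ω ω' : Cfg V d}
    {σ : Equiv.Perm (Fin d)} {b : Bool}
    (ho : Off (T.cA B (insert (T.N0 g).1 A))
      (Function.update ω.1 (T.N0 g).1 σ, Function.update ω.2 (T.cd g) b) ω') :
    ω'.1 (T.N0 g).1 = σ ∧ ω'.2 (T.cd g) = b := by
  constructor
  · rw [ho.1 _ (by rw [mem_cA_inl]; exact fun h => h.2 (Finset.mem_insert_self _ _))]
    simp
  · rw [ho.2 _ (by rw [mem_cA_inr]; exact fun h => h.2 (cd_mem_EB_insert hg))]
    simp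

/-- (σ): the law of a side chain does not depend on the colours -/
theorem EE_sd (hG : G.IsTree) (hd : 2 ≤ d) (ε : Dart V d → ℝ) {r : V} {A B : Finset V}
    (hA : Clo G r A) (hB : Clo G r B) (hAB : A ⊆ B) {g : Dart V d} (hg : g.1 ∈ A)
    (hg' : (T.N0 g).1 ∉ A) (J : ℕ) {c c' : Fin d} (hcc : c ≠ c') (ω : Cfg V d)
    (hc : col ω.1 g = c) : T.EE ε B A (T.sdI B J g c c') ω = T.sg B ε J g := by
  induction J generalizing A g c c' ω with
  | zero =>
    by_cases hgB : (T.N0 g).1 ∈ B
    · rw [EE_edge hG ε hA hAB hg hg' hgB _ ω (fun _ => 0) 1]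
      · simp [sg, hgB]
      · intro σ _
        rw [← congrFun (EE_zero (T := T) (ε := ε) B (insert (T.N0 g).1 A))
          (Function.update ω.1 (T.N0 g).1 σ, Function.update ω.2 (T.cd g) true)]
        refine EE_congr_off ε _ fun ω' ho => ?_
        have hu := (off_upd hg ho).2
        unfold sdI sd
        rw [if_neg]
        rw [T.nof_some.mpr ⟨hAB hg, hgB, hu, rfl⟩]
        simp
      · intro σ
        rw [← EE_one (T := T) hG (by omega : 1 ≤ d) ε (hA.insert hG hg (T.adj g).symm) hB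
          (Finset.insert_subset hgB hAB)
          (Function.update ω.1 (T.N0 g).1 σ, Function.update ω.2 (T.cd g) false)]
        refine EE_congr_off ε _ fun ω' ho => ?_
        have hu := (off_upd hg ho).2
        unfold sdI sd PT.nof
        rw [if_pos]
        rw [if_neg]
        rw [hu]; simp
    · simp only [sg, hgB, if_false]
      refine (EE_congr_off ε ω fun ω' _ => ?_).trans (EE_one hG (by omega) ε hA hB hAB ω)
      unfold sdI sd
      rw [if_pos (nof_of_notMem hgB)]
  | succ J ih =>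
    by_cases hgB : (T.N0 g).1 ∈ B
    · rw [EE_edge hG ε hA hAB hg hg' hgB _ ω
        (fun σ => T.sg B ε J ((T.N0 g).1, σ.symm c')) 1]
      · rw [hc, avg_out hd (T.N0 g).2 hcc (fun i => T.sg B ε J ((T.N0 g).1, i))]
        simp only [sg, hgB, if_true]
        ring
      · intro σ hσ
        rw [hc] at hσ
        have hne : ((T.N0 g).1, σ.symm c') ≠ T.N0 g := by
          intro h
          have h2 := congrArg Prod.snd h
          simp only at h2
          rw [← h2, Equiv.apply_symm_apply] at hσ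
          exact hcc hσ
        rw [← ih (A := insert (T.N0 g).1 A) (g := ((T.N0 g).1, σ.symm c')) (c := c') (c' := c)
          (hA.insert hG hg (T.adj g).symm) (Finset.insert_subset hgB hAB)
          (Finset.mem_insert_self _ _) (notMem_step hG hA hg hg' rfl hne) hcc.symm
          (Function.update ω.1 (T.N0 g).1 σ, Function.update ω.2 (T.cd g) true)
          (by simp [col])]
        refine EE_congr_off ε _ fun ω' ho => ?_
        have hu := off_upd hg ho
        have hN : T.nof B ω'.2 g = some (T.N0 g) := T.nof_some.mpr ⟨hAB hg, hgB, hu.2, rfl⟩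
        unfold sdI
        congr 1
        rw [sd, hN]
        simp only [reduceCtorEq, false_or, dt, hu.1, eq_iff_iff]
        exact ⟨fun h => h.2, fun h => ⟨hne, h⟩⟩
      · intro σ
        rw [← EE_one (T := T) hG (by omega : 1 ≤ d) ε (hA.insert hG hg (T.adj g).symm) hB
          (Finset.insert_subset hgB hAB)
          (Function.update ω.1 (T.N0 g).1 σ, Function.update ω.2 (T.cd g) false)]
        refine EE_congr_off ε _ fun ω' ho => ?_
        have hu := (off_upd hg ho).2
        have hN : T.nof B ω'.2 g = none := by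
          unfold PT.nof
          rw [if_neg]
          rw [hu]; simp
        unfold sdI sd
        rw [if_pos (Or.inl hN)]
    · simp only [sg, hgB, if_false]
      refine (EE_congr_off ε ω fun ω' _ => ?_).trans (EE_one hG (by omega) ε hA hB hAB ω)
      unfold sdI sd
      rw [if_pos (Or.inl (nof_of_notMem hgB))]

/-! ### bounds for `sg` -/

theorem avg_le {j : Fin d} (hd : 2 ≤ d) {h : Fin d → ℝ} {b : ℝ} (H : ∀ i, h i ≤ b) :
    (1 / ((d : ℝ) - 1)) * ∑ i ∈ Finset.univ.erase j, h i ≤ b := by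
  have h5 : (0 : ℝ) < (d : ℝ) - 1 := by
    have : (2 : ℝ) ≤ d := by exact_mod_cast hd
    linarith
  have h1 : ((d - 1 : ℕ) : ℝ) = (d : ℝ) - 1 := by
    rw [Nat.cast_sub (by omega)]; simp
  have h2 : ∑ i ∈ Finset.univ.erase j, h i ≤ ∑ i ∈ Finset.univ.erase j, b :=
    Finset.sum_le_sum fun i _ => H i
  rw [Finset.sum_const, Finset.card_erase_of_mem (Finset.mem_univ j), Finset.card_univ,
    Fintype.card_fin, nsmul_eq_mul, h1] at h2
  rw [one_div, inv_mul_le_iff₀ h5]
  linarith

theorem le_avg {j : Fin d} (hd : 2 ≤ d) {h : Fin d → ℝ} {b : ℝ} (H : ∀ i, b ≤ h i) :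
    b ≤ (1 / ((d : ℝ) - 1)) * ∑ i ∈ Finset.univ.erase j, h i := by
  have := avg_le (j := j) hd (h := fun i => - h i) (b := -b) (fun i => by simpa using H i)
  rw [Finset.sum_neg_distrib] at this
  linarith

theorem sg_le_one (hd : 2 ≤ d) {ε : Dart V d → ℝ} (hε : WOK ε) (B : Finset V) (J : ℕ)
    (g : Dart V d) : T.sg B ε J g ≤ 1 := by
  induction J generalizing g with
  | zero => unfold sg; split_ifs; exacts [(hε _).2, le_rfl]
  | succ J ih =>
    unfold sg
    split_ifs
    · have h1 := hε (T.cd g)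
      have h2 := avg_le (j := (T.N0 g).2) hd (h := fun i => T.sg B ε J ((T.N0 g).1, i))
        (b := 1) (fun i => ih _)
      nlinarith [h1.1, h1.2]
    · exact le_rfl

/-- lower bound: every step is cut with probability at least `lo` -/
theorem sg_lower (hd : 2 ≤ d) {ε : Dart V d → ℝ} {lo : ℝ} (hlo : ∀ e, lo ≤ ε e)
    (hε : WOK ε) (B : Finset V) (J : ℕ) (g : Dart V d) :
    1 - (1 - lo) ^ (J + 1) ≤ T.sg B ε J g := by
  have hlo1 : lo ≤ 1 := (hlo g).trans (hε g).2
  have hp : ∀ n : ℕ, 0 ≤ (1 - lo) ^ n := fun n => pow_nonneg (by linarith) n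
  induction J generalizing g with
  | zero =>
    unfold sg
    split_ifs
    · simpa using hlo _
    · linarith [hp (0 + 1)]
  | succ J ih =>
    unfold sg
    split_ifs
    · have h1 := hε (T.cd g)
      have h3 := hlo (T.cd g)
      have h2 := le_avg (j := (T.N0 g).2) hd (h := fun i => T.sg B ε J ((T.N0 g).1, i))
        (b := 1 - (1 - lo) ^ (J + 1)) (fun i => ih _)
      have h4 : (1 - ε (T.cd g)) * (1 - (1 - lo) ^ (J + 1)) ≤ (1 - ε (T.cd g)) *
        ((1 / ((d : ℝ) - 1)) * ∑ i ∈ Finset.univ.erase (T.N0 g).2,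
          T.sg B ε J ((T.N0 g).1, i)) := mul_le_mul_of_nonneg_left h2 (by linarith [h1.2])
      have h5 : (1 - ε (T.cd g)) * (1 - lo) ^ (J + 1) ≤ (1 - lo) * (1 - lo) ^ (J + 1) :=
        mul_le_mul_of_nonneg_right (by linarith) (hp _)
      rw [pow_succ' (1 - lo) (J + 1)]
      linarith
    · linarith [hp (J + 1 + 1)]

/-- upper bound, far from the boundary of the volume -/
theorem sg_upper (hG : G.IsTree) (hd : 2 ≤ d) {ε : Dart V d → ℝ} {hi : ℝ}
    (hhi : ∀ e, ε e ≤ hi) (hε : WOK ε) (B : Finset V) (J : ℕ) (g : Dart V d)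
    (hball : ∀ w, G.dist g.1 w ≤ J + 1 → w ∈ B) :
    T.sg B ε J g ≤ ((J : ℝ) + 1) * hi := by
  have hadj : G.dist g.1 (T.N0 g).1 = 1 := SimpleGraph.dist_eq_one_iff_adj.mpr (T.adj g)
  induction J generalizing g with
  | zero =>
    unfold sg
    rw [if_pos (hball _ (by omega))]
    simpa using hhi _
  | succ J ih =>
    unfold sg
    rw [if_pos (hball _ (by omega))]
    have h1 := hε (T.cd g)
    have h3 := hhi (T.cd g)
    have h2 := avg_le (j := (T.N0 g).2) hd (h := fun i => T.sg B ε J ((T.N0 g).1, i))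
      (b := ((J : ℝ) + 1) * hi) (fun i => ih _ (fun w hw => hball w (by
        have := hG.connected.dist_triangle (u := g.1) (v := (T.N0 g).1) (w := w)
        simp only at hw
        omega)) (SimpleGraph.dist_eq_one_iff_adj.mpr (T.adj _)))
    have h0 : 0 ≤ ((J : ℝ) + 1) * hi := by
      have : 0 ≤ hi := h1.1.trans h3
      positivity
    have h4 : (1 - ε (T.cd g)) * ((1 / ((d : ℝ) - 1)) * ∑ i ∈ Finset.univ.erase (T.N0 g).2,
          T.sg B ε J ((T.N0 g).1, i)) ≤ (1 - ε (T.cd g)) * (((J : ℝ) + 1) * hi) :=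
      mul_le_mul_of_nonneg_left h2 (by linarith [h1.2])
    have h6 : (1 - ε (T.cd g)) * (((J : ℝ) + 1) * hi) ≤ 1 * (((J : ℝ) + 1) * hi) :=
      mul_le_mul_of_nonneg_right (by linarith [h1.1]) h0
    push_cast
    linarith

end PT

end FI
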