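import Pool.Agent.H99.FI.Cost.F2Sum
import Pool.Agent.H99.FI.Cost.Lam

/-!
# Job F2 (MP_bdd10f_pr): the cost of the repairs, seen from a vertex
-/

set_option autoImplicit false

namespace FI

open Finset Function
open scoped Classical

/-- Job F2: the cost of the repairs at all edges, seen from a vertex `v`. -/
theorem cost_static {d : ℕ} [NeZero d] (hd : 3 ≤ d) : ∃ (C : ℝ) (R : ℕ → ℕ), 0 ≤ C ∧
    ∀ (s : ℕ) (V : Type) (G : SimpleGraph V) (_ : G.IsTree) (T : PT G d) (B : Finset V)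
      (_ : ∀ r ∈ B, Clo G r B) (v : V) (_ : ∀ w, G.dist v w ≤ R s → w ∈ B),
      ∃ b : Dart V d → ℝ, (∀ e, 0 ≤ b e) ∧ ∑ e ∈ T.EB B, b e ≤ C / 2 ^ s ∧
        ∀ ε : Dart V d → ℝ, Scale s ε → ∀ e ∈ T.EB B, ∀ ω : Cfg V d,
          T.EE ε B ∅ (T.chg (parS s) B e v) ω ≤ b e :=
  F2.cost_static_of hd (lam_bound hd)

end FI
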