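import Pool.Agent.H99.FI.Cost.Sig

/-!
# FI, cost of the repairs: the walk along the main chain
-/

set_option autoImplicit false

namespace FI

open Finset Function
open scoped Classical

variable {V : Type*} {G : SimpleGraph V} {d : ℕ}

namespace PT

variable (T : PT G d)

/-- both side chains of a position (and of the next one) are short; `c1, c2` the colours -/
def Zp (B : Finset V) (J : ℕ) (l b c1 c2 : Fin d) (f : Dart V d) (ω : Cfg V d) : Prop :=
  T.sd B (J + 1) (dt ω.1 f.1 b) b c1 ω ∧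
    T.sd B J (dt ω.1 (T.N0 (dt ω.1 f.1 l)).1 b) b c2 ω

/-- the walk: `m` pairs of positions left, counters `p`, `q`; the value is the leftover `K - p` when
the walk is stopped -/
noncomputable def Qw (B : Finset V) (K J : ℕ) (k l b : Fin d) :
    ℕ → ℕ → ℕ → Dart V d → Cfg V d → ℝ
  | 0, p, _, _, _ => (K : ℝ) - p
  | m + 1, p, q, f, ω =>
    if K ≤ p ∨ K ≤ q then (K : ℝ) - p else
    if T.nof B ω.2 (dt ω.1 f.1 l) = none then (K : ℝ) else
    if T.nof B ω.2 (dt ω.1 (T.N0 (dt ω.1 f.1 l)).1 k) = none then (K : ℝ) else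
    Qw B K J k l b m (p + if T.Zp B J l b k l f ω then 1 else 0)
      (q + if T.Zp B J l b l k f ω then 1 else 0)
      (T.N0 (dt ω.1 (T.N0 (dt ω.1 f.1 l)).1 k)) ω

variable {T}

theorem Qw_le (B : Finset V) (K J : ℕ) (k l b : Fin d) (m p q : ℕ) (f : Dart V d) (ω : Cfg V d) :
    T.Qw B K J k l b m p q f ω ≤ K := by
  induction m generalizing p q f with
  | zero => unfold Qw; have : (0 : ℝ) ≤ p := by positivity
            linarith
  | succ m ih =>
    have h0 : (0 : ℝ) ≤ p := by positivity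
    unfold Qw
    split_ifs
    · linarith
    · exact le_rfl
    · exact le_rfl
    all_goals exact ih _ _ _

/-- the potential -/
noncomputable def Wp (K : ℕ) (S θ η : ℝ) (m p q : ℕ) : ℝ :=
  ((((p : ℝ) - q) ^ 2 - (p + q) + 2 * K) / S + S) / 2 +
    K * 2 ^ K * (1 / 2) ^ p * (1 - θ / 2) ^ m + m * (2 * (K * η))

/-- linearised version -/
noncomputable def Wl (K : ℕ) (S θ η : ℝ) (m p q : ℕ) (x y : ℝ) : ℝ :=
  ((((p : ℝ) - q) ^ 2 - (p + q) + 2 * K) / S + S) / 2 + ((p : ℝ) - q) / S * (x - y) +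
    K * 2 ^ K * (1 / 2) ^ p * (1 - x / 2) * (1 - θ / 2) ^ m + m * (2 * (K * η))

theorem Wp_step {K : ℕ} {S θ η : ℝ} (hS : 0 < S) (m p q x y : ℕ) (hx : x = 0 ∨ x = 1)
    (hy : y = 0 ∨ y = 1) :
    Wp K S θ η m (p + x) (q + y) ≤ Wl K S θ η m p q x y := by
  unfold Wp Wl
  have h1 : ((1 : ℝ) / 2) ^ (p + x) = (1 / 2) ^ p * (1 - (x : ℝ) / 2) := by
    rcases hx with rfl | rfl
    · simp
    · rw [pow_add]; norm_num
  rw [h1]
  have h2 : ((((p + x : ℕ) : ℝ) - ((q + y : ℕ) : ℝ)) ^ 2 -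
      (((p + x : ℕ) : ℝ) + ((q + y : ℕ) : ℝ)) + 2 * K) / S ≤
      (((p : ℝ) - q) ^ 2 - (p + q) + 2 * K) / S + 2 * (((p : ℝ) - q) / S * ((x : ℝ) - y)) := by
    have : (((p : ℝ) - q) ^ 2 - (p + q) + 2 * K) / S + 2 * (((p : ℝ) - q) / S * ((x : ℝ) - y)) =
      (((p : ℝ) - q) ^ 2 - (p + q) + 2 * K + 2 * (((p : ℝ) - q) * ((x : ℝ) - y))) / S := by
      field_simp
    rw [this]
    apply div_le_div_of_nonneg_right _ hS.le
    push_cast
    rcases hx with rfl | rfl <;> rcases hy with rfl | rfl <;> push_cast <;> nlinarith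
  have h3 : (K : ℝ) * 2 ^ K * ((1 / 2) ^ p * (1 - (x : ℝ) / 2)) * (1 - θ / 2) ^ m =
    K * 2 ^ K * (1 / 2) ^ p * (1 - (x : ℝ) / 2) * (1 - θ / 2) ^ m := by ring
  linarith

theorem Wl_diag {K : ℕ} {S θ η t : ℝ} (hθ : θ ≤ t) (hθ1 : θ ≤ 1) (m p q : ℕ) :
    Wl K S θ η m p q t t ≤ Wp K S θ η (m + 1) p q - 2 * (K * η) := by
  unfold Wp Wl
  have h1 : (K : ℝ) * 2 ^ K * (1 / 2) ^ p * (1 - t / 2) * (1 - θ / 2) ^ m ≤
      K * 2 ^ K * (1 / 2) ^ p * (1 - θ / 2) ^ (m + 1) := by
    rw [pow_succ', ← mul_assoc]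
    apply mul_le_mul_of_nonneg_right _ (pow_nonneg (by linarith) m)
    apply mul_le_mul_of_nonneg_left (by linarith)
    positivity
  push_cast
  linarith

theorem Wp_nonneg_part {K : ℕ} {S θ η : ℝ} (hS : 0 < S) (hθ1 : θ ≤ 1) (m p q : ℕ)
    (hp : p ≤ K) (hq : q ≤ K) : m * (2 * (K * η)) ≤ Wp K S θ η m p q := by
  unfold Wp
  have h1 : (p : ℝ) ≤ K := by exact_mod_cast hp
  have h2 : (q : ℝ) ≤ K := by exact_mod_cast hq
  have h3 : 0 ≤ (((p : ℝ) - q) ^ 2 - (p + q) + 2 * K) / S := by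
    apply div_nonneg _ hS.le
    nlinarith [sq_nonneg ((p : ℝ) - q)]
  have h4 : 0 ≤ (K : ℝ) * 2 ^ K * (1 / 2) ^ p * (1 - θ / 2) ^ m := by
    have := pow_nonneg (by linarith : (0 : ℝ) ≤ 1 - θ / 2) m
    positivity
  linarith

theorem Wp_stop {K : ℕ} {S θ η : ℝ} (hS : 0 < S) (hθ1 : θ ≤ 1) (hη : 0 ≤ η) (m p q : ℕ)
    (hp : p ≤ K) (hq : q ≤ K) (h : K ≤ p ∨ K ≤ q) : (K : ℝ) - p ≤ Wp K S θ η m p q := by
  unfold Wp
  have h1 : (p : ℝ) ≤ K := by exact_mod_cast hp
  have h2 : (q : ℝ) ≤ K := by exact_mod_cast hq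
  have h4 : 0 ≤ (K : ℝ) * 2 ^ K * (1 / 2) ^ p * (1 - θ / 2) ^ m := by
    have := pow_nonneg (by linarith : (0 : ℝ) ≤ 1 - θ / 2) m
    positivity
  have h5 : 0 ≤ (m : ℝ) * (2 * (K * η)) := by positivity
  have h6 : (K : ℝ) - p ≤ |(p : ℝ) - q| := by
    rcases h with h | h
    · have : (K : ℝ) ≤ p := by exact_mod_cast h
      linarith [abs_nonneg ((p : ℝ) - q)]
    · have : (K : ℝ) ≤ q := by exact_mod_cast h
      rw [abs_sub_comm]
      exact (by linarith : (K : ℝ) - p ≤ q - p).trans (le_abs_self _)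
  have h7 : |(p : ℝ) - q| ≤ (((p : ℝ) - q) ^ 2 / S + S) / 2 := by
    rw [← sq_abs ((p : ℝ) - q)]
    have h8 : |(p : ℝ) - q| ^ 2 / S + S - 2 * |(p : ℝ) - q| = (|(p : ℝ) - q| - S) ^ 2 / S := by
      field_simp
      ring
    have h9 : 0 ≤ (|(p : ℝ) - q| - S) ^ 2 / S := by positivity
    linarith
  have h10 : ((p : ℝ) - q) ^ 2 / S ≤ (((p : ℝ) - q) ^ 2 - (p + q) + 2 * K) / S := by
    apply div_le_div_of_nonneg_right _ hS.le
    linarith
  linarith

theorem Wp_zero {K : ℕ} {S θ η : ℝ} (hS : 0 < S) (p q : ℕ)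
    (hp : p ≤ K) (hq : q ≤ K) : (K : ℝ) - p ≤ Wp K S θ η 0 p q := by
  unfold Wp
  have h1 : (p : ℝ) ≤ K := by exact_mod_cast hp
  have h2 : (q : ℝ) ≤ K := by exact_mod_cast hq
  have h3 : 0 ≤ (((p : ℝ) - q) ^ 2 - (p + q) + 2 * K) / S := by
    apply div_nonneg _ hS.le
    nlinarith [sq_nonneg ((p : ℝ) - q)]
  have h4 : (1 : ℝ) ≤ 2 ^ K * (1 / 2) ^ p := by
    obtain ⟨c, rfl⟩ := Nat.exists_eq_add_of_le hp
    have : (2 : ℝ) ^ (p + c) * (1 / 2) ^ p = 2 ^ c := by
      rw [pow_add, mul_right_comm, ← mul_pow]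
      norm_num
    rw [this]
    exact one_le_pow₀ (by norm_num)
  have h5 : (K : ℝ) * 1 ≤ K * (2 ^ K * (1 / 2) ^ p) :=
    mul_le_mul_of_nonneg_left h4 (by positivity)
  have h6 : (0 : ℝ) ≤ p := by positivity
  rw [pow_zero, mul_one, Nat.cast_zero, zero_mul, add_zero]
  linarith

/-- two independent side chains -/
theorem EE_two (hG : G.IsTree) (hd : 2 ≤ d) (ε : Dart V d → ℝ) {r : V} {A B : Finset V}
    (hA : Clo G r A) (hB : Clo G r B) (hAB : A ⊆ B) {h h' : Dart V d} (hh : h.1 ∈ A)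
    (hhA : (T.N0 h).1 ∉ A) (hh' : h'.1 ∈ A) (hhA' : (T.N0 h').1 ∉ A ∪ T.Br B h) (J J' : ℕ)
    {b c c' : Fin d} (hc : b ≠ c) (hc' : b ≠ c') (ω : Cfg V d) (e1 : col ω.1 h = b)
    (e2 : col ω.1 h' = b) :
    T.EE ε B A (fun ω => T.sdI B J h b c ω * T.sdI B J' h' b c' ω) ω =
      T.sg B ε J h * T.sg B ε J' h' := by
  have hcl := PT.Clo.union_Br (T := T) hG hA hB hh
  have hsub : A ∪ T.Br B h ⊆ B := Finset.union_subset hAB (Br_sub B h)
  rw [← EE_tower hG (by omega) ε hA hcl hB Finset.subset_union_left hsub]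
  have key : ∀ ω', Off (T.cA B A) ω ω' →
      T.EE ε B (A ∪ T.Br B h) (fun ω => T.sdI B J h b c ω * T.sdI B J' h' b c' ω) ω' =
      T.sg B ε J' h' * T.sdI B J h b c ω' := by
    intro ω' ho
    rw [EE_mul_left (T := T) (ε := ε) B (A ∪ T.Br B h)
      (noDep_sdI hG (Finset.mem_union_left _ hh) Finset.subset_union_right J b c)]
    rw [EE_sd hG hd ε hcl hB hsub (Finset.mem_union_left _ hh') hhA' J' hc' ω']
    · ring
    · have : ω'.1 h'.1 = ω.1 h'.1 :=
        ho.1 _ (by rw [mem_cA_inl]; exact fun h => h.2 hh')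
      unfold col at e2 ⊢
      rw [this, e2]
  rw [EE_congr_off ε ω (F' := fun ω' => T.sg B ε J' h' * T.sdI B J h b c ω') key]
  rw [congrFun (EE_smul (T := T) (ε := ε) B A (T.sg B ε J' h') (T.sdI B J h b c)) ω,
    EE_sd hG hd ε hA hB hAB hh hhA J hc ω e1]
  ring

/-- the main estimate for the walk -/
theorem EE_Qw (hG : G.IsTree) (hd : 2 ≤ d) {ε : Dart V d → ℝ} (hε : WOK ε) {B : Finset V}
    {r : V} (hB : Clo G r B) {K J : ℕ} {S θ η : ℝ} (hS : 0 < S) (hθ1 : θ ≤ 1)
    (hη : 0 ≤ η) (hup : ∀ e, ε e ≤ η)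
    (hsg : ∀ h h' : Dart V d, θ ≤ T.sg B ε (J + 1) h * T.sg B ε J h')
    {k l b : Fin d} (hkl : k ≠ l) (hbk : b ≠ k) (hbl : b ≠ l)
    (m p q : ℕ) (A : Finset V) (f : Dart V d) (ω : Cfg V d)
    (hA : Clo G r A) (hAB : A ⊆ B) (hf : f.1 ∈ A)
    (hfA : ∀ v ∈ A, T.Bey (T.N0 f) v → v = f.1) (hcol : col ω.1 f = k)
    (hball : ∀ w, G.dist f.1 w ≤ 2 * m → w ∈ B) (hp : p ≤ K) (hq : q ≤ K) :
    T.EE ε B A (T.Qw B K J k l b m p q f) ω ≤ Wp K S θ η m p q := by
  induction m generalizing p q A f ω with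
  | zero =>
    have h1 : T.Qw B K J k l b 0 p q f = fun _ => (K : ℝ) - p := by
      funext ω; rfl
    rw [h1, EE_const hG (by omega) ε hA hB hAB]
    exact Wp_zero hS p q hp hq
  | succ m ih =>
    by_cases hst : K ≤ p ∨ K ≤ q
    · have h1 : T.Qw B K J k l b (m + 1) p q f = fun _ => (K : ℝ) - p := by
        funext ω
        unfold Qw
        rw [if_pos hst]
      rw [h1, EE_const hG (by omega) ε hA hB hAB]
      exact Wp_stop hS hθ1 hη (m + 1) p q hp hq hst
    -- the value is always at most `K`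
    have hQK : ∀ (A' : Finset V) (ω' : Cfg V d), Clo G r A' → A' ⊆ B →
        T.EE ε B A' (T.Qw B K J k l b (m + 1) p q f) ω' ≤ K := by
      intro A' ω' h1 h2
      rw [← EE_const (T := T) hG (by omega : 1 ≤ d) ε h1 hB h2 (K : ℝ) ω']
      exact EE_mono B A' hε (fun ω => Qw_le B K J k l b (m + 1) p q f ω) ω'
    have hW1 : (K : ℝ) * η ≤ Wp K S θ η (m + 1) p q - K * η := by
      have h1 := Wp_nonneg_part (K := K) (η := η) hS hθ1 (m + 1) p q hp hq
      have h2 : (0 : ℝ) ≤ K * η := by positivity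
      have h3 : (1 : ℝ) ≤ ((m + 1 : ℕ) : ℝ) := by push_cast; linarith [Nat.cast_nonneg (α := ℝ) m]
      have h4 : 1 * (2 * (K * η)) ≤ ((m + 1 : ℕ) : ℝ) * (2 * (K * η)) :=
        mul_le_mul_of_nonneg_right h3 (by linarith)
      linarith
    -- the first edge
    set g0 : Dart V d := dt ω.1 f.1 l with hg0
    have hg01 : g0.1 = f.1 := rfl
    have hcg0 : col ω.1 g0 = l := by simp [hg0, col, dt]
    have hg0f : g0 ≠ f := by
      intro h; rw [h, hcol] at hcg0; exact hkl hcg0
    set w : V := (T.N0 g0).1 with hw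
    have hwb : T.Bey (T.N0 f) w := bey_sub hG hg01 hg0f (bey_N0 g0)
    have hwf : w ≠ f.1 := by
      intro h
      exact T.N0_ne g0 (h.trans hg01.symm)
    have hwA : w ∉ A := fun h => hwf (hfA w h hwb)
    have hadj0 : G.dist f.1 w = 1 := SimpleGraph.dist_eq_one_iff_adj.mpr (T.adj g0)
    have hwB : w ∈ B := hball w (by omega)
    have hmain := EE_edge_le (T := T) hG (by omega : 1 ≤ d) hε hA hAB (g := g0) hf hwA hwB
      (T.Qw B K J k l b (m + 1) p q f) ω (Wp K S θ η (m + 1) p q - K * η) K ?_ ?_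
    · have h1 := hε (T.cd g0)
      have h2 := hup (T.cd g0)
      have h3 : (0 : ℝ) ≤ K * η := by positivity
      have h4 : (1 - ε (T.cd g0)) * (Wp K S θ η (m + 1) p q - K * η) ≤
          1 * (Wp K S θ η (m + 1) p q - K * η) :=
        mul_le_mul_of_nonneg_right (by linarith [h1.1]) (by linarith)
      have h5 : ε (T.cd g0) * K ≤ η * K := mul_le_mul_of_nonneg_right h2 (by positivity)
      linarith
    swap
    · intro σ
      exact hQK _ _ (hA.insert hG hf (T.adj g0).symm) (Finset.insert_subset hwB hAB)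
    -- the edge is present
    intro σ hσ
    rw [hcg0] at hσ
    set ω1 : Cfg V d := (Function.update ω.1 (T.N0 g0).1 σ, Function.update ω.2 (T.cd g0) true)
      with hω1
    set A1 : Finset V := insert (T.N0 g0).1 A with hA1
    have hclA1 : Clo G r A1 := hA.insert hG hf (T.adj g0).symm
    have hA1B : A1 ⊆ B := Finset.insert_subset hwB hAB
    have hwA1 : w ∈ A1 := Finset.mem_insert_self _ _
    have hfA1 : f.1 ∈ A1 := Finset.mem_insert_of_mem hf
    set h : Dart V d := dt ω.1 f.1 b with hh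
    set h' : Dart V d := (w, σ.symm b) with hh'
    set g1 : Dart V d := (w, σ.symm k) with hg1
    have hxf : ω1.1 f.1 = ω.1 f.1 := by
      rw [hω1]
      exact Function.update_of_ne (fun h => hwf h.symm) _ _
    have hch : col ω1.1 h = b := by
      have : h.1 = f.1 := rfl
      unfold col
      rw [this, hxf]
      simp [hh, dt]
    have hch' : col ω1.1 h' = b := by
      simp [hω1, hh', col, hw]
    have hhg0 : h ≠ g0 := by
      intro he
      have h1 : col ω.1 h = b := by simp [hh, col, dt]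
      rw [he, hcg0] at h1
      exact hbl h1.symm
    have hhf : h ≠ f := by
      intro he
      have h1 : col ω.1 h = b := by simp [hh, col, dt]
      rw [he, hcol] at h1
      exact hbk h1.symm
    have hg1N : g1 ≠ T.N0 g0 := by
      intro he
      have h2 := congrArg Prod.snd he
      simp only [hg1] at h2
      rw [← h2, Equiv.apply_symm_apply] at hσ
      exact hkl hσ.symm
    have hh'N : h' ≠ T.N0 g0 := by
      intro he
      have h2 := congrArg Prod.snd he
      simp only [hh'] at h2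
      rw [← h2, Equiv.apply_symm_apply] at hσ
      exact hbl hσ.symm
    have hh'g1 : h' ≠ g1 := by
      intro he
      have h2 := congrArg Prod.snd he
      simp only [hh', hg1] at h2
      exact hbk (σ.symm.injective h2)
    have hhA1 : (T.N0 h).1 ∉ A1 := by
      rw [hA1, Finset.mem_insert, not_or]
      constructor
      · intro he
        have h1 := bey_disj (T := T) hG (g := h) (g' := g0) rfl hhg0 (bey_N0 h)
        rw [he] at h1
        exact h1 (bey_N0 g0)
      · intro he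
        have h1 := hfA _ he (bey_sub hG (f := f) (g := h) rfl hhf (bey_N0 h))
        exact T.N0_ne h h1
    have hsub1 : ∀ v, T.Bey g1 v → T.Bey g0 v := by
      intro v hv
      have := bey_sub (T := T) hG (f := T.N0 g0) (g := g1) rfl hg1N hv
      rwa [T.inv] at this
    have hsubh' : ∀ v, T.Bey h' v → T.Bey g0 v := by
      intro v hv
      have := bey_sub (T := T) hG (f := T.N0 g0) (g := h') rfl hh'N hv
      rwa [T.inv] at this
    have hh'A1 : (T.N0 h').1 ∉ A1 := notMem_step hG hA hf hwA rfl hh'N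
    have hg1A1 : (T.N0 g1).1 ∉ A1 := notMem_step hG hA hf hwA rfl hg1N
    have hh'A2 : (T.N0 h').1 ∉ A1 ∪ T.Br B h := by
      rw [Finset.mem_union, not_or]
      refine ⟨hh'A1, fun he => ?_⟩
      exact bey_disj hG (g := h) (g' := g0) rfl hhg0 (mem_Br.mp he).2 (hsubh' _ (bey_N0 h'))
    have hclA2 : Clo G r (A1 ∪ T.Br B h) := PT.Clo.union_Br (T := T) hG hclA1 hB hfA1
    have hclA3 : Clo G r (A1 ∪ T.Br B h ∪ T.Br B h') :=
      PT.Clo.union_Br (T := T) hG hclA2 hB (Finset.mem_union_left _ hwA1)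
    set A3 : Finset V := A1 ∪ T.Br B h ∪ T.Br B h' with hA3
    have hA13 : A1 ⊆ A3 := (Finset.subset_union_left).trans Finset.subset_union_left
    have hA3B : A3 ⊆ B := Finset.union_subset (Finset.union_subset hA1B (Br_sub B h)) (Br_sub B h')
    have hg1A3 : (T.N0 g1).1 ∉ A3 := by
      rw [hA3, Finset.mem_union, Finset.mem_union, not_or, not_or]
      refine ⟨⟨hg1A1, fun he => ?_⟩, fun he => ?_⟩
      · exact bey_disj hG (g := h) (g' := g0) rfl hhg0 (mem_Br.mp he).2 (hsub1 _ (bey_N0 g1))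
      · exact bey_disj hG (g := h') (g' := g1) rfl hh'g1 (mem_Br.mp he).2 (bey_N0 g1)
    have hadj1 : G.dist w (T.N0 g1).1 = 1 := SimpleGraph.dist_eq_one_iff_adj.mpr (T.adj g1)
    have hg1B : (T.N0 g1).1 ∈ B := hball _ (by
      have := hG.connected.dist_triangle (u := f.1) (v := w) (w := (T.N0 g1).1)
      omega)
    -- the indicator functions
    have hXY : ∀ (c1 c2 : Fin d) (ω' : Cfg V d), Off (T.cA B A1) ω1 ω' →
        (T.Zp B J l b c1 c2 f ω' ↔ (T.sd B (J + 1) h b c1 ω' ∧ T.sd B J h' b c2 ω')) := by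
      intro c1 c2 ω' ho
      have h1 := off_upd (g := g0) hf ho
      have h2 : ω'.1 f.1 = ω.1 f.1 := by
        rw [ho.1 _ (by rw [mem_cA_inl]; exact fun h => h.2 hfA1), hxf]
      have h3 : dt ω'.1 f.1 l = g0 := by unfold dt; rw [h2]; rfl
      have h4 : dt ω'.1 f.1 b = h := by unfold dt; rw [h2]; rfl
      have h5 : dt ω'.1 w b = h' := by unfold dt; rw [h1.1]
      unfold Zp
      rw [h3, h4, ← hw, h5]
    have hcast : ∀ (c1 c2 : Fin d) (ω' : Cfg V d), Off (T.cA B A1) ω1 ω' →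
        (((if T.Zp B J l b c1 c2 f ω' then 1 else 0 : ℕ)) : ℝ) =
          T.sdI B (J + 1) h b c1 ω' * T.sdI B J h' b c2 ω' := by
      intro c1 c2 ω' ho
      have h0 := hXY c1 c2 ω' ho
      clear_value g0 ω1 A1 h h' g1 A3
      unfold sdI
      by_cases h1 : T.sd B (J + 1) h b c1 ω'
      · by_cases h2 : T.sd B J h' b c2 ω'
        · rw [if_pos h1, if_pos h2, if_pos (h0.mpr ⟨h1, h2⟩)]; norm_num
        · rw [if_pos h1, if_neg h2, if_neg (fun h3 => h2 (h0.mp h3).2)]; norm_num
      · rw [if_neg h1, if_neg (fun h3 => h1 (h0.mp h3).1), zero_mul]; norm_num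
    have hEX := EE_two (T := T) hG hd ε hclA1 hB hA1B (h := h) (h' := h') hfA1 hhA1 hwA1 hh'A2
      (J + 1) J hbk hbl ω1 hch hch'
    have hEY := EE_two (T := T) hG hd ε hclA1 hB hA1B (h := h) (h' := h') hfA1 hhA1 hwA1 hh'A2
      (J + 1) J hbl hbk ω1 hch hch'
    -- the tower property
    rw [← EE_tower hG (by omega) ε hclA1 hclA3 hB hA13 hA3B]
    have hstep : ∀ ω', Off (T.cA B A1) ω1 ω' →
        T.EE ε B A3 (T.Qw B K J k l b (m + 1) p q f) ω' ≤
        Wl K S θ η m p q (T.sdI B (J + 1) h b k ω' * T.sdI B J h' b l ω')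
          (T.sdI B (J + 1) h b l ω' * T.sdI B J h' b k ω') + K * η := by
      intro ω' ho
      have h1 := off_upd (g := g0) hf ho
      have h2 : ω'.1 f.1 = ω.1 f.1 := by
        rw [ho.1 _ (by rw [mem_cA_inl]; exact fun h => h.2 hfA1), hxf]
      set X : ℕ := if T.Zp B J l b k l f ω' then 1 else 0 with hX
      set Y : ℕ := if T.Zp B J l b l k f ω' then 1 else 0 with hY
      have hX01 : X = 0 ∨ X = 1 := by rw [hX]; split_ifs <;> simp
      have hY01 : Y = 0 ∨ Y = 1 := by rw [hY]; split_ifs <;> simp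
      rw [← hcast k l ω' ho, ← hcast l k ω' ho]
      push Not at hst
      have hpX : p + X ≤ K := by rcases hX01 with h | h <;> omega
      have hqY : q + Y ≤ K := by rcases hY01 with h | h <;> omega
      have hWn := Wp_nonneg_part (K := K) (η := η) hS hθ1 m (p + X) (q + Y) hpX hqY
      have hWn' : 0 ≤ Wp K S θ η m (p + X) (q + Y) := le_trans (by positivity) hWn
      have hcg1 : col ω'.1 g1 = k := by
        unfold col
        rw [hg1]
        simp only
        rw [h1.1]
        simp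
      have hedge := EE_edge_le (T := T) hG (by omega : 1 ≤ d) hε hclA3 hA3B (g := g1)
        (hA13 hwA1) hg1A3 hg1B (T.Qw B K J k l b (m + 1) p q f) ω'
        (Wp K S θ η m (p + X) (q + Y)) K ?_ ?_
      · have a1 := hε (T.cd g1)
        have a2 := hup (T.cd g1)
        have a4 : (1 - ε (T.cd g1)) * Wp K S θ η m (p + X) (q + Y) ≤
            1 * Wp K S θ η m (p + X) (q + Y) :=
          mul_le_mul_of_nonneg_right (by linarith [a1.1]) hWn'
        have a5 : ε (T.cd g1) * K ≤ η * K := mul_le_mul_of_nonneg_right a2 (by positivity)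
        have a6 := Wp_step (K := K) (θ := θ) (η := η) hS m p q X Y hX01 hY01
        linarith
      swap
      · intro σ'
        exact hQK _ _ (hclA3.insert hG (hA13 hwA1) (T.adj g1).symm)
          (Finset.insert_subset hg1B hA3B)
      intro σ' hσ'
      rw [hcg1] at hσ'
      set ω2 : Cfg V d := (Function.update ω'.1 (T.N0 g1).1 σ',
        Function.update ω'.2 (T.cd g1) true) with hω2
      have hrew : T.EE ε B (insert (T.N0 g1).1 A3) (T.Qw B K J k l b (m + 1) p q f) ω2 =
          T.EE ε B (insert (T.N0 g1).1 A3) (T.Qw B K J k l b m (p + X) (q + Y) (T.N0 g1)) ω2 := by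
        refine EE_congr_off ε ω2 fun ω3 ho3 => ?_
        have b1 := off_upd (g := g1) (hA13 hwA1) ho3
        -- ω3 agrees with ω' on A3
        have b2 : ∀ v ∈ A3, ω3.1 v = ω'.1 v := by
          intro v hv
          rw [ho3.1 _ (by rw [mem_cA_inl]; exact fun h => h.2 (Finset.mem_insert_of_mem hv)),
            hω2]
          exact Function.update_of_ne (fun hh : v = (T.N0 g1).1 => hg1A3 (hh ▸ hv)) _ _
        have b3 : ∀ e ∈ T.EB A3, ω3.2 e = ω'.2 e := by
          intro e he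
          rw [ho3.2 _ (by rw [mem_cA_inr]
                          exact fun h => h.2 (T.EB_mono (Finset.subset_insert _ _) he)), hω2]
          refine Function.update_of_ne (fun hh : e = T.cd g1 => ?_) _ _
          exact cd_notMem_EB hg1A3 (hh ▸ he)
        have b4 : ω3.1 f.1 = ω.1 f.1 := by rw [b2 _ (hA13 hfA1), h2]
        have b5 : dt ω3.1 f.1 l = g0 := by unfold dt; rw [b4]; rfl
        have b6 : dt ω3.1 w k = g1 := by unfold dt; rw [b2 _ (hA13 hwA1), h1.1]
        have b7 : ω3.2 (T.cd g0) = true := by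
          rw [b3 _ (T.cd_mem_EB (a := g0) (hA13 hfA1) (hA13 hwA1)), h1.2]
        have b8 : T.nof B ω3.2 g0 = some (T.N0 g0) :=
          T.nof_some.mpr ⟨hAB hf, hwB, b7, rfl⟩
        have b9 : T.nof B ω3.2 g1 = some (T.N0 g1) :=
          T.nof_some.mpr ⟨hwB, hg1B, b1.2, rfl⟩
        have hst' : ¬ (K ≤ p ∨ K ≤ q) := by omega
        have hoff : Off (T.cA B A3) ω' ω3 := by
          constructor
          · intro v hv
            rw [mem_cA_inl, not_and_or, not_not] at hv
            rcases hv with hv | hv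
            · rw [ho3.1 _ (by rw [mem_cA_inl]; exact fun h => hv h.1), hω2]
              exact Function.update_of_ne (fun hh : v = (T.N0 g1).1 => hv (hh ▸ hg1B)) _ _
            · exact b2 v hv
          · intro e he
            rw [mem_cA_inr, not_and_or, not_not] at he
            rcases he with he | he
            · rw [ho3.2 _ (by rw [mem_cA_inr]; exact fun h => he h.1), hω2]
              exact Function.update_of_ne
                (fun hh : e = T.cd g1 => he (hh ▸ T.cd_mem_EB (a := g1) hwB hg1B)) _ _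
            · exact b3 e he
        have hoff1 : Off (T.cA B A1) ω1 ω3 := by
          refine ho.trans (hoff.mono ?_)
          intro i hi
          cases i with
          | inl v =>
            rw [mem_cA_inl] at hi ⊢
            exact ⟨hi.1, fun h => hi.2 (hA13 h)⟩
          | inr e =>
            rw [mem_cA_inr] at hi ⊢
            exact ⟨hi.1, fun h => hi.2 (T.EB_mono hA13 h)⟩
        have hag : T.Agr B h ω' ω3 := agr_of_off (g := h) hG (hA13 hfA1)
          ((Finset.subset_union_right).trans Finset.subset_union_left) hoff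
        have hag' : T.Agr B h' ω' ω3 := agr_of_off (g := h') hG (hA13 hwA1)
          Finset.subset_union_right hoff
        have hZ : ∀ c1 c2 : Fin d, T.Zp B J l b c1 c2 f ω3 ↔ T.Zp B J l b c1 c2 f ω' := by
          intro c1 c2
          rw [hXY c1 c2 ω3 hoff1, hXY c1 c2 ω' ho, sd_congr hG (J + 1) b c1 hag,
            sd_congr hG J b c2 hag']
        rw [Qw, if_neg hst', b5, ← hw, b6, b8, b9, if_neg (by simp), if_neg (by simp)]
        simp only [hZ]
        rw [hX, hY]
      rw [hrew]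
      refine ih (p + X) (q + Y) (insert (T.N0 g1).1 A3) (T.N0 g1) ω2
        (hclA3.insert hG (hA13 hwA1) (T.adj g1).symm) (Finset.insert_subset hg1B hA3B)
        (Finset.mem_insert_self _ _) ?_ ?_ ?_ hpX hqY
      · intro v hv hb
        rw [T.inv] at hb
        rcases Finset.mem_insert.mp hv with hv | hv
        · exact hv
        · exact absurd hb (PT.Clo.not_bey (g := g1) hG hclA3 (hA13 hwA1) hg1A3 hv)
      · rw [hω2]
        simp [col, ← hσ']
      · intro v hv
        apply hball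
        have a1 := hG.connected.dist_triangle (u := f.1) (v := w) (w := v)
        have a2 := hG.connected.dist_triangle (u := w) (v := (T.N0 g1).1) (w := v)
        omega
    refine (EE_mono_off B A1 hε ω1 hstep).trans ?_
    -- compute the expectation of the linear function
    have hlin : (fun ω' => Wl K S θ η m p q (T.sdI B (J + 1) h b k ω' * T.sdI B J h' b l ω')
          (T.sdI B (J + 1) h b l ω' * T.sdI B J h' b k ω') + K * η) =
        fun ω' => (Wl K S θ η m p q 0 0 + K * η) +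
          ((((p : ℝ) - q) / S - K * 2 ^ K * (1 / 2) ^ p * (1 - θ / 2) ^ m / 2) *
            (T.sdI B (J + 1) h b k ω' * T.sdI B J h' b l ω') +
          (-(((p : ℝ) - q) / S)) * (T.sdI B (J + 1) h b l ω' * T.sdI B J h' b k ω')) := by
      funext ω'
      unfold Wl
      ring
    rw [hlin, EE_add]
    simp only
    rw [EE_const hG (by omega) ε hclA1 hB hA1B, EE_add]
    simp only
    rw [EE_smul, EE_smul]
    simp only
    rw [hEX, hEY]
    have hdiag := Wl_diag (K := K) (S := S) (θ := θ) (η := η)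
      (t := T.sg B ε (J + 1) h * T.sg B ε J h') (hsg h h') hθ1 m p q
    have hfin : Wl K S θ η m p q 0 0 + K * η +
        ((((p : ℝ) - q) / S - K * 2 ^ K * (1 / 2) ^ p * (1 - θ / 2) ^ m / 2) *
            (T.sg B ε (J + 1) h * T.sg B ε J h') +
          (-(((p : ℝ) - q) / S)) * (T.sg B ε (J + 1) h * T.sg B ε J h')) =
        Wl K S θ η m p q (T.sg B ε (J + 1) h * T.sg B ε J h')
          (T.sg B ε (J + 1) h * T.sg B ε J h') + K * η := by
      unfold Wl
      ring
    rw [hfin]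
    linarith

end PT

end FI
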