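import Pool.Agent.H99.FI.LawStep
import Pool.Agent.H99.FI.Noise.Out
import Pool.Agent.H99.FI.Cost.Spec

/-!
# Job W (MP_bdd10f_pr): cost of a window from the cost of single repairs
-/

set_option autoImplicit false

namespace FI

open Finset Function
open scoped Classical

section W

variable {V : Type*} {G : SimpleGraph V} {d : ℕ}

/-- cost function of a list of repairs: the probability (over the noise) weights of the changes
at `v` made by the single repairs. -/
noncomputable def PT.CW (T : PT G d) [NeZero d] (P : Par) (B : Finset V) (p : ℝ) (v : V) :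
    List (Dart V d) → Cfg V d → ℝ
  | [], _ => 0
  | e :: L, ω => ((1 - p) * T.CW P B p v L ω +
      p * ((1 / (P.K : ℝ)) * ∑ ξ ∈ range P.K, T.CW P B p v L (T.hit P B e ξ ω))) +
      p * T.chg P B e v ω

theorem PT.chg_hit (T : PT G d) [NeZero d] (P : Par) (B : Finset V) (e : Dart V d) (v : V)
    (ω : Cfg V d) : T.chg P B e v ω = (1 / (P.K : ℝ)) * ∑ ξ ∈ range P.K,
      (if (T.hit P B e ξ ω).1 v = ω.1 v then (0 : ℝ) else 1) := by
  unfold PT.chg
  by_cases h : ω.2 e = false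
  · rw [if_pos h]
    congr 1
    refine Finset.sum_congr rfl fun ξ _ => ?_
    rw [T.hit_cut P B e ξ h]
    by_cases h2 : kern P (T.nof B ω.2) ω.1 ξ e (T.N0 e) v = ω.1 v
    · simp [h2]
    · simp [h2]
  · rw [if_neg h]
    have h' : ω.2 e = true := by simpa using h
    simp [T.hit_uncut P B e _ h']

/-- pointwise bound of the coupled expectation by the cost function -/
theorem PT.VP_le_CW (T : PT G d) [NeZero d] (P : Par) (hK : 0 < P.K) (B : Finset V) {p : ℝ}
    (hp0 : 0 ≤ p) (hp1 : p ≤ 1) (v : V) (L : List (Dart V d)) (ω ω' : Cfg V d) :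
    VP p P.K (T.hs P B (fun _ => true)) (fun _ _ ω => ω) L
      (fun ω ω' => if ω.1 v = ω'.1 v then (0 : ℝ) else 1) ω ω' ≤
      (if ω.1 v = ω'.1 v then (0 : ℝ) else 1) + T.CW P B p v L ω := by
  have hKR : (0 : ℝ) < P.K := by exact_mod_cast hK
  induction L generalizing ω with
  | nil => simp [VP, PT.CW]
  | cons e L ih =>
    simp only [VP, PT.CW]
    rw [T.chg_hit P B e v ω]
    have h1 : (1 - p) * VP p P.K (T.hs P B (fun _ => true)) (fun _ _ ω => ω) L
        (fun ω ω' => if ω.1 v = ω'.1 v then (0 : ℝ) else 1) ω ω' ≤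
        (1 - p) * ((if ω.1 v = ω'.1 v then (0 : ℝ) else 1) + T.CW P B p v L ω) :=
      mul_le_mul_of_nonneg_left (ih ω) (by linarith)
    have h2 : (1 / (P.K : ℝ)) * ∑ ξ ∈ range P.K,
        VP p P.K (T.hs P B (fun _ => true)) (fun _ _ ω => ω) L
          (fun ω ω' => if ω.1 v = ω'.1 v then (0 : ℝ) else 1)
          (T.hs P B (fun _ => true) e ξ ω) ω' ≤
        (1 / (P.K : ℝ)) * ∑ ξ ∈ range P.K,
          ((if ω.1 v = ω'.1 v then (0 : ℝ) else 1) +
            (if (T.hit P B e ξ ω).1 v = ω.1 v then (0 : ℝ) else 1) +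
            T.CW P B p v L (T.hit P B e ξ ω)) := by
      refine mul_le_mul_of_nonneg_left (Finset.sum_le_sum fun ξ _ => ?_) (by positivity)
      refine (ih (T.hit P B e ξ ω)).trans ?_
      have h3 : (if (T.hit P B e ξ ω).1 v = ω'.1 v then (0 : ℝ) else 1) ≤
          (if ω.1 v = ω'.1 v then (0 : ℝ) else 1) +
            (if (T.hit P B e ξ ω).1 v = ω.1 v then (0 : ℝ) else 1) := by
        by_cases ha : (T.hit P B e ξ ω).1 v = ω'.1 v
        · rw [if_pos ha]
          split_ifs <;> norm_num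
        · rw [if_neg ha]
          by_cases hb : ω.1 v = ω'.1 v
          · rw [if_pos hb, if_neg (fun h => ha (h.trans hb))]
            norm_num
          · rw [if_neg hb]
            split_ifs <;> norm_num
      linarith
    have h3 : (1 / (P.K : ℝ)) * ∑ ξ ∈ range P.K,
          ((if ω.1 v = ω'.1 v then (0 : ℝ) else 1) +
            (if (T.hit P B e ξ ω).1 v = ω.1 v then (0 : ℝ) else 1) +
            T.CW P B p v L (T.hit P B e ξ ω)) =
        (if ω.1 v = ω'.1 v then (0 : ℝ) else 1) +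
        (1 / (P.K : ℝ)) * ∑ ξ ∈ range P.K,
          (if (T.hit P B e ξ ω).1 v = ω.1 v then (0 : ℝ) else 1) +
        (1 / (P.K : ℝ)) * ∑ ξ ∈ range P.K, T.CW P B p v L (T.hit P B e ξ ω) := by
      rw [Finset.sum_add_distrib, Finset.sum_add_distrib, Finset.sum_const, Finset.card_range,
        nsmul_eq_mul, mul_add, mul_add]
      congr 2
      rw [← mul_assoc, one_div, inv_mul_cancel₀ hKR.ne', one_mul]
    rw [h3] at h2
    have h4 := mul_le_mul_of_nonneg_left h2 hp0
    linarith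

theorem PT.EE_CW_le (T : PT G d) [NeZero d] (hd : 3 ≤ d) (hG : G.IsTree) (P : Par)
    (hK : 0 < P.K) (B : Finset V) {p : ℝ} (hp0 : 0 ≤ p) (hp1 : p ≤ 1) (v : V)
    (b : Dart V d → ℝ) (lo hi : ℝ) (L : List (Dart V d)) (hL : L.Nodup)
    (hLB : ∀ a ∈ L, a ∈ T.EB B) (ε : Dart V d → ℝ) (hε : WOK ε)
    (hlo : ∀ e ∈ L, lo ≤ ε e * (1 - p)) (hlo' : ∀ e, lo ≤ ε e) (hhi : ∀ e, ε e ≤ hi)
    (hb : ∀ ε' : Dart V d → ℝ, (∀ e, lo ≤ ε' e ∧ ε' e ≤ hi) → ∀ e ∈ L, ∀ ω : Cfg V d,
      T.EE ε' B ∅ (T.chg P B e v) ω ≤ b e) (ω : Cfg V d) :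
    T.EE ε B ∅ (T.CW P B p v L) ω ≤ p * (L.map b).sum := by
  induction L generalizing ε with
  | nil =>
    have h0 : T.CW P B p v [] = fun _ : Cfg V d => (0 : ℝ) := by funext ω; rfl
    rw [h0, T.EE_zero]
    simp
  | cons e L ih =>
    rw [List.nodup_cons] at hL
    have h0 : T.CW P B p v (e :: L) = fun ω => ((1 - p) * T.CW P B p v L ω +
        p * ((1 / (P.K : ℝ)) * ∑ ξ ∈ range P.K, T.CW P B p v L (T.hit P B e ξ ω))) +
        p * T.chg P B e v ω := by funext ω; rfl
    rw [h0, PT.EE_add ε B ∅, PT.EE_smul ε B ∅ p (T.chg P B e v)]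
    simp only
    rw [PT.law_step hd hG P hK (hLB e (by simp)) ε p (T.CW P B p v L) ω]
    have he0 := (hε e).1
    have he1 := (hε e).2
    have hle : ε e * (1 - p) ≤ ε e := by nlinarith
    have h1 := ih hL.2 (fun a ha => hLB a (by simp [ha])) (Function.update ε e (ε e * (1 - p)))
      (by
        intro c
        by_cases hc : c = e
        · subst hc
          rw [Function.update_self]
          exact ⟨mul_nonneg he0 (by linarith), by linarith⟩
        · rw [Function.update_of_ne hc]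
          exact hε c)
      (by
        intro c hc
        have hce : c ≠ e := fun h => hL.1 (h ▸ hc)
        rw [Function.update_of_ne hce]
        exact hlo c (by simp [hc]))
      (by
        intro c
        by_cases hc : c = e
        · subst hc
          rw [Function.update_self]
          exact hlo c (by simp)
        · rw [Function.update_of_ne hc]
          exact hlo' c)
      (by
        intro c
        by_cases hc : c = e
        · subst hc
          rw [Function.update_self]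
          exact hle.trans (hhi c)
        · rw [Function.update_of_ne hc]
          exact hhi c)
      (fun ε' hε' c hc ω => hb ε' hε' c (by simp [hc]) ω)
    have h2 := hb ε (fun c => ⟨hlo' c, hhi c⟩) e (by simp) ω
    have h3 := mul_le_mul_of_nonneg_left h2 hp0
    rw [List.map_cons, List.sum_cons, mul_add]
    linarith

/-- Job W: the cost of a window from the cost of single repairs (`b` as in cost_static). -/
theorem cost_list [NeZero d] (hd : 3 ≤ d)
    (hG : G.IsTree) (T : PT G d) (P : Par) (hK : 0 < P.K) (B : Finset V) {p : ℝ} (hp0 : 0 ≤ p)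
    (hp1 : p ≤ 1) (v : V) (L : List (Dart V d)) (hL : L.Nodup) (hLB : ∀ a ∈ L, a ∈ T.EB B)
    (ε : Dart V d → ℝ) (hε : WOK ε) (b : Dart V d → ℝ) (lo hi : ℝ)
    (hlo : ∀ e, lo ≤ ε e * (1 - p)) (hhi : ∀ e, ε e ≤ hi)
    (hb : ∀ ε' : Dart V d → ℝ, (∀ e, lo ≤ ε' e ∧ ε' e ≤ hi) → ∀ e ∈ L, ∀ ω : Cfg V d,
      T.EE ε' B ∅ (fun ω => if ω.2 e = false then (1 / (P.K : ℝ)) * ∑ ξ ∈ range P.K,
        (if kern P (T.nof B ω.2) ω.1 ξ e (T.N0 e) v ≠ ω.1 v then (1 : ℝ) else 0) else 0) ω ≤ b e)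
    (ω : Cfg V d) :
    T.EE ε B ∅ (fun ω => VP p P.K (T.hs P B (fun _ => true)) (fun _ _ ω => ω) L
      (fun ω ω' => if ω.1 v = ω'.1 v then 0 else 1) ω ω) ω ≤ p * (L.map b).sum := by
  refine (PT.EE_mono B ∅ hε (fun ω => ?_) ω).trans
    (T.EE_CW_le hd hG P hK B hp0 hp1 v b lo hi L hL hLB ε hε (fun e _ => hlo e)
      (fun e => (hlo e).trans (by have := (hε e).1; nlinarith)) hhi hb ω)
  have h := T.VP_le_CW P hK B hp0 hp1 v L ω ω
  rw [if_pos rfl, zero_add] at h
  exact h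

end W

/-- `CostWindow` from `cost_static` (job F2) -/
theorem costWindow_of {d : ℕ} [NeZero d] (hd : 3 ≤ d)
    (hstatic : ∃ (C : ℝ) (R : ℕ → ℕ), 0 ≤ C ∧
      ∀ (s : ℕ) (V : Type) (G : SimpleGraph V) (_ : G.IsTree) (T : PT G d) (B : Finset V)
        (_ : ∀ r ∈ B, Clo G r B) (v : V) (_ : ∀ w, G.dist v w ≤ R s → w ∈ B),
        ∃ b : Dart V d → ℝ, (∀ e, 0 ≤ b e) ∧ ∑ e ∈ T.EB B, b e ≤ C / 2 ^ s ∧
          ∀ ε : Dart V d → ℝ, Scale s ε → ∀ e ∈ T.EB B, ∀ ω : Cfg V d,
            T.EE ε B ∅ (T.chg (parS s) B e v) ω ≤ b e) : CostWindow d := by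
  obtain ⟨C, R, hC, hst⟩ := hstatic
  refine ⟨C, R, hC, ?_⟩
  intro s p hp0 hp1 V G hG T ε hε1 hε2 B hB v hv ω
  obtain ⟨b, hb0, hbs, hb⟩ := hst s V G hG T.toPT B hB v hv
  have hpow : (1 : ℝ) / 2 ^ (8 * s) ≤ 1 := by
    rw [div_le_one (by positivity)]
    exact one_le_pow₀ (by norm_num)
  have hpos : (0 : ℝ) < 1 / 2 ^ (8 * s + 8) := by positivity
  have hhalf : (1 : ℝ) / 2 ^ (8 * s + 9) = 1 / 2 ^ (8 * s + 8) * (1 / 2) := by
    rw [pow_succ]
    field_simp
  have h := cost_list hd hG T.toPT (parS s) (parS_pos s) B hp0 (by linarith) v (T.lst B)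
    (T.lst_nodup B) (fun a ha => (T.lst_mem B a).mp ha) (fun _ => ε)
    (fun _ => ⟨by linarith, by linarith⟩) b (1 / 2 ^ (8 * s + 9)) (1 / 2 ^ (8 * s))
    (fun _ => by rw [hhalf]; nlinarith) (fun _ => hε2)
    (fun ε' hε' e he ω => hb ε' hε' e ((T.lst_mem B e).mp he) ω) ω
  refine h.trans (mul_le_mul_of_nonneg_left ?_ hp0)
  refine le_trans (le_of_eq ?_) hbs
  rw [← List.sum_toFinset b (T.lst_nodup B)]
  refine Finset.sum_congr ?_ fun _ _ => rfl
  ext a
  rw [List.mem_toFinset]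
  exact T.lst_mem B a

end FI
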